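import Pool.Agent.Lib.MP_b9e19b_mp.Cert.C4_0
import Pool.Agent.Lib.MP_b9e19b_mp.Box.PieceS

set_option autoImplicit false

/-! The certificates for `4` bodies together. -/

namespace RelEqN.Small.Box

open K

theorem n4_0 : NoCfg 4 0x400040004000400004cc 0xc000c000c000c0000eb9 :=
  piece0 good4 c4_0 x4_0

/-- the root box contains no configuration of `4` bodies -/
theorem noCfg4 : NoCfg 4 0x400040004000400004cc 0xc000c000c000c0000eb9 := n4_0

end RelEqN.Small.Box
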