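import Pool.Agent.Lib.MP_b9e19b_mp.Cert.C5_0
import Pool.Agent.Lib.MP_b9e19b_mp.Cert.C5_1
import Pool.Agent.Lib.MP_b9e19b_mp.Cert.C5_2
import Pool.Agent.Lib.MP_b9e19b_mp.Cert.C5_3
import Pool.Agent.Lib.MP_b9e19b_mp.Cert.C5_4
import Pool.Agent.Lib.MP_b9e19b_mp.Cert.C5_5
import Pool.Agent.Lib.MP_b9e19b_mp.Cert.C5_6
import Pool.Agent.Lib.MP_b9e19b_mp.Cert.C5_7
import Pool.Agent.Lib.MP_b9e19b_mp.Cert.C5_8
import Pool.Agent.Lib.MP_b9e19b_mp.Cert.C5_9
import Pool.Agent.Lib.MP_b9e19b_mp.Cert.C5_10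
import Pool.Agent.Lib.MP_b9e19b_mp.Cert.C5_11
import Pool.Agent.Lib.MP_b9e19b_mp.Cert.C5_12
import Pool.Agent.Lib.MP_b9e19b_mp.Cert.C5_13
import Pool.Agent.Lib.MP_b9e19b_mp.Cert.C5_14
import Pool.Agent.Lib.MP_b9e19b_mp.Box.PieceS

set_option autoImplicit false

/-! The certificates for `5` bodies together. -/

namespace RelEqN.Small.Box

open K

theorem n5_0 : NoCfg 5 0x40004000400040008000400004cc 0xc000c000c000c000c00080000eb9 :=
  piece0 good5 c5_0 x5_0

theorem n5_1 : NoCfg 5 0x8f478800800097f56903900007f9 0x97669000881ea000721998000b36 :=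
  piece0 good5 c5_1 x5_1

theorem n5_2 : NoCfg 5 0x8f478000881e90006903900007f9 0x97669000903da000721998000cbf :=
  piece0 good5 c5_2 x5_2

theorem n5_3 : NoCfg 5 0x8f478000800090007219900006c8 0x97669000903da0008000a0000c2b :=
  piece0 good5 c5_3 x5_3

theorem n5_4 : NoCfg 5 0x7f0a8000800080007219900006c8 0x9f85a000a07ba0008000a0000eb9 :=
  piece good5 c5_4 x5_4 (by
    simp only [List.forall_mem_cons, List.not_mem_nil, false_imp_iff, implies_true, and_true]
    exact n5_3)

theorem n5_5 : NoCfg 5 0x7f0a8000800080006433800006c8 0x9f85a000a07ba000800090000eb9 :=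
  piece0 good5 c5_5 x5_5

theorem n5_6 : NoCfg 5 0x7f0a8000800080006433800004cc 0xc000c000c000a0008000a0000eb9 :=
  piece good5 c5_6 x5_6 (by
    simp only [List.forall_mem_cons, List.not_mem_nil, false_imp_iff, implies_true, and_true]
    exact ⟨n5_5, n5_1, n5_2, n5_4⟩)

theorem n5_7 : NoCfg 5 0x40008000800080004000800004cc 0xc000c000c000c0008000c0000eb9 :=
  piece good5 c5_7 x5_7 (by
    simp only [List.forall_mem_cons, List.not_mem_nil, false_imp_iff, implies_true, and_true]
    exact n5_6)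

theorem n5_8 : NoCfg 5 0x40004000400080004000800004cc 0xc000c0008000c0008000c0000eb9 :=
  piece0 good5 c5_8 x5_8

theorem n5_9 : NoCfg 5 0x40004000400040004000800004cc 0xc000c000c00080008000c0000eb9 :=
  piece0 good5 c5_9 x5_9

theorem n5_10 : NoCfg 5 0x9906800080005f858000800004cc 0xb3029742a0008000903da0000eb9 :=
  piece0 good5 c5_10 x5_10

theorem n5_11 : NoCfg 5 0x40004000400040008000800004cc 0xc000c000c0008000c000c0000eb9 :=
  piece good5 c5_11 x5_11 (by
    simp only [List.forall_mem_cons, List.not_mem_nil, false_imp_iff, implies_true, and_true]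
    exact n5_10)

theorem n5_12 : NoCfg 5 0x40004000400040008000800004cc 0xc000c000c000c000c000c0000eb9 :=
  piece good5 c5_12 x5_12 (by
    simp only [List.forall_mem_cons, List.not_mem_nil, false_imp_iff, implies_true, and_true]
    exact n5_11)

theorem n5_13 : NoCfg 5 0x40004000400040004000400004cc 0xc000c000c000c000c00080000eb9 :=
  piece good5 c5_13 x5_13 (by
    simp only [List.forall_mem_cons, List.not_mem_nil, false_imp_iff, implies_true, and_true]
    exact n5_0)

theorem n5_14 : NoCfg 5 0x40004000400040004000400004cc 0xc000c000c000c000c000c0000eb9 :=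
  piece good5 c5_14 x5_14 (by
    simp only [List.forall_mem_cons, List.not_mem_nil, false_imp_iff, implies_true, and_true]
    exact ⟨n5_13, n5_9, n5_8, n5_7, n5_12⟩)

/-- the root box contains no configuration of `5` bodies -/
theorem noCfg5 : NoCfg 5 0x40004000400040004000400004cc 0xc000c000c000c000c000c0000eb9 := n5_14

end RelEqN.Small.Box
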