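import Pool.Agent.Lib.MP_b9e19b_mp.Cert.C6_0
import Pool.Agent.Lib.MP_b9e19b_mp.Cert.C6_1
import Pool.Agent.Lib.MP_b9e19b_mp.Cert.C6_2
import Pool.Agent.Lib.MP_b9e19b_mp.Cert.C6_3
import Pool.Agent.Lib.MP_b9e19b_mp.Cert.C6_4
import Pool.Agent.Lib.MP_b9e19b_mp.Cert.C6_5
import Pool.Agent.Lib.MP_b9e19b_mp.Cert.C6_6
import Pool.Agent.Lib.MP_b9e19b_mp.Cert.C6_7
import Pool.Agent.Lib.MP_b9e19b_mp.Cert.C6_8
import Pool.Agent.Lib.MP_b9e19b_mp.Box.PieceGS

set_option autoImplicit false

/-! The certificates for `6` bodies together. -/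

namespace RelEqN.Small.Box

open K

theorem n6_0 : NoCfg 6 0x8000800080008000800080008000a00004cc 0xc000a000c000a000c000a000a000c0000eb9 :=
  pieceG0 good6 c6_0 x6_0

theorem n6_1 : NoCfg 6 0x8000800080008000800080008000a00004cc 0xc000c000c000c000c000a000a000c0000eb9 :=
  pieceG good6 c6_1 x6_1 (by
    simp only [List.forall_mem_cons, List.not_mem_nil, false_imp_iff, implies_true, and_true]
    exact n6_0)

theorem n6_2 : NoCfg 6 0x8000800080008000800080008000a00004cc 0xc000c000c000c000c000c000a000c0000eb9 :=
  pieceG good6 c6_2 x6_2 (by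
    simp only [List.forall_mem_cons, List.not_mem_nil, false_imp_iff, implies_true, and_true]
    exact n6_1)

theorem n6_3 : NoCfg 6 0x80008000800080008000a0008000800004cc 0xc000a000c000a000a000c000a000a0000eb9 :=
  pieceG0 good6 c6_3 x6_3

theorem n6_4 : NoCfg 6 0x8e4080009000800080008000800080000740 0xb000a000a0009000a000a000a000a0000eb9 :=
  pieceG0 good6 c6_4 x6_4

theorem n6_5 : NoCfg 6 0x8000800080008000800080008000800004cc 0xc000a000a000a000a000a000a000a0000eb9 :=
  pieceG good6 c6_5 x6_5 (by
    simp only [List.forall_mem_cons, List.not_mem_nil, false_imp_iff, implies_true, and_true]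
    exact n6_4)

theorem n6_6 : NoCfg 6 0x800080008000a000800080008000800004cc 0xc000c000c000c000a000a000a000a0000eb9 :=
  pieceG0 good6 c6_6 x6_6

theorem n6_7 : NoCfg 6 0x8000800080008000800080008000800004cc 0xc000c000c000c000c000a000a000a0000eb9 :=
  pieceG good6 c6_7 x6_7 (by
    simp only [List.forall_mem_cons, List.not_mem_nil, false_imp_iff, implies_true, and_true]
    exact ⟨n6_5, n6_6⟩)

theorem n6_8 : NoCfg 6 0x8000800080008000800080008000800004cc 0xc000c000c000c000c000c000c000a0000eb9 :=
  pieceG good6 c6_8 x6_8 (by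
    simp only [List.forall_mem_cons, List.not_mem_nil, false_imp_iff, implies_true, and_true]
    exact ⟨n6_7, n6_3⟩)

theorem n6_9 : NoCfg 6 0xa000600080008000800080008000800004cc 0xc0008000a000c000a000c000a000a0000eb9 :=
  pieceG0 good6 c6_9 x6_9

theorem n6_10 : NoCfg 6 0x8000600080008000800080008000800004cc 0xa0008000c000c000a000a000a000a0000eb9 :=
  pieceG0 good6 c6_10 x6_10

theorem n6_11 : NoCfg 6 0x8000600080008000800080008000a00004cc 0xa0008000c000c000c000c000a000c0000eb9 :=
  pieceG0 good6 c6_11 x6_11

theorem n6_12 : NoCfg 6 0x8000400080008000800080008000800004cc 0xa0008000c000c000c000c000c000c0000eb9 :=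
  pieceG good6 c6_12 x6_12 (by
    simp only [List.forall_mem_cons, List.not_mem_nil, false_imp_iff, implies_true, and_true]
    exact ⟨n6_10, n6_11⟩)

theorem n6_13 : NoCfg 6 0x8e4080008f807000900080008000800007c0 0xb000aa40a0008000a0009000a000a0000eb9 :=
  pieceG0 good6 c6_13 x6_13

theorem n6_14 : NoCfg 6 0x8e4080008f806000900090008000800007c0 0xb000aa40a0008000a000a000a000a0000eb9 :=
  pieceG0 good6 c6_14 x6_14

theorem n6_15 : NoCfg 6 0x8000800080006000800080008000800004cc 0xc000c000a0008000a000a000a000a0000eb9 :=
  pieceG good6 c6_15 x6_15 (by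
    simp only [List.forall_mem_cons, List.not_mem_nil, false_imp_iff, implies_true, and_true]
    exact ⟨n6_13, n6_14⟩)

theorem n6_16 : NoCfg 6 0x8000800080006000800080008000a00004cc 0xc000c000a0008000c000c000a000c0000eb9 :=
  pieceG0 good6 c6_16 x6_16

theorem n6_17 : NoCfg 6 0x8000800080004000800080008000800004cc 0xc000c000a0008000c000c000c000c0000eb9 :=
  pieceG good6 c6_17 x6_17 (by
    simp only [List.forall_mem_cons, List.not_mem_nil, false_imp_iff, implies_true, and_true]
    exact ⟨n6_15, n6_16⟩)

theorem n6_18 : NoCfg 6 0xa000400080004000800080008000800004cc 0xc0008000a0008000a000a000a000a0000eb9 :=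
  pieceG0 good6 c6_18 x6_18

theorem n6_19 : NoCfg 6 0x8000400080004000800080008000800004cc 0xc0008000c0008000a000a000a000a0000eb9 :=
  pieceG good6 c6_19 x6_19 (by
    simp only [List.forall_mem_cons, List.not_mem_nil, false_imp_iff, implies_true, and_true]
    exact n6_18)

theorem n6_20 : NoCfg 6 0x8000400080004000800080008000800004cc 0xc0008000c0008000c000c000c000c0000eb9 :=
  pieceG good6 c6_20 x6_20 (by
    simp only [List.forall_mem_cons, List.not_mem_nil, false_imp_iff, implies_true, and_true]
    exact n6_19)

theorem n6_21 : NoCfg 6 0x8000400080008000800080008000800004cc 0xc000c000c000c000c000c000c000c0000eb9 :=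
  pieceG good6 c6_21 x6_21 (by
    simp only [List.forall_mem_cons, List.not_mem_nil, false_imp_iff, implies_true, and_true]
    exact ⟨n6_12, n6_9, n6_8, n6_2⟩)

theorem n6_22 : NoCfg 6 0x8e40800090008000940074c0800091400890 0xb0009540a000a000a00080009000a0000c80 :=
  pieceG0 good6 c6_22 x6_22

theorem n6_23 : NoCfg 6 0x8e4080009000800094006000800091400740 0xb000aa40a000a000a00080009000a0000c80 :=
  pieceG good6 c6_23 x6_23 (by
    simp only [List.forall_mem_cons, List.not_mem_nil, false_imp_iff, implies_true, and_true]
    exact n6_22)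

theorem n6_24 : NoCfg 6 0x8e4080009000800080006000800080000740 0xb000aa40a000a000a00080009000a0000eb9 :=
  pieceG good6 c6_24 x6_24 (by
    simp only [List.forall_mem_cons, List.not_mem_nil, false_imp_iff, implies_true, and_true]
    exact n6_23)

theorem n6_25 : NoCfg 6 0x8000800090008000800060008000800004cc 0xc000aa40a000a000a0008000a000a0000eb9 :=
  pieceG good6 c6_25 x6_25 (by
    simp only [List.forall_mem_cons, List.not_mem_nil, false_imp_iff, implies_true, and_true]
    exact n6_24)

theorem n6_26 : NoCfg 6 0x8000800080008000800060008000800004cc 0xc000c000a000c000a0008000a000a0000eb9 :=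
  pieceG good6 c6_26 x6_26 (by
    simp only [List.forall_mem_cons, List.not_mem_nil, false_imp_iff, implies_true, and_true]
    exact n6_25)

theorem n6_27 : NoCfg 6 0x8000800080008000800060008000a00004cc 0xc000c000c000c000a0008000a000c0000eb9 :=
  pieceG0 good6 c6_27 x6_27

theorem n6_28 : NoCfg 6 0xa0004000a0008000800040008000800004cc 0xc0008000c000c000a0008000a000a0000eb9 :=
  pieceG0 good6 c6_28 x6_28

theorem n6_29 : NoCfg 6 0xa0006a008f808000900062008000900009b0 0xac808000a000a0009b4080009000a0000b00 :=
  pieceG0 good6 c6_29 x6_29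

theorem n6_30 : NoCfg 6 0xa0006a008000800080006200800080000740 0xb0808000a000a000a0008000a000a0000b00 :=
  pieceG good6 c6_30 x6_30 (by
    simp only [List.forall_mem_cons, List.not_mem_nil, false_imp_iff, implies_true, and_true]
    exact n6_29)

theorem n6_31 : NoCfg 6 0x8000400080008000800040008000800004cc 0xa0008000a000a000a0008000a000a0000eb9 :=
  pieceG0 good6 c6_31 x6_31

theorem n6_32 : NoCfg 6 0x8000400080008000800040008000800004cc 0xc0008000a000c000c0008000a000a0000eb9 :=
  pieceG good6 c6_32 x6_32 (by
    simp only [List.forall_mem_cons, List.not_mem_nil, false_imp_iff, implies_true, and_true]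
    exact ⟨n6_31, n6_30⟩)

theorem n6_33 : NoCfg 6 0x8000400080008000800040008000800004cc 0xc0008000c000c000c0008000c000c0000eb9 :=
  pieceG good6 c6_33 x6_33 (by
    simp only [List.forall_mem_cons, List.not_mem_nil, false_imp_iff, implies_true, and_true]
    exact ⟨n6_32, n6_28⟩)

theorem n6_34 : NoCfg 6 0xa00080008800634080006200800080000740 0xb080a000a0008000a0008000a000a0000b00 :=
  pieceG0 good6 c6_34 x6_34

theorem n6_35 : NoCfg 6 0xa0008000a0004000800040008000800004cc 0xc000c000c0008000a0008000a000a0000eb9 :=
  pieceG0 good6 c6_35 x6_35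

theorem n6_36 : NoCfg 6 0x980080008000628080006140800080000740 0xa000a000a0008000a0008000a000a0000eb9 :=
  pieceG0 good6 c6_36 x6_36

theorem n6_37 : NoCfg 6 0x8000800080004000800040008000800004cc 0xa000c000c0008000c0008000a000a0000eb9 :=
  pieceG good6 c6_37 x6_37 (by
    simp only [List.forall_mem_cons, List.not_mem_nil, false_imp_iff, implies_true, and_true]
    exact n6_36)

theorem n6_38 : NoCfg 6 0x8000800080004000800040008000800004cc 0xc000c000c0008000c0008000a000c0000eb9 :=
  pieceG good6 c6_38 x6_38 (by
    simp only [List.forall_mem_cons, List.not_mem_nil, false_imp_iff, implies_true, and_true]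
    exact ⟨n6_37, n6_34, n6_35⟩)

theorem n6_39 : NoCfg 6 0x800064c080006000800060008000800004cc 0xc0008000a0008000a0008000a000a0000eb9 :=
  pieceG0 good6 c6_39 x6_39

theorem n6_40 : NoCfg 6 0x8000400080004000800040008000800004cc 0xc000c000c0008000c0008000c000c0000eb9 :=
  pieceG good6 c6_40 x6_40 (by
    simp only [List.forall_mem_cons, List.not_mem_nil, false_imp_iff, implies_true, and_true]
    exact ⟨n6_39, n6_38⟩)

theorem n6_41 : NoCfg 6 0x8000400080004000800040008000800004cc 0xc000c000c000c000c0008000c000c0000eb9 :=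
  pieceG good6 c6_41 x6_41 (by
    simp only [List.forall_mem_cons, List.not_mem_nil, false_imp_iff, implies_true, and_true]
    exact ⟨n6_40, n6_33, n6_26, n6_27⟩)

theorem n6_42 : NoCfg 6 0x800080009000800080008000800060000740 0xc000aa40a000a000a000a000a00080000eb9 :=
  pieceG0 good6 c6_42 x6_42

theorem n6_43 : NoCfg 6 0x8000800080008000800080008000600004cc 0xc000c000c000c000a000a000a00080000eb9 :=
  pieceG good6 c6_43 x6_43 (by
    simp only [List.forall_mem_cons, List.not_mem_nil, false_imp_iff, implies_true, and_true]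
    exact n6_42)

theorem n6_44 : NoCfg 6 0xa000600080008000800080008000600004cc 0xb1408000a000c000a000c000a00080000eb9 :=
  pieceG0 good6 c6_44 x6_44

theorem n6_45 : NoCfg 6 0x8000600080008000800080008000600004cc 0xa0008000a000c000a000c000a00080000eb9 :=
  pieceG0 good6 c6_45 x6_45

theorem n6_46 : NoCfg 6 0xa000400080008000800080008000600004cc 0xc0008000c000c000c000c000a00080000eb9 :=
  pieceG good6 c6_46 x6_46 (by
    simp only [List.forall_mem_cons, List.not_mem_nil, false_imp_iff, implies_true, and_true]
    exact n6_44)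

theorem n6_47 : NoCfg 6 0x8000800080008000800080008000400004cc 0xc000c000c000c000c000c000c00080000eb9 :=
  pieceG good6 c6_47 x6_47 (by
    simp only [List.forall_mem_cons, List.not_mem_nil, false_imp_iff, implies_true, and_true]
    exact n6_43)

theorem n6_48 : NoCfg 6 0xa000800080006000800080008000600004cc 0xc000c000a0008000a000c000a00080000eb9 :=
  pieceG0 good6 c6_48 x6_48

theorem n6_49 : NoCfg 6 0x80008000a0004000800080008000600004cc 0xc000c000c0008000c000c000a00080000eb9 :=
  pieceG0 good6 c6_49 x6_49

theorem n6_50 : NoCfg 6 0x8000800080004000800080008000400004cc 0xc000c000c0008000c000c000a00080000eb9 :=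
  pieceG good6 c6_50 x6_50 (by
    simp only [List.forall_mem_cons, List.not_mem_nil, false_imp_iff, implies_true, and_true]
    exact ⟨n6_48, n6_49⟩)

theorem n6_51 : NoCfg 6 0xa00064c08800600080008000800060000740 0xc0008000a0008000a000a000a00080000eb9 :=
  pieceG0 good6 c6_51 x6_51

theorem n6_52 : NoCfg 6 0x8000400080004000800080008000400004cc 0xc0008000c0008000a000c000c00080000eb9 :=
  pieceG good6 c6_52 x6_52 (by
    simp only [List.forall_mem_cons, List.not_mem_nil, false_imp_iff, implies_true, and_true]
    exact n6_51)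

theorem n6_53 : NoCfg 6 0x8000400080008000800080008000400004cc 0xc000c000c000c000c000c000c00080000eb9 :=
  pieceG good6 c6_53 x6_53 (by
    simp only [List.forall_mem_cons, List.not_mem_nil, false_imp_iff, implies_true, and_true]
    exact ⟨n6_45, n6_46, n6_47⟩)

theorem n6_54 : NoCfg 6 0x8000800080008000800060008000600004cc 0xa000c000a000c000a0008000a00080000eb9 :=
  pieceG0 good6 c6_54 x6_54

theorem n6_55 : NoCfg 6 0x8000800080008000800040008000600004cc 0xc000c000c000c000a0008000a00080000eb9 :=
  pieceG good6 c6_55 x6_55 (by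
    simp only [List.forall_mem_cons, List.not_mem_nil, false_imp_iff, implies_true, and_true]
    exact n6_54)

theorem n6_56 : NoCfg 6 0x8000400080008000800040008000400004cc 0xc0008000a000c000c0008000c00080000eb9 :=
  pieceG0 good6 c6_56 x6_56

theorem n6_57 : NoCfg 6 0x8000800080004000800040008000400004cc 0xa000c000c0008000c0008000c00080000eb9 :=
  pieceG0 good6 c6_57 x6_57

theorem n6_58 : NoCfg 6 0x8000400080008000800040008000400004cc 0xc000c000c000c000c0008000c00080000eb9 :=
  pieceG good6 c6_58 x6_58 (by
    simp only [List.forall_mem_cons, List.not_mem_nil, false_imp_iff, implies_true, and_true]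
    exact ⟨n6_56, n6_55⟩)

theorem n6_59 : NoCfg 6 0x8000400080004000800040008000400004cc 0xc000c000c000c000c000c000c00080000eb9 :=
  pieceG good6 c6_59 x6_59 (by
    simp only [List.forall_mem_cons, List.not_mem_nil, false_imp_iff, implies_true, and_true]
    exact ⟨n6_57, n6_58, n6_52, n6_50, n6_53⟩)

theorem n6_60 : NoCfg 6 0x8000400080004000800040008000400004cc 0xc000c000c000c000c000c000c000c0000eb9 :=
  pieceG good6 c6_60 x6_60 (by
    simp only [List.forall_mem_cons, List.not_mem_nil, false_imp_iff, implies_true, and_true]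
    exact ⟨n6_59, n6_41, n6_20, n6_17, n6_21⟩)

theorem n6_61 : NoCfg 6 0x8000400040004000800040008000400004cc 0xc000c0008000c000c000c000c000c0000eb9 :=
  pieceG0 good6 c6_61 x6_61

theorem n6_62 : NoCfg 6 0x4000400080004000800040008000400004cc 0xc000c000c000c000c000c000c000c0000eb9 :=
  pieceG good6 c6_62 x6_62 (by
    simp only [List.forall_mem_cons, List.not_mem_nil, false_imp_iff, implies_true, and_true]
    exact n6_60)

theorem n6_63 : NoCfg 6 0x8000400080004000600080008000800004cc 0xc000c000c000c0008000c0009000c0000eb9 :=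
  pieceG0 good6 c6_63 x6_63

theorem n6_64 : NoCfg 6 0x8000400080004000600040008000400004cc 0xc000c000c000c0008000c0009000c0000eb9 :=
  pieceG good6 c6_64 x6_64 (by
    simp only [List.forall_mem_cons, List.not_mem_nil, false_imp_iff, implies_true, and_true]
    exact n6_63)

theorem n6_65 : NoCfg 6 0x8000400040004000600040008000400004cc 0xc000c0008000c0008000c0009000c0000eb9 :=
  pieceG0 good6 c6_65 x6_65

theorem n6_66 : NoCfg 6 0x4000400040004000400040008000400004cc 0xc000c000c000c0008000c000c000c0000eb9 :=
  pieceG good6 c6_66 x6_66 (by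
    simp only [List.forall_mem_cons, List.not_mem_nil, false_imp_iff, implies_true, and_true]
    exact ⟨n6_65, n6_64⟩)

theorem n6_67 : NoCfg 6 0x8000800080008000800080006000a00004cc 0xc000a000c000a000c000a0008000c0000eb9 :=
  pieceG0 good6 c6_67 x6_67

theorem n6_68 : NoCfg 6 0x8000800080008000800080006000a00004cc 0xc000c000c000c000c000a0008000c0000eb9 :=
  pieceG good6 c6_68 x6_68 (by
    simp only [List.forall_mem_cons, List.not_mem_nil, false_imp_iff, implies_true, and_true]
    exact n6_67)

theorem n6_69 : NoCfg 6 0x80008000800090008000a000600080000740 0xa580a000a000a0009bc0a9807000a0000c10 :=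
  pieceG0 good6 c6_69 x6_69

theorem n6_70 : NoCfg 6 0x80008000800080008000a000600080000740 0xa580a000a00090009bc0a9808000a0000c10 :=
  pieceG0 good6 c6_70 x6_70

theorem n6_71 : NoCfg 6 0x80008000800080008000a000600080000740 0xa580a000a000a0009bc0a9808000a0000c10 :=
  pieceG good6 c6_71 x6_71 (by
    simp only [List.forall_mem_cons, List.not_mem_nil, false_imp_iff, implies_true, and_true]
    exact ⟨n6_70, n6_69⟩)

theorem n6_72 : NoCfg 6 0x80008000800080008000a0006000800004cc 0xc000c000c000a000c000c0008000a0000eb9 :=
  pieceG good6 c6_72 x6_72 (by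
    simp only [List.forall_mem_cons, List.not_mem_nil, false_imp_iff, implies_true, and_true]
    exact n6_71)

theorem n6_73 : NoCfg 6 0x800080008000a00080009000600080000740 0xa580a0009dc0a980a000a0008000a0000c10 :=
  pieceG0 good6 c6_73 x6_73

theorem n6_74 : NoCfg 6 0x800080009180800080009800700095800740 0xaac0a000a2c0a000a000a0007800a0000c10 :=
  pieceG0 good6 c6_74 x6_74

theorem n6_75 : NoCfg 6 0x80008000800080008000980070008b000740 0xaac0a000a2c0a000a000a0007800a0000c10 :=
  pieceG good6 c6_75 x6_75 (by
    simp only [List.forall_mem_cons, List.not_mem_nil, false_imp_iff, implies_true, and_true]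
    exact n6_74)

theorem n6_76 : NoCfg 6 0x800080008000800080009800664090000740 0xaac0a000a2c0a0009800a0007000a0000c10 :=
  pieceG0 good6 c6_76 x6_76

theorem n6_77 : NoCfg 6 0x800080008000800080009800600080000740 0xaac0a000a2c0a000a000a0007000a0000c10 :=
  pieceG good6 c6_77 x6_77 (by
    simp only [List.forall_mem_cons, List.not_mem_nil, false_imp_iff, implies_true, and_true]
    exact n6_76)

theorem n6_78 : NoCfg 6 0x800080008000800080009000600080000740 0xaac0a000a2c0a000a00098008000a0000c10 :=
  pieceG0 good6 c6_78 x6_78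

theorem n6_79 : NoCfg 6 0x8000800080008000800080006000800004cc 0xc000a000c000a000a000a0008000a0000eb9 :=
  pieceG good6 c6_79 x6_79 (by
    simp only [List.forall_mem_cons, List.not_mem_nil, false_imp_iff, implies_true, and_true]
    exact ⟨n6_78, n6_77, n6_75⟩)

theorem n6_80 : NoCfg 6 0x800080008000a000800080006000800004cc 0xc000c000c000c000c000a0008000a0000eb9 :=
  pieceG good6 c6_80 x6_80 (by
    simp only [List.forall_mem_cons, List.not_mem_nil, false_imp_iff, implies_true, and_true]
    exact n6_73)

theorem n6_81 : NoCfg 6 0x8000800080008000800080006000800004cc 0xc000c000c000c000c000a0008000a0000eb9 :=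
  pieceG good6 c6_81 x6_81 (by
    simp only [List.forall_mem_cons, List.not_mem_nil, false_imp_iff, implies_true, and_true]
    exact ⟨n6_79, n6_80⟩)

theorem n6_82 : NoCfg 6 0x8000800080008000800080006000a00004cc 0xc000c000c000c000c000c0008000c0000eb9 :=
  pieceG good6 c6_82 x6_82 (by
    simp only [List.forall_mem_cons, List.not_mem_nil, false_imp_iff, implies_true, and_true]
    exact n6_68)

theorem n6_83 : NoCfg 6 0x8000800080008000800080006000600004cc 0xc000c000c000c000a000a000800080000eb9 :=
  pieceG0 good6 c6_83 x6_83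

theorem n6_84 : NoCfg 6 0x8000800080008000800080004000400004cc 0xc000c000c000c000c000c000800080000eb9 :=
  pieceG good6 c6_84 x6_84 (by
    simp only [List.forall_mem_cons, List.not_mem_nil, false_imp_iff, implies_true, and_true]
    exact n6_83)

theorem n6_85 : NoCfg 6 0x80006000800080008000a0006000800004cc 0xa2408000a000a0009a80abc08000a0000eb9 :=
  pieceG0 good6 c6_85 x6_85

theorem n6_86 : NoCfg 6 0x980072008000800080008000740092000740 0xa0008000a0c0a000a000a0008000a0000c30 :=
  pieceG0 good6 c6_86 x6_86

theorem n6_87 : NoCfg 6 0x900072008000800080008000680080000740 0xa0008000a0c0a000a000a0007400a0000c30 :=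
  pieceG0 good6 c6_87 x6_87

theorem n6_88 : NoCfg 6 0x8000400080008000800080006000800004cc 0xa0008000c000a000c000a0008000a0000eb9 :=
  pieceG good6 c6_88 x6_88 (by
    simp only [List.forall_mem_cons, List.not_mem_nil, false_imp_iff, implies_true, and_true]
    exact ⟨n6_87, n6_86⟩)

theorem n6_89 : NoCfg 6 0x8000400080008000800080006000a00004cc 0xc0008000c000c000c000c0008000c0000eb9 :=
  pieceG0 good6 c6_89 x6_89

theorem n6_90 : NoCfg 6 0x8000400080008000800080006000600004cc 0xc0008000c000c000c000c000800080000eb9 :=
  pieceG0 good6 c6_90 x6_90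

theorem n6_91 : NoCfg 6 0x8000400080008000800080004000800004cc 0xc0008000c000c000c000c0008000c0000eb9 :=
  pieceG good6 c6_91 x6_91 (by
    simp only [List.forall_mem_cons, List.not_mem_nil, false_imp_iff, implies_true, and_true]
    exact ⟨n6_88, n6_85, n6_89⟩)

theorem n6_92 : NoCfg 6 0x9c0080009180710090008e40794098c00820 0xa600a000968080009800a0008000a0000a00 :=
  pieceG0 good6 c6_92 x6_92

theorem n6_93 : NoCfg 6 0x8ec080008e40710080008b0074c080000740 0xa940a000a00080009000a0008000a0000c30 :=
  pieceG0 good6 c6_93 x6_93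

theorem n6_94 : NoCfg 6 0x8ec080008e40710090008000698080000740 0xa940a000a0008000a000a0008000a0000c30 :=
  pieceG good6 c6_94 x6_94 (by
    simp only [List.forall_mem_cons, List.not_mem_nil, false_imp_iff, implies_true, and_true]
    exact n6_92)

theorem n6_95 : NoCfg 6 0x8000800080004000800080006000800004cc 0xc000a000a0008000c000a0008000a0000eb9 :=
  pieceG good6 c6_95 x6_95 (by
    simp only [List.forall_mem_cons, List.not_mem_nil, false_imp_iff, implies_true, and_true]
    exact ⟨n6_93, n6_94⟩)

theorem n6_96 : NoCfg 6 0x80008000800040008000a0006000800004cc 0xc000c000c0008000c000c0008000a0000eb9 :=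
  pieceG0 good6 c6_96 x6_96

theorem n6_97 : NoCfg 6 0x8000800080004000800080006000a00004cc 0xc000c000c0008000c000c0008000c0000eb9 :=
  pieceG0 good6 c6_97 x6_97

theorem n6_98 : NoCfg 6 0x8000800080004000800080004000400004cc 0xc000c000c0008000c000c000800080000eb9 :=
  pieceG0 good6 c6_98 x6_98

theorem n6_99 : NoCfg 6 0x8000400080004000800080006000800004cc 0xc0008000c0008000c000c0008000a0000eb9 :=
  pieceG0 good6 c6_99 x6_99

theorem n6_100 : NoCfg 6 0x8000400080004000800080004000400004cc 0xc0008000c0008000c000c0008000c0000eb9 :=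
  pieceG good6 c6_100 x6_100 (by
    simp only [List.forall_mem_cons, List.not_mem_nil, false_imp_iff, implies_true, and_true]
    exact n6_99)

theorem n6_101 : NoCfg 6 0x8000400080008000800080004000400004cc 0xc000c000c000c000c000c0008000c0000eb9 :=
  pieceG good6 c6_101 x6_101 (by
    simp only [List.forall_mem_cons, List.not_mem_nil, false_imp_iff, implies_true, and_true]
    exact ⟨n6_90, n6_91, n6_84, n6_81, n6_72, n6_82⟩)

theorem n6_102 : NoCfg 6 0x800080008000800080007100600080000740 0xa940a000a000a000a00080008000a0000c30 :=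
  pieceG0 good6 c6_102 x6_102

theorem n6_103 : NoCfg 6 0x8000800080008000800040006000800004cc 0xc000c000c000a000c00080008000a0000eb9 :=
  pieceG good6 c6_103 x6_103 (by
    simp only [List.forall_mem_cons, List.not_mem_nil, false_imp_iff, implies_true, and_true]
    exact n6_102)

theorem n6_104 : NoCfg 6 0x8000800080008000800040006000a00004cc 0xc000c000c000c000c00080008000c0000eb9 :=
  pieceG0 good6 c6_104 x6_104

theorem n6_105 : NoCfg 6 0x8000800080008000800040004000400004cc 0xc000c000c000c000c0008000800080000eb9 :=
  pieceG0 good6 c6_105 x6_105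

theorem n6_106 : NoCfg 6 0x8000400080008000800040006000800004cc 0xc0008000c000c000c00080008000a0000eb9 :=
  pieceG0 good6 c6_106 x6_106

theorem n6_107 : NoCfg 6 0x8000400080008000800040004000400004cc 0xc0008000c000c000c00080008000c0000eb9 :=
  pieceG good6 c6_107 x6_107 (by
    simp only [List.forall_mem_cons, List.not_mem_nil, false_imp_iff, implies_true, and_true]
    exact n6_106)

theorem n6_108 : NoCfg 6 0x8000800080004000800040006000800004cc 0xc000c000c0008000c00080008000a0000eb9 :=
  pieceG0 good6 c6_108 x6_108

theorem n6_109 : NoCfg 6 0x8000800080004000800040004000400004cc 0xc000c000c0008000c00080008000c0000eb9 :=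
  pieceG good6 c6_109 x6_109 (by
    simp only [List.forall_mem_cons, List.not_mem_nil, false_imp_iff, implies_true, and_true]
    exact n6_108)

theorem n6_110 : NoCfg 6 0x8000400080004000800040004000400004cc 0xc000c000c000c000c00080008000c0000eb9 :=
  pieceG good6 c6_110 x6_110 (by
    simp only [List.forall_mem_cons, List.not_mem_nil, false_imp_iff, implies_true, and_true]
    exact ⟨n6_109, n6_107, n6_105, n6_103, n6_104⟩)

theorem n6_111 : NoCfg 6 0x8000400040004000800040004000800004cc 0xc000c0008000c000c000c0008000c0000eb9 :=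
  pieceG0 good6 c6_111 x6_111

theorem n6_112 : NoCfg 6 0x8000400040004000800040004000400004cc 0xc000c0008000c000c000c0008000c0000eb9 :=
  pieceG good6 c6_112 x6_112 (by
    simp only [List.forall_mem_cons, List.not_mem_nil, false_imp_iff, implies_true, and_true]
    exact n6_111)

theorem n6_113 : NoCfg 6 0x4000400080004000800040004000400004cc 0xc000c000c000c000c000c0008000c0000eb9 :=
  pieceG good6 c6_113 x6_113 (by
    simp only [List.forall_mem_cons, List.not_mem_nil, false_imp_iff, implies_true, and_true]
    exact ⟨n6_110, n6_100, n6_98, n6_95, n6_96, n6_97, n6_101⟩)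

theorem n6_114 : NoCfg 6 0x8000800080008000600080004000a00004cc 0xc000a000c000a0008000a0008000c0000eb9 :=
  pieceG0 good6 c6_114 x6_114

theorem n6_115 : NoCfg 6 0x8000800080008000600080004000a00004cc 0xc000c000c000c0008000a0008000c0000eb9 :=
  pieceG good6 c6_115 x6_115 (by
    simp only [List.forall_mem_cons, List.not_mem_nil, false_imp_iff, implies_true, and_true]
    exact n6_114)

theorem n6_116 : NoCfg 6 0x900080008000a0006dc08980658080000740 0x9800a0009000a9808000a0008000a0000c10 :=
  pieceG0 good6 c6_116 x6_116

theorem n6_117 : NoCfg 6 0x800080008000a0006dc08980658080000740 0xa000a000a000a9808000a0008000a0000c10 :=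
  pieceG good6 c6_117 x6_117 (by
    simp only [List.forall_mem_cons, List.not_mem_nil, false_imp_iff, implies_true, and_true]
    exact n6_116)

theorem n6_118 : NoCfg 6 0x800080008000a0004000a0004000800004cc 0xa000a000c000c0008000c0008000a0000eb9 :=
  pieceG0 good6 c6_118 x6_118

theorem n6_119 : NoCfg 6 0x80008000800090006e40a000600090000740 0xa240a0009e40a0008000a9008000a0000c30 :=
  pieceG0 good6 c6_119 x6_119

theorem n6_120 : NoCfg 6 0x80008000800080006e40a00066c080000740 0xa240a0009e40a0008000a9006d4090000c30 :=
  pieceG0 good6 c6_120 x6_120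

theorem n6_121 : NoCfg 6 0x80008000800080006e40a000600080000740 0xa240a0009e40a0008000a9008000a0000c30 :=
  pieceG good6 c6_121 x6_121 (by
    simp only [List.forall_mem_cons, List.not_mem_nil, false_imp_iff, implies_true, and_true]
    exact ⟨n6_120, n6_119⟩)

theorem n6_122 : NoCfg 6 0x80008000800080004000a0006000800004cc 0xc000a000c000a0008000c0008000a0000eb9 :=
  pieceG good6 c6_122 x6_122 (by
    simp only [List.forall_mem_cons, List.not_mem_nil, false_imp_iff, implies_true, and_true]
    exact n6_121)

theorem n6_123 : NoCfg 6 0x91c080008f8080006b409800600080000740 0x9ac0a0009740a0008000a0008000a0000c80 :=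
  pieceG0 good6 c6_123 x6_123

theorem n6_124 : NoCfg 6 0x91c0800080008b006b409800600080000740 0x9880a0008f80a0008000a0008000a0000c80 :=
  pieceG0 good6 c6_124 x6_124

theorem n6_125 : NoCfg 6 0x80008000800080006b409800600080000740 0xa380a0009ec0a0008000a0008000a0000c80 :=
  pieceG good6 c6_125 x6_125 (by
    simp only [List.forall_mem_cons, List.not_mem_nil, false_imp_iff, implies_true, and_true]
    exact ⟨n6_124, n6_123⟩)

theorem n6_126 : NoCfg 6 0x8000800080008000400080004000800004cc 0xc000a000c000a0008000a0008000a0000eb9 :=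
  pieceG good6 c6_126 x6_126 (by
    simp only [List.forall_mem_cons, List.not_mem_nil, false_imp_iff, implies_true, and_true]
    exact n6_125)

theorem n6_127 : NoCfg 6 0x8000800080008000400080004000800004cc 0xc000c000c000a0008000a0008000a0000eb9 :=
  pieceG good6 c6_127 x6_127 (by
    simp only [List.forall_mem_cons, List.not_mem_nil, false_imp_iff, implies_true, and_true]
    exact n6_126)

theorem n6_128 : NoCfg 6 0x800080008000a000400080004000800004cc 0xc000c000c000c0008000c0008000a0000eb9 :=
  pieceG good6 c6_128 x6_128 (by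
    simp only [List.forall_mem_cons, List.not_mem_nil, false_imp_iff, implies_true, and_true]
    exact ⟨n6_117, n6_118⟩)

theorem n6_129 : NoCfg 6 0x8000800080008000400080004000a00004cc 0xc000c000c000c0008000c0008000c0000eb9 :=
  pieceG good6 c6_129 x6_129 (by
    simp only [List.forall_mem_cons, List.not_mem_nil, false_imp_iff, implies_true, and_true]
    exact n6_115)

theorem n6_130 : NoCfg 6 0x8000600080008000400080004000800004cc 0xa0008000a000a0008000c0008000a0000eb9 :=
  pieceG0 good6 c6_130 x6_130

theorem n6_131 : NoCfg 6 0x8000400080008000400080004000800004cc 0xc0008000c000c0008000c0008000c0000eb9 :=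
  pieceG good6 c6_131 x6_131 (by
    simp only [List.forall_mem_cons, List.not_mem_nil, false_imp_iff, implies_true, and_true]
    exact n6_130)

theorem n6_132 : NoCfg 6 0x8000800080004000400080004000800004cc 0xa000a000a00080008000c0008000c0000eb9 :=
  pieceG0 good6 c6_132 x6_132

theorem n6_133 : NoCfg 6 0x8000400080004000400080004000800004cc 0xc0008000c00080008000c0008000c0000eb9 :=
  pieceG0 good6 c6_133 x6_133

theorem n6_134 : NoCfg 6 0x8000400080008000400080004000800004cc 0xc000c000c000c0008000c0008000c0000eb9 :=
  pieceG good6 c6_134 x6_134 (by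
    simp only [List.forall_mem_cons, List.not_mem_nil, false_imp_iff, implies_true, and_true]
    exact ⟨n6_131, n6_127, n6_122, n6_128, n6_129⟩)

theorem n6_135 : NoCfg 6 0x8000800080008000400040004000800004cc 0xc000c000c000c000800080008000a0000eb9 :=
  pieceG0 good6 c6_135 x6_135

theorem n6_136 : NoCfg 6 0x8000400080008000400040004000800004cc 0xc0008000c000c000800080008000c0000eb9 :=
  pieceG0 good6 c6_136 x6_136

theorem n6_137 : NoCfg 6 0x8000800080004000400040004000800004cc 0xc000c000c0008000800080008000c0000eb9 :=
  pieceG0 good6 c6_137 x6_137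

theorem n6_138 : NoCfg 6 0x8000400080004000400040004000800004cc 0xc000c000c000c000800080008000c0000eb9 :=
  pieceG good6 c6_138 x6_138 (by
    simp only [List.forall_mem_cons, List.not_mem_nil, false_imp_iff, implies_true, and_true]
    exact ⟨n6_137, n6_136, n6_135⟩)

theorem n6_139 : NoCfg 6 0x8000800080008000400080004000400004cc 0xc000c000c000c0008000a000800080000eb9 :=
  pieceG0 good6 c6_139 x6_139

theorem n6_140 : NoCfg 6 0x8000400080008000400080004000600004cc 0xc0008000c000c0008000c000800080000eb9 :=
  pieceG0 good6 c6_140 x6_140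

theorem n6_141 : NoCfg 6 0x8000800080004000400080004000400004cc 0xc000c000c00080008000c000800080000eb9 :=
  pieceG0 good6 c6_141 x6_141

theorem n6_142 : NoCfg 6 0x8000400080008000400040004000400004cc 0xc000c000c000c00080008000800080000eb9 :=
  pieceG0 good6 c6_142 x6_142

theorem n6_143 : NoCfg 6 0x8000400080004000400080004000400004cc 0xc000c000c000c0008000c000800080000eb9 :=
  pieceG good6 c6_143 x6_143 (by
    simp only [List.forall_mem_cons, List.not_mem_nil, false_imp_iff, implies_true, and_true]
    exact ⟨n6_141, n6_140, n6_139⟩)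

theorem n6_144 : NoCfg 6 0x8000400080004000400040004000400004cc 0xc000c000c000c0008000c0008000c0000eb9 :=
  pieceG good6 c6_144 x6_144 (by
    simp only [List.forall_mem_cons, List.not_mem_nil, false_imp_iff, implies_true, and_true]
    exact ⟨n6_142, n6_143, n6_138, n6_133, n6_132, n6_134⟩)

theorem n6_145 : NoCfg 6 0x8000800040008000400080004000800004cc 0xa000a0008000c0008000c0008000a0000eb9 :=
  pieceG0 good6 c6_145 x6_145

theorem n6_146 : NoCfg 6 0x8000a00040008000400080004000800004cc 0xa000c0008000c0008000c0008000c0000eb9 :=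
  pieceG0 good6 c6_146 x6_146

theorem n6_147 : NoCfg 6 0x8000400040008000400080004000800004cc 0xc00080008000c0008000c0008000c0000eb9 :=
  pieceG0 good6 c6_147 x6_147

theorem n6_148 : NoCfg 6 0x8000400040004000400080004000800004cc 0xc000c000800080008000c0008000c0000eb9 :=
  pieceG0 good6 c6_148 x6_148

theorem n6_149 : NoCfg 6 0x8000800040008000400040004000800004cc 0xc000c0008000c000800080008000c0000eb9 :=
  pieceG0 good6 c6_149 x6_149

theorem n6_150 : NoCfg 6 0x8000400040004000400040004000800004cc 0xc000c0008000c000800080008000c0000eb9 :=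
  pieceG good6 c6_150 x6_150 (by
    simp only [List.forall_mem_cons, List.not_mem_nil, false_imp_iff, implies_true, and_true]
    exact n6_149)

theorem n6_151 : NoCfg 6 0x8000800040008000400080004000400004cc 0xc000c0008000c0008000c000800080000eb9 :=
  pieceG0 good6 c6_151 x6_151

theorem n6_152 : NoCfg 6 0x8000400040004000400080004000400004cc 0xc000c0008000c0008000c000800080000eb9 :=
  pieceG good6 c6_152 x6_152 (by
    simp only [List.forall_mem_cons, List.not_mem_nil, false_imp_iff, implies_true, and_true]
    exact n6_151)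

theorem n6_153 : NoCfg 6 0x8000400040004000400040004000400004cc 0xc000c0008000c0008000c000800080000eb9 :=
  pieceG good6 c6_153 x6_153 (by
    simp only [List.forall_mem_cons, List.not_mem_nil, false_imp_iff, implies_true, and_true]
    exact n6_152)

theorem n6_154 : NoCfg 6 0x8000400040004000400040004000400004cc 0xc000c0008000c0008000c0008000c0000eb9 :=
  pieceG good6 c6_154 x6_154 (by
    simp only [List.forall_mem_cons, List.not_mem_nil, false_imp_iff, implies_true, and_true]
    exact ⟨n6_153, n6_150, n6_148, n6_147, n6_145, n6_146⟩)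

theorem n6_155 : NoCfg 6 0x4000400080004000400040004000400004cc 0xc000c000c000c0008000c0008000c0000eb9 :=
  pieceG good6 c6_155 x6_155 (by
    simp only [List.forall_mem_cons, List.not_mem_nil, false_imp_iff, implies_true, and_true]
    exact n6_144)

theorem n6_156 : NoCfg 6 0x4000400040004000800040004000400004cc 0xc000c000c000c000c000c0008000c0000eb9 :=
  pieceG good6 c6_156 x6_156 (by
    simp only [List.forall_mem_cons, List.not_mem_nil, false_imp_iff, implies_true, and_true]
    exact ⟨n6_112, n6_113⟩)

theorem n6_157 : NoCfg 6 0x4000400040004000400040004000400004cc 0xc000c000c000c000c000c0008000c0000eb9 :=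
  pieceG good6 c6_157 x6_157 (by
    simp only [List.forall_mem_cons, List.not_mem_nil, false_imp_iff, implies_true, and_true]
    exact ⟨n6_154, n6_155, n6_156⟩)

theorem n6_158 : NoCfg 6 0x4000400040004000400040004000400004cc 0xc000c000c000c000c000c000c000c0000eb9 :=
  pieceG good6 c6_158 x6_158 (by
    simp only [List.forall_mem_cons, List.not_mem_nil, false_imp_iff, implies_true, and_true]
    exact ⟨n6_157, n6_66, n6_61, n6_62⟩)

/-- the root box contains no configuration of `6` bodies -/
theorem noCfg6 : NoCfg 6 0x4000400040004000400040004000400004cc 0xc000c000c000c000c000c000c000c0000eb9 := n6_158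

end RelEqN.Small.Box
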