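import Pool.Agent.Lib.MP_b9e19b_mp.Cert.C7_0
import Pool.Agent.Lib.MP_b9e19b_mp.Cert.C7_1
import Pool.Agent.Lib.MP_b9e19b_mp.Cert.C7_2
import Pool.Agent.Lib.MP_b9e19b_mp.Cert.C7_3
import Pool.Agent.Lib.MP_b9e19b_mp.Cert.C7_4
import Pool.Agent.Lib.MP_b9e19b_mp.Cert.C7_5
import Pool.Agent.Lib.MP_b9e19b_mp.Cert.C7_6
import Pool.Agent.Lib.MP_b9e19b_mp.Cert.C7_7
import Pool.Agent.Lib.MP_b9e19b_mp.Cert.C7_8
import Pool.Agent.Lib.MP_b9e19b_mp.Cert.C7_9
import Pool.Agent.Lib.MP_b9e19b_mp.Cert.C7_10
import Pool.Agent.Lib.MP_b9e19b_mp.Cert.C7_11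
import Pool.Agent.Lib.MP_b9e19b_mp.Cert.C7_12
import Pool.Agent.Lib.MP_b9e19b_mp.Cert.C7_13
import Pool.Agent.Lib.MP_b9e19b_mp.Cert.C7_14
import Pool.Agent.Lib.MP_b9e19b_mp.Cert.C7_15
import Pool.Agent.Lib.MP_b9e19b_mp.Cert.C7_16
import Pool.Agent.Lib.MP_b9e19b_mp.Cert.C7_17
import Pool.Agent.Lib.MP_b9e19b_mp.Cert.C7_18
import Pool.Agent.Lib.MP_b9e19b_mp.Cert.C7_19
import Pool.Agent.Lib.MP_b9e19b_mp.Cert.C7_20
import Pool.Agent.Lib.MP_b9e19b_mp.Cert.C7_21
import Pool.Agent.Lib.MP_b9e19b_mp.Cert.C7_22
import Pool.Agent.Lib.MP_b9e19b_mp.Cert.C7_23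
import Pool.Agent.Lib.MP_b9e19b_mp.Cert.C7_24
import Pool.Agent.Lib.MP_b9e19b_mp.Cert.C7_25
import Pool.Agent.Lib.MP_b9e19b_mp.Cert.C7_26
import Pool.Agent.Lib.MP_b9e19b_mp.Cert.C7_27
import Pool.Agent.Lib.MP_b9e19b_mp.Cert.C7_28
import Pool.Agent.Lib.MP_b9e19b_mp.Cert.C7_29
import Pool.Agent.Lib.MP_b9e19b_mp.Cert.C7_30
import Pool.Agent.Lib.MP_b9e19b_mp.Cert.C7_31
import Pool.Agent.Lib.MP_b9e19b_mp.Cert.C7_32
import Pool.Agent.Lib.MP_b9e19b_mp.Cert.C7_33
import Pool.Agent.Lib.MP_b9e19b_mp.Cert.C7_34
import Pool.Agent.Lib.MP_b9e19b_mp.Cert.C7_35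
import Pool.Agent.Lib.MP_b9e19b_mp.Cert.C7_36
import Pool.Agent.Lib.MP_b9e19b_mp.Cert.C7_37
import Pool.Agent.Lib.MP_b9e19b_mp.Cert.C7_38
import Pool.Agent.Lib.MP_b9e19b_mp.Cert.C7_39
import Pool.Agent.Lib.MP_b9e19b_mp.Cert.C7_40
import Pool.Agent.Lib.MP_b9e19b_mp.Cert.C7_41
import Pool.Agent.Lib.MP_b9e19b_mp.Cert.C7_42
import Pool.Agent.Lib.MP_b9e19b_mp.Cert.C7_43
import Pool.Agent.Lib.MP_b9e19b_mp.Cert.C7_44
import Pool.Agent.Lib.MP_b9e19b_mp.Cert.C7_45
import Pool.Agent.Lib.MP_b9e19b_mp.Cert.C7_46
import Pool.Agent.Lib.MP_b9e19b_mp.Cert.C7_47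
import Pool.Agent.Lib.MP_b9e19b_mp.Cert.C7_48
import Pool.Agent.Lib.MP_b9e19b_mp.Cert.C7_49
import Pool.Agent.Lib.MP_b9e19b_mp.Cert.C7_50
import Pool.Agent.Lib.MP_b9e19b_mp.Cert.C7_51
import Pool.Agent.Lib.MP_b9e19b_mp.Cert.C7_52
import Pool.Agent.Lib.MP_b9e19b_mp.Cert.C7_53
import Pool.Agent.Lib.MP_b9e19b_mp.Cert.C7_54
import Pool.Agent.Lib.MP_b9e19b_mp.Cert.C7_55
import Pool.Agent.Lib.MP_b9e19b_mp.Cert.C7_56
import Pool.Agent.Lib.MP_b9e19b_mp.Cert.C7_57
import Pool.Agent.Lib.MP_b9e19b_mp.Cert.C7_58
import Pool.Agent.Lib.MP_b9e19b_mp.Box.PieceGS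

set_option autoImplicit false

/-! The certificates for `7` bodies together. -/

namespace RelEqN.Small.Box

open K

theorem n7_0 : NoCfg 7 0x92408000910080009200800092c080008000968006b0 0xb600afc098c0afc09d80b1409e40b2c08900a300099a :=
  pieceG0 good7 c7_0 x7_0

theorem n7_1 : NoCfg 7 0x92408000910080009200800092c080008000968006b0 0xb600afc0a040afc09d80b1409e40b2c08900a740099a :=
  pieceG good7 c7_1 x7_1 (by
    simp only [List.forall_mem_cons, List.not_mem_nil, false_imp_iff, implies_true, and_true]
    exact n7_0)

theorem n7_2 : NoCfg 7 0x92408000910080009200800092c080008000800006b0 0xb600afc0af80afc0a900b140a580b2c091c0af80099a :=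
  pieceG good7 c7_2 x7_2 (by
    simp only [List.forall_mem_cons, List.not_mem_nil, false_imp_iff, implies_true, and_true]
    exact n7_1)

theorem n7_3 : NoCfg 7 0x9440800092c080009480800080008c4080008e0006b0 0x9cc0b140a140b1409ec0b14092c0b1408a00af80099a :=
  pieceG0 good7 c7_3 x7_3

theorem n7_4 : NoCfg 7 0x9440800092c08000948080008000800080008e0006b0 0xb600b140a140b1409ec0b14092c0b1408a00af80099a :=
  pieceG good7 c7_4 x7_4 (by
    simp only [List.forall_mem_cons, List.not_mem_nil, false_imp_iff, implies_true, and_true]
    exact n7_3)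

theorem n7_5 : NoCfg 7 0x9b00800097c0800080008000800080008000924006b0 0xa880b180af80b6009480b60092c0b6008a00b600099a :=
  pieceG0 good7 c7_5 x7_5

theorem n7_6 : NoCfg 7 0x9b0080008000800080008000800080008000800006b0 0xa880b180af80b6009480b60092c0b6009400b600099a :=
  pieceG good7 c7_6 x7_6 (by
    simp only [List.forall_mem_cons, List.not_mem_nil, false_imp_iff, implies_true, and_true]
    exact n7_5)

theorem n7_7 : NoCfg 7 0x8d8080008ec0800080008000800092008000920006b0 0x9b00b6009d40c8009480c80092c0b8009400ba80099a :=
  pieceG0 good7 c7_7 x7_7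

theorem n7_8 : NoCfg 7 0x8d8080008000800080008000800080008000920006b0 0x9b00c8009d40c8009480c80092c0c8009400ba80099a :=
  pieceG good7 c7_8 x7_8 (by
    simp only [List.forall_mem_cons, List.not_mem_nil, false_imp_iff, implies_true, and_true]
    exact n7_7)

theorem n7_9 : NoCfg 7 0x9b0080008000800080008000800080008000800006b0 0xb600c800af80c8009480c80092c0c8009400c800099a :=
  pieceG good7 c7_9 x7_9 (by
    simp only [List.forall_mem_cons, List.not_mem_nil, false_imp_iff, implies_true, and_true]
    exact n7_6)

theorem n7_10 : NoCfg 7 0x800080008000800094808000800080008000800006b0 0xb600c800af80c800a900c80092c0c8009400c800099a :=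
  pieceG good7 c7_10 x7_10 (by
    simp only [List.forall_mem_cons, List.not_mem_nil, false_imp_iff, implies_true, and_true]
    exact n7_4)

theorem n7_11 : NoCfg 7 0x800080008000800080008000800080008000800006b0 0xb600c800af80c800a900c80092c0c800a340c800099a :=
  pieceG good7 c7_11 x7_11 (by
    simp only [List.forall_mem_cons, List.not_mem_nil, false_imp_iff, implies_true, and_true]
    exact ⟨n7_8, n7_9, n7_10⟩)

theorem n7_12 : NoCfg 7 0x80008000800080008000800080008000800080000487 0xc800c800c800c800c800c800c800c800a340c800099a :=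
  pieceG good7 c7_12 x7_12 (by
    simp only [List.forall_mem_cons, List.not_mem_nil, false_imp_iff, implies_true, and_true]
    exact ⟨n7_11, n7_2⟩)

theorem n7_13 : NoCfg 7 0xa64077808000800080008000800080008000800006b0 0xb2c08000ae40b2c0ab809980a5809980a340b2c0099a :=
  pieceG0 good7 c7_13 x7_13

theorem n7_14 : NoCfg 7 0xa64077808000800080008000800080008000800006b0 0xb2c08000ae40b2c0ab809980a580b2c0a340b2c0099a :=
  pieceG good7 c7_14 x7_14 (by
    simp only [List.forall_mem_cons, List.not_mem_nil, false_imp_iff, implies_true, and_true]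
    exact n7_13)

theorem n7_15 : NoCfg 7 0xa6406f008000800080008000800080008000800006b0 0xb2c07780ae40b2c0ab80b2c0a580b2c0a340b2c0099a :=
  pieceG0 good7 c7_15 x7_15

theorem n7_16 : NoCfg 7 0x998071009c40800090c0800092c0800080008f0006b0 0xa6408000a680b2c0a440b2c0a000b2c091c0a680099a :=
  pieceG0 good7 c7_16 x7_16

theorem n7_17 : NoCfg 7 0x998071008000800095c08000800080008000938006b0 0xa6408000ae40b2c0ab80b2c092c0b2c08900b2c0099a :=
  pieceG0 good7 c7_17 x7_17

theorem n7_18 : NoCfg 7 0x998071008000800080008000800080008000800006b0 0xa6408000ae40b2c0ab80b2c092c0b2c091c0b2c0099a :=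
  pieceG good7 c7_18 x7_18 (by
    simp only [List.forall_mem_cons, List.not_mem_nil, false_imp_iff, implies_true, and_true]
    exact n7_17)

theorem n7_19 : NoCfg 7 0x998067408000800080008000800080008000800006b0 0xa6407100ae40b2c0ab80b2c0a5809980a340b2c0099a :=
  pieceG0 good7 c7_19 x7_19

theorem n7_20 : NoCfg 7 0x998071008000800080008000800080008000800006b0 0xa6408000ae40b2c0ab80b2c0a580b2c0a340b2c0099a :=
  pieceG good7 c7_20 x7_20 (by
    simp only [List.forall_mem_cons, List.not_mem_nil, false_imp_iff, implies_true, and_true]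
    exact ⟨n7_18, n7_16⟩)

theorem n7_21 : NoCfg 7 0x998062408000800080008000800080008000800006b0 0xa6408000ae40b2c0ab80b2c0a580b2c0a340b2c0099a :=
  pieceG good7 c7_21 x7_21 (by
    simp only [List.forall_mem_cons, List.not_mem_nil, false_imp_iff, implies_true, and_true]
    exact ⟨n7_19, n7_20⟩)

theorem n7_22 : NoCfg 7 0x8f8062408d0080008dc080008000800080008f0006b0 0x998080009a80b2c09b40b2c099c0b2c09a80b2c0099a :=
  pieceG0 good7 c7_22 x7_22

theorem n7_23 : NoCfg 7 0x998062408000800080008000800080008000800006b0 0xb2c08000ae40b2c0ab80b2c0a580b2c0a340b2c0099a :=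
  pieceG good7 c7_23 x7_23 (by
    simp only [List.forall_mem_cons, List.not_mem_nil, false_imp_iff, implies_true, and_true]
    exact ⟨n7_21, n7_15, n7_14⟩)

theorem n7_24 : NoCfg 7 0x80006240800080008000800080008000800080000487 0xc8008000c800c800c800c800c800c800c800c800099a :=
  pieceG good7 c7_24 x7_24 (by
    simp only [List.forall_mem_cons, List.not_mem_nil, false_imp_iff, implies_true, and_true]
    exact ⟨n7_22, n7_23⟩)

theorem n7_25 : NoCfg 7 0xa5808000968062408000800092c080008000800006b0 0xadc0afc0a1c08000aa00b140a580b140a340b2c0099a :=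
  pieceG0 good7 c7_25 x7_25

theorem n7_26 : NoCfg 7 0xa58080009680624080008000800080008000800006b0 0xadc0afc0a1c08000aa00b140a580b140a340b2c0099a :=
  pieceG good7 c7_26 x7_26 (by
    simp only [List.forall_mem_cons, List.not_mem_nil, false_imp_iff, implies_true, and_true]
    exact n7_25)

theorem n7_27 : NoCfg 7 0xadc080009680624080008000800080008000800006b0 0xb600afc0ad008000aa00b140a580b140a340b2c0099a :=
  pieceG0 good7 c7_27 x7_27

theorem n7_28 : NoCfg 7 0x9d408000968071009280800092c080008000914006b0 0xa580afc09e8080009f80b1409ec0b1408980a440099a :=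
  pieceG0 good7 c7_28 x7_28

theorem n7_29 : NoCfg 7 0x94c08000968071008fc080008000800080008cc006b0 0xa580afc09e8080009f80b14092c0b1409380b2c0099a :=
  pieceG0 good7 c7_29 x7_29

theorem n7_30 : NoCfg 7 0x94c08000968071008000800092c080008000800006b0 0xa580afc09e8080009f80b140a580b140a340b2c0099a :=
  pieceG good7 c7_30 x7_30 (by
    simp only [List.forall_mem_cons, List.not_mem_nil, false_imp_iff, implies_true, and_true]
    exact n7_28)

theorem n7_31 : NoCfg 7 0x94c080009e80710080008000800080008000800006b0 0xa580afc0a6408000aa00b140a580b140a340b2c0099a :=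
  pieceG0 good7 c7_31 x7_31

theorem n7_32 : NoCfg 7 0x94c080009680668097c0800092c080008000800006b0 0xa580afc09e8071009f80b140a580b140a340b2c0099a :=
  pieceG0 good7 c7_32 x7_32

theorem n7_33 : NoCfg 7 0x94c080009680668080008000800080008000800006b0 0xa580afc09e807100aa00b140a580b140a340b2c0099a :=
  pieceG good7 c7_33 x7_33 (by
    simp only [List.forall_mem_cons, List.not_mem_nil, false_imp_iff, implies_true, and_true]
    exact n7_32)

theorem n7_34 : NoCfg 7 0x94c080009680624080008000800080008000800006b0 0xa580afc0ad008000aa00b140a580b140a340b2c0099a :=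
  pieceG good7 c7_34 x7_34 (by
    simp only [List.forall_mem_cons, List.not_mem_nil, false_imp_iff, implies_true, and_true]
    exact ⟨n7_33, n7_29, n7_30, n7_31⟩)

theorem n7_35 : NoCfg 7 0x800080008000624080008000800080008000800006b0 0xb600afc096808000aa00b140a580b140a340b2c0099a :=
  pieceG0 good7 c7_35 x7_35

theorem n7_36 : NoCfg 7 0x800080008000624080008000800080008000800006b0 0xc800c800c8008000c800c800a580c800a340c800099a :=
  pieceG good7 c7_36 x7_36 (by
    simp only [List.forall_mem_cons, List.not_mem_nil, false_imp_iff, implies_true, and_true]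
    exact ⟨n7_35, n7_34, n7_26, n7_27⟩)

theorem n7_37 : NoCfg 7 0x94c05fc097005e409200800092c080008000800006b0 0xa5808000a2808000a300ae00a580ae00a340af80099a :=
  pieceG0 good7 c7_37 x7_37

theorem n7_38 : NoCfg 7 0x94c05fc097005e4080008000800080008000800006b0 0xb6008000a2808000aa00ae0092c0ae00a340af80099a :=
  pieceG0 good7 c7_38 x7_38

theorem n7_39 : NoCfg 7 0x80005fc080005e4080008000800080008000800006b0 0xb600800097008000aa00ae00a580ae00a340af80099a :=
  pieceG0 good7 c7_39 x7_39

theorem n7_40 : NoCfg 7 0x80005fc080005e4080008000800080008000800006b0 0xc8008000c8008000c800c800a580c800a340c800099a :=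
  pieceG good7 c7_40 x7_40 (by
    simp only [List.forall_mem_cons, List.not_mem_nil, false_imp_iff, implies_true, and_true]
    exact ⟨n7_39, n7_38, n7_37⟩)

theorem n7_41 : NoCfg 7 0xad4080009280800094006240800080008000800006b0 0xb6009ec0a140afc0a3008000a580b140a340b2c0099a :=
  pieceG0 good7 c7_41 x7_41

theorem n7_42 : NoCfg 7 0xa4409800928080009400710092c080008000800006b0 0xad40a680afc0afc09e008000a580b14091c0b2c0099a :=
  pieceG0 good7 c7_42 x7_42

theorem n7_43 : NoCfg 7 0xa68091809dc080009400710092c0968080009c800929 0xa78093c09f808200948071c094c0974082009d000944 :=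
  pieceG0 good7 c7_43 x7_43

theorem n7_44 : NoCfg 7 0xa58090c09dc080009400710092c0968080009c800920 0xa80093c09f808280950071c094c0980082c09d400950 :=
  pieceG good7 c7_44 x7_44 (by
    simp only [List.forall_mem_cons, List.not_mem_nil, false_imp_iff, implies_true, and_true]
    exact n7_43)

theorem n7_45 : NoCfg 7 0xa58090c09dc080009400710092c0940080009c400920 0xa80093c0a14082809500728094c0968082c09d800960 :=
  pieceG0 good7 c7_45 x7_45

theorem n7_46 : NoCfg 7 0xa4408f809a0080009400710092c0940080009bc008f0 0xa8c093c09dc0834096007500958098c083809e40099a :=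
  pieceG0 good7 c7_46 x7_46

theorem n7_47 : NoCfg 7 0xa44093c09a0080009400710092c0940080009bc008f0 0xaa409800a140854096007500958098c084809e40099a :=
  pieceG0 good7 c7_47 x7_47

theorem n7_48 : NoCfg 7 0xa4408000928080009400710092c080008000974006b0 0xad409800a14098009e0078809ec098c08900a2c0099a :=
  pieceG good7 c7_48 x7_48 (by
    simp only [List.forall_mem_cons, List.not_mem_nil, false_imp_iff, implies_true, and_true]
    exact ⟨n7_46, n7_45, n7_44, n7_47⟩)

theorem n7_49 : NoCfg 7 0xa4408000928080009400710092c080008000974006b0 0xad409800a140afc09e0078809ec0b1408900a2c0099a :=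
  pieceG good7 c7_49 x7_49 (by
    simp only [List.forall_mem_cons, List.not_mem_nil, false_imp_iff, implies_true, and_true]
    exact n7_48)

theorem n7_50 : NoCfg 7 0xa4408000928080009400788092c080008000974006b0 0xad409800afc0afc09e0080009ec0b1408900a2c0099a :=
  pieceG0 good7 c7_50 x7_50

theorem n7_51 : NoCfg 7 0xa4408000928080009400710080008c408000970006b0 0xad409800a70098009e00800092c0b1408900a9c0099a :=
  pieceG0 good7 c7_51 x7_51

theorem n7_52 : NoCfg 7 0xa4408000928080009400710092c080008000800006b0 0xad409800afc0afc09e008000a580b14091c0b2c0099a :=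
  pieceG good7 c7_52 x7_52 (by
    simp only [List.forall_mem_cons, List.not_mem_nil, false_imp_iff, implies_true, and_true]
    exact ⟨n7_49, n7_50⟩)

theorem n7_53 : NoCfg 7 0xa44098009280800094007100800080008000800006b0 0xad40afc0afc0afc09e008000a580b140a340b2c0099a :=
  pieceG good7 c7_53 x7_53 (by
    simp only [List.forall_mem_cons, List.not_mem_nil, false_imp_iff, implies_true, and_true]
    exact n7_42)

theorem n7_54 : NoCfg 7 0xa60091c09c808000940070409340968080009c400920 0xa7c092c09f808200950071009480984083009d400950 :=
  pieceG0 good7 c7_54 x7_54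

theorem n7_55 : NoCfg 7 0xa44091c09900800094006e4092c0928080009b8008e0 0xaa809640a140840096c071009600998084809e00099a :=
  pieceG good7 c7_55 x7_55 (by
    simp only [List.forall_mem_cons, List.not_mem_nil, false_imp_iff, implies_true, and_true]
    exact n7_54)

theorem n7_56 : NoCfg 7 0xa4408d009640800094006d0092c09280800098800870 0xad409a00a1408e0099c071009940a08089009fc0099a :=
  pieceG good7 c7_56 x7_56 (by
    simp only [List.forall_mem_cons, List.not_mem_nil, false_imp_iff, implies_true, and_true]
    exact n7_55)

theorem n7_57 : NoCfg 7 0xa4408000928080009400668092c080008000800006b0 0xad40a3c0afc0afc09e007100a580b14091c0b2c0099a :=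
  pieceG good7 c7_57 x7_57 (by
    simp only [List.forall_mem_cons, List.not_mem_nil, false_imp_iff, implies_true, and_true]
    exact n7_56)

theorem n7_58 : NoCfg 7 0xa44080009280800094006240800080008000800006b0 0xad40afc0afc0afc09e007100a580b140a340b2c0099a :=
  pieceG good7 c7_58 x7_58 (by
    simp only [List.forall_mem_cons, List.not_mem_nil, false_imp_iff, implies_true, and_true]
    exact n7_57)

theorem n7_59 : NoCfg 7 0xa44080009280800094006240800080008000800006b0 0xad40afc0afc0afc0a8008000a580b140a340b2c0099a :=
  pieceG good7 c7_59 x7_59 (by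
    simp only [List.forall_mem_cons, List.not_mem_nil, false_imp_iff, implies_true, and_true]
    exact ⟨n7_58, n7_51, n7_52, n7_53⟩)

theorem n7_60 : NoCfg 7 0x9ac080009b8080009400710092c080008000938006b0 0xa440afc0a480afc09e007880a580b14089009f40099a :=
  pieceG0 good7 c7_60 x7_60

theorem n7_61 : NoCfg 7 0x9ac080009b80800094007880800080008000938006b0 0xa440afc0a480afc09e008000a580b14089009f40099a :=
  pieceG0 good7 c7_61 x7_61

theorem n7_62 : NoCfg 7 0x9ac080009b80800094007100800080008000938006b0 0xa440afc0a480afc09e008000a580b1408900ab00099a :=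
  pieceG good7 c7_62 x7_62 (by
    simp only [List.forall_mem_cons, List.not_mem_nil, false_imp_iff, implies_true, and_true]
    exact ⟨n7_60, n7_61⟩)

theorem n7_63 : NoCfg 7 0x9ac080009b8080009400668092c080008000800006b0 0xa440afc0a480afc09e007100a580b14091c0b2c0099a :=
  pieceG0 good7 c7_63 x7_63

theorem n7_64 : NoCfg 7 0x9ac080009b80800094006240800080008000800006b0 0xa440afc0a480afc09e007100a580b140a340b2c0099a :=
  pieceG good7 c7_64 x7_64 (by
    simp only [List.forall_mem_cons, List.not_mem_nil, false_imp_iff, implies_true, and_true]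
    exact n7_63)

theorem n7_65 : NoCfg 7 0x9b40800092808000940071008e408000800099c006b0 0xa440afc09b80afc09e0078809c40b1408d40a200099a :=
  pieceG0 good7 c7_65 x7_65

theorem n7_66 : NoCfg 7 0x92408000928080009400710080008000800099c006b0 0x9b40afc09b80afc09e0080009c40b1408d40a200099a :=
  pieceG0 good7 c7_66 x7_66

theorem n7_67 : NoCfg 7 0x92408000928080009400624080008000800099c006b0 0xa440afc09b80afc09e0071009c40b1408d40a200099a :=
  pieceG0 good7 c7_67 x7_67

theorem n7_68 : NoCfg 7 0x9b4080009280800094006240800080008000914006b0 0xa440afc09b80afc09e0080009c40b1408d4099c0099a :=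
  pieceG0 good7 c7_68 x7_68

theorem n7_69 : NoCfg 7 0x924080009280800094006240800080008000914006b0 0xa440afc09b80afc09e0080009c40b1408d40a200099a :=
  pieceG good7 c7_69 x7_69 (by
    simp only [List.forall_mem_cons, List.not_mem_nil, false_imp_iff, implies_true, and_true]
    exact ⟨n7_68, n7_67, n7_66, n7_65⟩)

theorem n7_70 : NoCfg 7 0x924080009280800094006240800080008000800006b0 0xa440afc0a480afc09e008000a580b140a340b2c0099a :=
  pieceG good7 c7_70 x7_70 (by
    simp only [List.forall_mem_cons, List.not_mem_nil, false_imp_iff, implies_true, and_true]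
    exact ⟨n7_69, n7_64, n7_62⟩)

theorem n7_71 : NoCfg 7 0x9c8080009e0080008a0062408a8080008000970006b0 0xafc09800ab00a1c094008000950098c08b00a140099a :=
  pieceG0 good7 c7_71 x7_71

theorem n7_72 : NoCfg 7 0x9c8080009e0080008a0062408000800080008cc006b0 0xb6009800ab00afc0940080009500b14095c0a780099a :=
  pieceG good7 c7_72 x7_72 (by
    simp only [List.forall_mem_cons, List.not_mem_nil, false_imp_iff, implies_true, and_true]
    exact n7_71)

theorem n7_73 : NoCfg 7 0x97c08000950080008a006b0080008c408000970006b0 0xadc098009e00afc0940075809500a8008b00a9c0099a :=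
  pieceG0 good7 c7_73 x7_73

theorem n7_74 : NoCfg 7 0x8d8080008c0080008a006240800080008000800006b0 0xb6009800afc0afc0940080009500b14095c0b2c0099a :=
  pieceG good7 c7_74 x7_74 (by
    simp only [List.forall_mem_cons, List.not_mem_nil, false_imp_iff, implies_true, and_true]
    exact ⟨n7_73, n7_72⟩)

theorem n7_75 : NoCfg 7 0x800080008000800080006240800080008000800006b0 0xb600afc0afc0afc094008000a580b140a340b2c0099a :=
  pieceG good7 c7_75 x7_75 (by
    simp only [List.forall_mem_cons, List.not_mem_nil, false_imp_iff, implies_true, and_true]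
    exact n7_74)

theorem n7_76 : NoCfg 7 0x800080008000800080006240800080008000800006b0 0xc800c800c800afc0a8008000a580c800a340c800099a :=
  pieceG good7 c7_76 x7_76 (by
    simp only [List.forall_mem_cons, List.not_mem_nil, false_imp_iff, implies_true, and_true]
    exact ⟨n7_75, n7_70, n7_59, n7_41⟩)

theorem n7_77 : NoCfg 7 0x94c05fc09480800095805e4092c0800080008f000810 0xa5808000a200ac409d8080009e40ac4091c0a380099a :=
  pieceG0 good7 c7_77 x7_77

theorem n7_78 : NoCfg 7 0x94c05fc09480800095805e4092c0800080008f000810 0xb6008000af80ac409d8080009e40ac4091c0a380099a :=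
  pieceG good7 c7_78 x7_78 (by
    simp only [List.forall_mem_cons, List.not_mem_nil, false_imp_iff, implies_true, and_true]
    exact n7_77)

theorem n7_79 : NoCfg 7 0x94c05fc09480800095805e4080008000800080000810 0xb6008000af80ac409d80800092c0ac40a340ac40099a :=
  pieceG0 good7 c7_79 x7_79

theorem n7_80 : NoCfg 7 0x97c06fc08c0080008ac066c08b4096408000964007d0 0xadc08000af809640958080009680ac408b00a3c0099a :=
  pieceG0 good7 c7_80 x7_80

theorem n7_81 : NoCfg 7 0x8d806fc08c0080008ac05e40800080008000800007d0 0xb6008000af809640958080009680ac4095c0ac40099a :=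
  pieceG good7 c7_81 x7_81 (by
    simp only [List.forall_mem_cons, List.not_mem_nil, false_imp_iff, implies_true, and_true]
    exact n7_80)

theorem n7_82 : NoCfg 7 0x8d805fc0800080008ac05e40800080008000800006b0 0xb6008000af80ac40958080009680ac4095c0ac40099a :=
  pieceG good7 c7_82 x7_82 (by
    simp only [List.forall_mem_cons, List.not_mem_nil, false_imp_iff, implies_true, and_true]
    exact n7_81)

theorem n7_83 : NoCfg 7 0x80005fc08000800080005e40800080008000800006b0 0xc8008000c800ac40aac08000a580ac40a340ac40099a :=
  pieceG good7 c7_83 x7_83 (by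
    simp only [List.forall_mem_cons, List.not_mem_nil, false_imp_iff, implies_true, and_true]
    exact ⟨n7_82, n7_79, n7_78⟩)

theorem n7_84 : NoCfg 7 0x94c0800094805fc095805e4092c0800080008f000810 0xa580ac40a2008000a18080009f80ac4091c0a380099a :=
  pieceG0 good7 c7_84 x7_84

theorem n7_85 : NoCfg 7 0x94c0800094805fc095805e4080008000800080000810 0xb600ac40a2008000a580800092c0ac4091c0ac40099a :=
  pieceG0 good7 c7_85 x7_85

theorem n7_86 : NoCfg 7 0x94c0800094805fc095805e4080008000800080000810 0xb600ac40a2008000a5808000a580ac40a340ac40099a :=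
  pieceG good7 c7_86 x7_86 (by
    simp only [List.forall_mem_cons, List.not_mem_nil, false_imp_iff, implies_true, and_true]
    exact ⟨n7_85, n7_84⟩)

theorem n7_87 : NoCfg 7 0x9b00800097c067c08ac066c08b408000800095000770 0xaec0a0c0a980800095808000968096408b00a180099a :=
  pieceG0 good7 c7_87 x7_87

theorem n7_88 : NoCfg 7 0x9b00800097c067c08ac05e4080008000800095000770 0xb600ac40af808000958080009680ac408b00a580099a :=
  pieceG good7 c7_88 x7_88 (by
    simp only [List.forall_mem_cons, List.not_mem_nil, false_imp_iff, implies_true, and_true]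
    exact n7_87)

theorem n7_89 : NoCfg 7 0x8000800080005fc080005e40800080008000800006b0 0xb600ac40af808000958080009680ac4095c0ac40099a :=
  pieceG good7 c7_89 x7_89 (by
    simp only [List.forall_mem_cons, List.not_mem_nil, false_imp_iff, implies_true, and_true]
    exact n7_88)

theorem n7_90 : NoCfg 7 0x8000800080005fc080005e40800080008000800006b0 0xc800c800c8008000aac08000a580ac40a340ac40099a :=
  pieceG good7 c7_90 x7_90 (by
    simp only [List.forall_mem_cons, List.not_mem_nil, false_imp_iff, implies_true, and_true]
    exact ⟨n7_89, n7_86⟩)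

theorem n7_91 : NoCfg 7 0x8d805f8080005f8080005f80800080008000800006b0 0xb6008000af808000a900800092c0a5809100a580099a :=
  pieceG0 good7 c7_91 x7_91

theorem n7_92 : NoCfg 7 0x8d805f8080005f8080005f80800080009100800006b0 0xb6008000af808000a9008000a580a580a200a580099a :=
  pieceG0 good7 c7_92 x7_92

theorem n7_93 : NoCfg 7 0x8000380080005f8080005f8080008000800080000487 0xc8008000c8008000c8008000c800c800c800c800099a :=
  pieceG good7 c7_93 x7_93 (by
    simp only [List.forall_mem_cons, List.not_mem_nil, false_imp_iff, implies_true, and_true]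
    exact ⟨n7_91, n7_92⟩)

theorem n7_94 : NoCfg 7 0x80003800800080008000380080008000800080000487 0xc800c800c800c800c8008000c800c800c800c800099a :=
  pieceG good7 c7_94 x7_94 (by
    simp only [List.forall_mem_cons, List.not_mem_nil, false_imp_iff, implies_true, and_true]
    exact ⟨n7_83, n7_76⟩)

theorem n7_95 : NoCfg 7 0x80003800800038008000800080008000800080000487 0xc800c800c800c800c800c800c800c800c800c800099a :=
  pieceG good7 c7_95 x7_95 (by
    simp only [List.forall_mem_cons, List.not_mem_nil, false_imp_iff, implies_true, and_true]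
    exact ⟨n7_40, n7_36, n7_24, n7_12⟩)

theorem n7_96 : NoCfg 7 0x9f008000a00080009280800092c07400800097000850 0xaa80a3c0a580a3c098c0a3c09a007a008900a140099a :=
  pieceG0 good7 c7_96 x7_96

theorem n7_97 : NoCfg 7 0xa4c08000a00080009280800092c06840800097000870 0xaa80a3c0a580a3c09f00a3c09a0074008900a140099a :=
  pieceG0 good7 c7_97 x7_97

theorem n7_98 : NoCfg 7 0x9f008000a00080009280800092c068408000970006b0 0xaa80a3c0aac0a3c09f00af809c4074008900a140099a :=
  pieceG good7 c7_98 x7_98 (by
    simp only [List.forall_mem_cons, List.not_mem_nil, false_imp_iff, implies_true, and_true]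
    exact n7_97)

theorem n7_99 : NoCfg 7 0x9f008000a00080009280800092c0604080008e0006b0 0xaa80af80aac0af809f00af809c4080008900a580099a :=
  pieceG good7 c7_99 x7_99 (by
    simp only [List.forall_mem_cons, List.not_mem_nil, false_imp_iff, implies_true, and_true]
    exact ⟨n7_98, n7_96⟩)

theorem n7_100 : NoCfg 7 0x92408000990080009280800092c0604089008e0006b0 0xb60097c0a000af809f00af809c40800091c0a580099a :=
  pieceG0 good7 c7_100 x7_100

theorem n7_101 : NoCfg 7 0xa44091c09b0080009280920092c06e0080009b8008d0 0xaa8094c0a000830096409b009580740084c09e40099a :=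
  pieceG0 good7 c7_101 x7_101

theorem n7_102 : NoCfg 7 0xa4408d00990080009280920092c06e0080009a4008d0 0xaa8091c0a000848098c096809700740086c09e40099a :=
  pieceG0 good7 c7_102 x7_102

theorem n7_103 : NoCfg 7 0xa4408d00990080009280920092c06e00800098c00870 0xaa809a00a00093c098c0a3c09900740089009e40099a :=
  pieceG good7 c7_103 x7_103 (by
    simp only [List.forall_mem_cons, List.not_mem_nil, false_imp_iff, implies_true, and_true]
    exact ⟨n7_102, n7_101⟩)

theorem n7_104 : NoCfg 7 0xa44080009900800098c0800092c06840800097000870 0xb080a3c0a000a3c09f00a3c09c40740089009e40099a :=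
  pieceG0 good7 c7_104 x7_104

theorem n7_105 : NoCfg 7 0xa4408000990080009280800092c074008000970006b0 0xb080a3c0a000af809f00af809c40800089009e40099a :=
  pieceG0 good7 c7_105 x7_105

theorem n7_106 : NoCfg 7 0x98408000990080009280800092c074008000970006b0 0xa440af80a000af809f00af809c40800089009e40099a :=
  pieceG0 good7 c7_106 x7_106

theorem n7_107 : NoCfg 7 0xa4408000990080009280800092c068408000970006b0 0xb600af80a000af809f00af809c40800089009e40099a :=
  pieceG good7 c7_107 x7_107 (by
    simp only [List.forall_mem_cons, List.not_mem_nil, false_imp_iff, implies_true, and_true]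
    exact ⟨n7_103, n7_104, n7_105⟩)

theorem n7_108 : NoCfg 7 0x92408000990080009280800092c0684080009e4006b0 0xb600af80a000af809f00af809c4080008900a580099a :=
  pieceG0 good7 c7_108 x7_108

theorem n7_109 : NoCfg 7 0x9240800091c080009280800092c074008000974006b0 0xb60097c09900af8099c0af809c4080008900a140099a :=
  pieceG0 good7 c7_109 x7_109

theorem n7_110 : NoCfg 7 0xa440800091c080009280800092c068408000980006b0 0xb600af809900af8099c0af809c4074008900a140099a :=
  pieceG0 good7 c7_110 x7_110

theorem n7_111 : NoCfg 7 0x9240800091c080009280800092c060408000940006b0 0xb600af809900af8099c0af809c4080008900a580099a :=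
  pieceG good7 c7_111 x7_111 (by
    simp only [List.forall_mem_cons, List.not_mem_nil, false_imp_iff, implies_true, and_true]
    exact ⟨n7_110, n7_109⟩)

theorem n7_112 : NoCfg 7 0x92408000a00080009280800092c0604080008e0006b0 0xb600af80ae40af809f00af809c40800091c0a580099a :=
  pieceG good7 c7_112 x7_112 (by
    simp only [List.forall_mem_cons, List.not_mem_nil, false_imp_iff, implies_true, and_true]
    exact n7_99)

theorem n7_113 : NoCfg 7 0x9240800091c080009280800092c0604080008e0006b0 0xb600af80ae40af809f00af809c40800091c0a580099a :=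
  pieceG good7 c7_113 x7_113 (by
    simp only [List.forall_mem_cons, List.not_mem_nil, false_imp_iff, implies_true, and_true]
    exact ⟨n7_111, n7_106, n7_107, n7_108, n7_100, n7_112⟩)

theorem n7_114 : NoCfg 7 0x9240800091c080009280800092c060408000800006b0 0xb600af80ae40af80ab40af809c40800091c0af80099a :=
  pieceG good7 c7_114 x7_114 (by
    simp only [List.forall_mem_cons, List.not_mem_nil, false_imp_iff, implies_true, and_true]
    exact n7_113)

theorem n7_115 : NoCfg 7 0x910080008e0080008cc0800089807800800097c006b0 0xb6008c00ac40af80ab40af8092c080008a00a500099a :=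
  pieceG0 good7 c7_115 x7_115

theorem n7_116 : NoCfg 7 0x910080008e0080008cc0800089807000800095c006b0 0xb600a3c0ac409200ab40af8092c078008a00a500099a :=
  pieceG0 good7 c7_116 x7_116

theorem n7_117 : NoCfg 7 0x910080008e0080008cc08000898070008a008c0006b0 0xb600af80ac40af80ab40af8092c078009400a500099a :=
  pieceG0 good7 c7_117 x7_117

theorem n7_118 : NoCfg 7 0x910080008e0080008cc080008980780080008c0006b0 0xb600af80ac40af80ab40af8092c080009400a500099a :=
  pieceG good7 c7_118 x7_118 (by
    simp only [List.forall_mem_cons, List.not_mem_nil, false_imp_iff, implies_true, and_true]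
    exact n7_115)

theorem n7_119 : NoCfg 7 0x8e8080008b0080008ac08000898065008000948006b0 0xb600a1c0ac40a2c0ab40af8092c070008a00a400099a :=
  pieceG0 good7 c7_119 x7_119

theorem n7_120 : NoCfg 7 0x8e8080008b0080008ac08000898065008000800006b0 0xb600af80ac40af80ab40af8092c070009400af80099a :=
  pieceG good7 c7_120 x7_120 (by
    simp only [List.forall_mem_cons, List.not_mem_nil, false_imp_iff, implies_true, and_true]
    exact n7_119)

theorem n7_121 : NoCfg 7 0x800080008000800080008000898060408000800006b0 0xb600af80ac40af80ab40af8092c080009400af80099a :=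
  pieceG good7 c7_121 x7_121 (by
    simp only [List.forall_mem_cons, List.not_mem_nil, false_imp_iff, implies_true, and_true]
    exact ⟨n7_120, n7_116, n7_117, n7_118⟩)

theorem n7_122 : NoCfg 7 0x80008000800080008000800092c060408000800006b0 0xb600af80c800af80ab40af80a5808000a340af80099a :=
  pieceG good7 c7_122 x7_122 (by
    simp only [List.forall_mem_cons, List.not_mem_nil, false_imp_iff, implies_true, and_true]
    exact n7_114)

theorem n7_123 : NoCfg 7 0xa0806fc0a10080009280800092c066c080008d0007f0 0xa8808000a9c0ac409ec096409c40800091c0a480099a :=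
  pieceG0 good7 c7_123 x7_123

theorem n7_124 : NoCfg 7 0xa44077c0924080009280964092c06f008000984007f0 0xb0008000a100ac409ec0ac409c4077808900a480099a :=
  pieceG0 good7 c7_124 x7_124

theorem n7_125 : NoCfg 7 0xa44077c0924080009280800092c06f008000930007f0 0xb6008000a100ac409ec0ac409c40778091c0a480099a :=
  pieceG good7 c7_125 x7_125 (by
    simp only [List.forall_mem_cons, List.not_mem_nil, false_imp_iff, implies_true, and_true]
    exact n7_124)

theorem n7_126 : NoCfg 7 0x924077c0924080009280800092c06f008000930007f0 0xb6008000a100ac409ec0ac409c40778091c0a480099a :=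
  pieceG good7 c7_126 x7_126 (by
    simp only [List.forall_mem_cons, List.not_mem_nil, false_imp_iff, implies_true, and_true]
    exact n7_125)

theorem n7_127 : NoCfg 7 0x92406fc0924080009280800092c06f0080008d0007f0 0xb60077c0a100ac409ec0ac409c40800091c0a480099a :=
  pieceG0 good7 c7_127 x7_127

theorem n7_128 : NoCfg 7 0xa44077c0924080009280800092c064008000930007f0 0xb0408000a100ac409ec0ac409c406f0091c0a480099a :=
  pieceG0 good7 c7_128 x7_128

theorem n7_129 : NoCfg 7 0x92406fc0924080009280800092c0640080008d0007f0 0xa4408000a100ac409ec0ac409c406f0091c0a480099a :=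
  pieceG0 good7 c7_129 x7_129

theorem n7_130 : NoCfg 7 0x92406fc0a10080009280800092c05e4080008d0007f0 0xb6008000af80ac409ec0ac409c40800091c0a480099a :=
  pieceG good7 c7_130 x7_130 (by
    simp only [List.forall_mem_cons, List.not_mem_nil, false_imp_iff, implies_true, and_true]
    exact n7_123)

theorem n7_131 : NoCfg 7 0x92406fc0924080009280800092c05e408000800007f0 0xb6008000af80ac409ec0ac409c40800091c0ac40099a :=
  pieceG good7 c7_131 x7_131 (by
    simp only [List.forall_mem_cons, List.not_mem_nil, false_imp_iff, implies_true, and_true]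
    exact ⟨n7_129, n7_128, n7_127, n7_126, n7_130⟩)

theorem n7_132 : NoCfg 7 0x92406fc0924080009ec0800092c05e408000800007f0 0xb6008000af80ac40aac0ac409c408000a340ac40099a :=
  pieceG0 good7 c7_132 x7_132

theorem n7_133 : NoCfg 7 0x92405fc0924080009280800092c05e408000800007f0 0xb6006fc0af80ac40aac0ac409c408000a340ac40099a :=
  pieceG0 good7 c7_133 x7_133

theorem n7_134 : NoCfg 7 0x98806fc09f4080008e80800089806f0080008b000810 0xb6008000aac096409cc0ac4092c077809400a400099a :=
  pieceG0 good7 c7_134 x7_134

theorem n7_135 : NoCfg 7 0x98806fc08ec080008e80800089806f0080008b000810 0xb60080009f409640aac0ac4092c077809400a400099a :=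
  pieceG0 good7 c7_135 x7_135

theorem n7_136 : NoCfg 7 0x98806fc08ec096408e80800089806f0080008b000810 0xb6008000af80ac40aac0ac4092c077809400a400099a :=
  pieceG0 good7 c7_136 x7_136

theorem n7_137 : NoCfg 7 0x98806fc08ec080008e8080008980778080008b000810 0xb6008000af80ac40aac0ac4092c080009400a400099a :=
  pieceG0 good7 c7_137 x7_137

theorem n7_138 : NoCfg 7 0x97c06fc0950080009ac08000898062808a008b0007d0 0xa7008000af809640a6c0a08092c06f009400a400099a :=
  pieceG0 good7 c7_138 x7_138

theorem n7_139 : NoCfg 7 0x97c06fc0950080008ac08000898062808a008b0007d0 0xb6008000af8096409ac0a08092c06f009400a400099a :=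
  pieceG0 good7 c7_139 x7_139

theorem n7_140 : NoCfg 7 0x97c06fc09dc080008f808000898068c08000950007d0 0xae808000af80a0409ac0a14092c06f008a00a340099a :=
  pieceG0 good7 c7_140 x7_140

theorem n7_141 : NoCfg 7 0x97c06fc08c0080009ac08000898068c08000950007d0 0xae808000af80a040aac0a14092c06f008a00a340099a :=
  pieceG0 good7 c7_141 x7_141

theorem n7_142 : NoCfg 7 0x8d806fc08c0080008ac08000898062808000950007d0 0xb6008000af80a040aac0a14092c06f008a00a340099a :=
  pieceG good7 c7_142 x7_142 (by
    simp only [List.forall_mem_cons, List.not_mem_nil, false_imp_iff, implies_true, and_true]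
    exact ⟨n7_140, n7_141⟩)

theorem n7_143 : NoCfg 7 0x8d806fc08c0080008ac08000898062808a00800007d0 0xb6008000af80ac40aac0ac4092c06f009400ac40099a :=
  pieceG good7 c7_143 x7_143 (by
    simp only [List.forall_mem_cons, List.not_mem_nil, false_imp_iff, implies_true, and_true]
    exact ⟨n7_139, n7_138⟩)

theorem n7_144 : NoCfg 7 0x970068c0910080008c4080008980654086c08d0007f0 0xaa406fc0af809f80aac09e4092c06d809400a1c0099a :=
  pieceG0 good7 c7_144 x7_144

theorem n7_145 : NoCfg 7 0x8d806fc0800080008000800089805e408000800006b0 0xb6008000af80ac40aac0ac4092c080009400ac40099a :=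
  pieceG good7 c7_145 x7_145 (by
    simp only [List.forall_mem_cons, List.not_mem_nil, false_imp_iff, implies_true, and_true]
    exact ⟨n7_142, n7_143, n7_135, n7_134, n7_136, n7_137⟩)

theorem n7_146 : NoCfg 7 0x8d805fc0800080008000800089805e408000800006b0 0xb6008000af80ac40aac0ac4092c080009400ac40099a :=
  pieceG good7 c7_146 x7_146 (by
    simp only [List.forall_mem_cons, List.not_mem_nil, false_imp_iff, implies_true, and_true]
    exact ⟨n7_144, n7_145⟩)

theorem n7_147 : NoCfg 7 0x80005fc0800080008000800092c05e408000800006b0 0xb6008000af80ac40aac0ac40a5808000a340ac40099a :=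
  pieceG good7 c7_147 x7_147 (by
    simp only [List.forall_mem_cons, List.not_mem_nil, false_imp_iff, implies_true, and_true]
    exact ⟨n7_133, n7_131, n7_132⟩)

theorem n7_148 : NoCfg 7 0x80003800800080008000800080003800800080000487 0xc8008000c800c800c800c800c8008000c800c800099a :=
  pieceG good7 c7_148 x7_148 (by
    simp only [List.forall_mem_cons, List.not_mem_nil, false_imp_iff, implies_true, and_true]
    exact ⟨n7_146, n7_147⟩)

theorem n7_149 : NoCfg 7 0xa0808000a1006a0091c0800092c066c08000960007f0 0xa840aac0ab0080009d8095809b8080008c80a1c0099a :=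
  pieceG0 good7 c7_149 x7_149

theorem n7_150 : NoCfg 7 0xa0808000a1006a0091c0800092c066c08000960007f0 0xa840aac0ab008000a940aac09b8080008c80a1c0099a :=
  pieceG good7 c7_150 x7_150 (by
    simp only [List.forall_mem_cons, List.not_mem_nil, false_imp_iff, implies_true, and_true]
    exact n7_149)

theorem n7_151 : NoCfg 7 0xa0808000a1006a0091c0800092c066c080008d0007f0 0xb600aac0ab008000a940aac09b8080008c80a1c0099a :=
  pieceG good7 c7_151 x7_151 (by
    simp only [List.forall_mem_cons, List.not_mem_nil, false_imp_iff, implies_true, and_true]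
    exact n7_150)

theorem n7_152 : NoCfg 7 0xa58090009b807d809380944092c06f0080009bc00910 0xa9009400a1008000960096c0950072c082c09d800970 :=
  pieceG0 good7 c7_152 x7_152

theorem n7_153 : NoCfg 7 0xa440900099c0794091c0944092c06f008000984008c0 0xab009840a100800099c0a000968074008d409fc0099a :=
  pieceG good7 c7_153 x7_153 (by
    simp only [List.forall_mem_cons, List.not_mem_nil, false_imp_iff, implies_true, and_true]
    exact n7_152)

theorem n7_154 : NoCfg 7 0xa7c08ac099c07b0091c0944092c06f0080009a000900 0xab009000a100800099c098c09540738089409e00099a :=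
  pieceG0 good7 c7_154 x7_154

theorem n7_155 : NoCfg 7 0xa440800099c0794091c0888092c06f008000944007f0 0xad809000a100800099c0a00099c075c08d409fc0099a :=
  pieceG good7 c7_155 x7_155 (by
    simp only [List.forall_mem_cons, List.not_mem_nil, false_imp_iff, implies_true, and_true]
    exact n7_154)

theorem n7_156 : NoCfg 7 0xa440800099c079c091c0898092c068c0800097c008d0 0xad809800a100800099c094c097006f0089009f80099a :=
  pieceG0 good7 c7_156 x7_156

theorem n7_157 : NoCfg 7 0xa440800099c079c091c0800092c0664080008f0007f0 0xb080a000a1008000a1c0a00099c06f008900a380099a :=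
  pieceG good7 c7_157 x7_157 (by
    simp only [List.forall_mem_cons, List.not_mem_nil, false_imp_iff, implies_true, and_true]
    exact n7_156)

theorem n7_158 : NoCfg 7 0xa440800099c067c091c0800092c05e4080008f0007f0 0xb080a000a1008000a1c0aac099c06f0091c0a380099a :=
  pieceG good7 c7_158 x7_158 (by
    simp only [List.forall_mem_cons, List.not_mem_nil, false_imp_iff, implies_true, and_true]
    exact n7_157)

theorem n7_159 : NoCfg 7 0x9940800099c067c091c0800092c05e4080008f0007f0 0xa440aac0a1008000a1c0aac099c06f0091c0a380099a :=
  pieceG0 good7 c7_159 x7_159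

theorem n7_160 : NoCfg 7 0xa440800099c067c091c0800092c05e4080008f0007f0 0xb600aac0a1008000a1c0aac099c0800091c0a380099a :=
  pieceG good7 c7_160 x7_160 (by
    simp only [List.forall_mem_cons, List.not_mem_nil, false_imp_iff, implies_true, and_true]
    exact ⟨n7_158, n7_155, n7_153⟩)

theorem n7_161 : NoCfg 7 0x9240800099c05fc091c0800092c05e408000800007f0 0xb600aac0a1008000a1c0aac0a0c0800091c0ac40099a :=
  pieceG good7 c7_161 x7_161 (by
    simp only [List.forall_mem_cons, List.not_mem_nil, false_imp_iff, implies_true, and_true]
    exact ⟨n7_159, n7_160⟩)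

theorem n7_162 : NoCfg 7 0x9240800092405fc091c0800092c05e408000800007f0 0xb600aac099c08000a1c0aac0a0c08000a340ac40099a :=
  pieceG0 good7 c7_162 x7_162

theorem n7_163 : NoCfg 7 0x92408000a1005fc091c0800092c05e408000800007f0 0xb600aac0af808000a940aac0a5808000a340ac40099a :=
  pieceG good7 c7_163 x7_163 (by
    simp only [List.forall_mem_cons, List.not_mem_nil, false_imp_iff, implies_true, and_true]
    exact n7_151)

theorem n7_164 : NoCfg 7 0xa6c0800097c073c094c080008f806f008a00908008b0 0xb600a000a9808000a9409e4092c077809400a100099a :=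
  pieceG0 good7 c7_164 x7_164

theorem n7_165 : NoCfg 7 0x9d008000a08073c094c080008fc06f00850096800880 0xae00a000a90080009c80a00092c077808a00a100099a :=
  pieceG0 good7 c7_165 x7_165

theorem n7_166 : NoCfg 7 0x9740800097c073c094c0800089806f00800096800790 0xb600a000a9008000a940aac092c077808a00a100099a :=
  pieceG good7 c7_166 x7_166 (by
    simp only [List.forall_mem_cons, List.not_mem_nil, false_imp_iff, implies_true, and_true]
    exact n7_165)

theorem n7_167 : NoCfg 7 0x9740800097c073c094c0800089806f0080008b000790 0xb600a000af808000a940aac092c077809400a100099a :=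
  pieceG good7 c7_167 x7_167 (by
    simp only [List.forall_mem_cons, List.not_mem_nil, false_imp_iff, implies_true, and_true]
    exact ⟨n7_166, n7_164⟩)

theorem n7_168 : NoCfg 7 0xa6c0800097c0694094c08f408bc063408a0090800840 0xb1409280a9808000a44096c092c06f009400a100099a :=
  pieceG0 good7 c7_168 x7_168

theorem n7_169 : NoCfg 7 0xa6c0800097c0694094c084808bc063408a0093c00840 0xac0087c0a9808000a0808f4092c06f008f009d00099a :=
  pieceG0 good7 c7_169 x7_169

theorem n7_170 : NoCfg 7 0xa6c0800097c0694094c08000898063408a0090800840 0xb1408f80a9808000a4408f4092c06f009400a100099a :=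
  pieceG good7 c7_170 x7_170 (by
    simp only [List.forall_mem_cons, List.not_mem_nil, false_imp_iff, implies_true, and_true]
    exact n7_169)

theorem n7_171 : NoCfg 7 0x9740800097c06ec094c08000898063408a008b000840 0xa6c09f00a9807480a9409e4092c069009400a100099a :=
  pieceG0 good7 c7_171 x7_171

theorem n7_172 : NoCfg 7 0x9740800097c06ec094c08000898063408a008b000840 0xa6c09f00a9807480a9409e4092c06f009400a100099a :=
  pieceG good7 c7_172 x7_172 (by
    simp only [List.forall_mem_cons, List.not_mem_nil, false_imp_iff, implies_true, and_true]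
    exact n7_171)

theorem n7_173 : NoCfg 7 0x9740800097c0748094c08000898063408a008b000840 0xa6c09f00a9808000a9409e4092c06f009400a100099a :=
  pieceG0 good7 c7_173 x7_173

theorem n7_174 : NoCfg 7 0xa6c0800097c0784094c088008e006640830097c008a0 0xaac09680a0c080009f00940092c06f008a009e40099a :=
  pieceG0 good7 c7_174 x7_174

theorem n7_175 : NoCfg 7 0xa6c0800097c0708094c088008c8066408300958008a0 0xaac09680a98080009f00a00092c06f008a009e40099a :=
  pieceG good7 c7_175 x7_175 (by
    simp only [List.forall_mem_cons, List.not_mem_nil, false_imp_iff, implies_true, and_true]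
    exact n7_174)

theorem n7_176 : NoCfg 7 0x9740800097c0748094c0800089806900800095800810 0xa6c09f00a9808000a3c0a00092c06f008a00a100099a :=
  pieceG0 good7 c7_176 x7_176

theorem n7_177 : NoCfg 7 0x9740800097c0694094c0800089806340800095800810 0xa6c09f00a9808000a3c0a00092c06f008a00a100099a :=
  pieceG good7 c7_177 x7_177 (by
    simp only [List.forall_mem_cons, List.not_mem_nil, false_imp_iff, implies_true, and_true]
    exact n7_176)

theorem n7_178 : NoCfg 7 0x9740800097c0694094c08000898063408a008b000790 0xb6009f00a9808000a940aac092c06f009400a100099a :=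
  pieceG good7 c7_178 x7_178 (by
    simp only [List.forall_mem_cons, List.not_mem_nil, false_imp_iff, implies_true, and_true]
    exact ⟨n7_172, n7_173, n7_170, n7_168⟩)

theorem n7_179 : NoCfg 7 0x9740800097c05fc094c0800089806f0080008b000790 0xb600aac0af808000a940aac092c080009400a100099a :=
  pieceG good7 c7_179 x7_179 (by
    simp only [List.forall_mem_cons, List.not_mem_nil, false_imp_iff, implies_true, and_true]
    exact n7_167)

theorem n7_180 : NoCfg 7 0x9740800097c05fc08000800080005e408000800006b0 0xb600aac0af80800094c0aac092c080009400ac40099a :=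
  pieceG0 good7 c7_180 x7_180

theorem n7_181 : NoCfg 7 0x8000800097c05fc08000800080005e408000800006b0 0xb600aac0af808000a940aac092c080009400ac40099a :=
  pieceG good7 c7_181 x7_181 (by
    simp only [List.forall_mem_cons, List.not_mem_nil, false_imp_iff, implies_true, and_true]
    exact ⟨n7_180, n7_177, n7_175, n7_178, n7_179⟩)

theorem n7_182 : NoCfg 7 0x8000800080005fc08000800080005e408000800006b0 0xb600aac0af808000a940aac0a5808000a340ac40099a :=
  pieceG good7 c7_182 x7_182 (by
    simp only [List.forall_mem_cons, List.not_mem_nil, false_imp_iff, implies_true, and_true]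
    exact ⟨n7_181, n7_162, n7_161, n7_163⟩)

theorem n7_183 : NoCfg 7 0x97c0680092c068009480800088405f80888098400830 0xb6008000af808000a40092c092406fc091009fc0099a :=
  pieceG0 good7 c7_183 x7_183

theorem n7_184 : NoCfg 7 0x8d805f8092c05f80948092c080005f808880984007b0 0xb6008000af808000a900a580a580800091009fc0099a :=
  pieceG0 good7 c7_184 x7_184

theorem n7_185 : NoCfg 7 0x97c06b4092c06b00948080008e005f80888090c00850 0xb6008000af808000a90092c092c06b0091009840099a :=
  pieceG0 good7 c7_185 x7_185

theorem n7_186 : NoCfg 7 0x97c06b4092c06b009480800089005f8088808e4007b0 0xb6008000af808000a90092c092c0768091009840099a :=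
  pieceG good7 c7_186 x7_186 (by
    simp only [List.forall_mem_cons, List.not_mem_nil, false_imp_iff, implies_true, and_true]
    exact n7_185)

theorem n7_187 : NoCfg 7 0x8d805f8092c05f80948092c080005f8088808e4007b0 0xb6008000af808000a900a580a580800091009840099a :=
  pieceG0 good7 c7_187 x7_187

theorem n7_188 : NoCfg 7 0x8d805f8092c05f809480800080005f808880984007b0 0xb6008000af808000a900a580a58080009100a580099a :=
  pieceG good7 c7_188 x7_188 (by
    simp only [List.forall_mem_cons, List.not_mem_nil, false_imp_iff, implies_true, and_true]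
    exact ⟨n7_183, n7_184⟩)

theorem n7_189 : NoCfg 7 0x8d805f8092c05f809480800080005f8080008b0006b0 0xb6008000af808000a900a580a58080008880a580099a :=
  pieceG0 good7 c7_189 x7_189

theorem n7_190 : NoCfg 7 0x8d805f8080005f808000800080005f808000800006b0 0xb6008000af8080009480a580a58080009100a580099a :=
  pieceG0 good7 c7_190 x7_190

theorem n7_191 : NoCfg 7 0x8d805f8080005f808000800080005f809100800006b0 0xb6008000af808000a900a580a5808000a200a580099a :=
  pieceG0 good7 c7_191 x7_191

theorem n7_192 : NoCfg 7 0x80003800800038008000800080005f80800080000487 0xc8008000c8008000c800c800c8008000c800c800099a :=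
  pieceG good7 c7_192 x7_192 (by
    simp only [List.forall_mem_cons, List.not_mem_nil, false_imp_iff, implies_true, and_true]
    exact ⟨n7_190, n7_189, n7_186, n7_187, n7_188, n7_191⟩)

theorem n7_193 : NoCfg 7 0x80003800800080008000800080003800800080000487 0xc800c800c800c800c800c800c8008000c800c800099a :=
  pieceG good7 c7_193 x7_193 (by
    simp only [List.forall_mem_cons, List.not_mem_nil, false_imp_iff, implies_true, and_true]
    exact ⟨n7_148, n7_121, n7_122⟩)

theorem n7_194 : NoCfg 7 0xa44080009240800092806fc092c05e408000950007f0 0xb1009f00a840aac09ec080009f4080008d40a140099a :=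
  pieceG0 good7 c7_194 x7_194

theorem n7_195 : NoCfg 7 0xa44080009240800092805fc092c05e40800090c007f0 0xb600aac0af80aac09ec080009f408000a340a140099a :=
  pieceG good7 c7_195 x7_195 (by
    simp only [List.forall_mem_cons, List.not_mem_nil, false_imp_iff, implies_true, and_true]
    exact n7_194)

theorem n7_196 : NoCfg 7 0x924080009240800092806fc092c05e4080008f0007f0 0xa440aac0a580aac09ec080009f40800091c0a380099a :=
  pieceG0 good7 c7_196 x7_196

theorem n7_197 : NoCfg 7 0x924080009240800092805fc092c05e408000800007f0 0xa440aac0af80aac09ec080009f408000a340ac40099a :=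
  pieceG good7 c7_197 x7_197 (by
    simp only [List.forall_mem_cons, List.not_mem_nil, false_imp_iff, implies_true, and_true]
    exact n7_196)

theorem n7_198 : NoCfg 7 0x924080009240800092805fc092c05e408000800006b0 0xb600aac0af80aac0aac08000a5808000a340ac40099a :=
  pieceG good7 c7_198 x7_198 (by
    simp only [List.forall_mem_cons, List.not_mem_nil, false_imp_iff, implies_true, and_true]
    exact ⟨n7_197, n7_195⟩)

theorem n7_199 : NoCfg 7 0xa58080009480800095806880898062808a008b000800 0xb1809f40a2009000a580800092c06f009400a100099a :=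
  pieceG0 good7 c7_199 x7_199

theorem n7_200 : NoCfg 7 0x99c080009d40800095806880898062808a008b000800 0xa5809f40a600a000a480800092c06f009400a100099a :=
  pieceG0 good7 c7_200 x7_200

theorem n7_201 : NoCfg 7 0xa58080009480800095806880898062808a008b000800 0xb6009f40af80a000aac0800092c06f009400a100099a :=
  pieceG good7 c7_201 x7_201 (by
    simp only [List.forall_mem_cons, List.not_mem_nil, false_imp_iff, implies_true, and_true]
    exact n7_199)

theorem n7_202 : NoCfg 7 0x94c080009480800095806880898068c0850095800800 0xb6009f40a700a000a380800092c06f008a00a100099a :=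
  pieceG0 good7 c7_202 x7_202

theorem n7_203 : NoCfg 7 0x94c0800094808000958068808980628080008b000800 0xb6009f40af80a000aac0800092c06f008a00a100099a :=
  pieceG good7 c7_203 x7_203 (by
    simp only [List.forall_mem_cons, List.not_mem_nil, false_imp_iff, implies_true, and_true]
    exact n7_202)

theorem n7_204 : NoCfg 7 0x94c080009480800095805fc089806f0080008b000770 0xb600aac0af80aac0aac0800092c080009400a100099a :=
  pieceG0 good7 c7_204 x7_204

theorem n7_205 : NoCfg 7 0x800080008000800095805fc080005e408000800006b0 0xb600aac0af80aac0aac0800092c080009400ac40099a :=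
  pieceG good7 c7_205 x7_205 (by
    simp only [List.forall_mem_cons, List.not_mem_nil, false_imp_iff, implies_true, and_true]
    exact ⟨n7_203, n7_200, n7_201, n7_204⟩)

theorem n7_206 : NoCfg 7 0x800080008000800080005fc080005e40800080000487 0xc800c800c800c800c8008000c8008000a340c800099a :=
  pieceG good7 c7_206 x7_206 (by
    simp only [List.forall_mem_cons, List.not_mem_nil, false_imp_iff, implies_true, and_true]
    exact ⟨n7_205, n7_198⟩)

theorem n7_207 : NoCfg 7 0x98406b0097c0800093406fc08d805f80888098400850 0xb6008000a8809c40a500800092c0768091009d40099a :=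
  pieceG0 good7 c7_207 x7_207

theorem n7_208 : NoCfg 7 0x8d805f8097c080008b005f8080005f808880984007b0 0xb6008000a880a580ac40800092c0800091009fc0099a :=
  pieceG good7 c7_208 x7_208 (by
    simp only [List.forall_mem_cons, List.not_mem_nil, false_imp_iff, implies_true, and_true]
    exact n7_207)

theorem n7_209 : NoCfg 7 0x98805f8097c092c08b005f8089805f8088808e4007b0 0xb6008000a8009880ac408000a580800091009840099a :=
  pieceG0 good7 c7_209 x7_209

theorem n7_210 : NoCfg 7 0x97c06a4097c08000934075808e005f80888091400850 0xb6008000a94092c0a600800092c075c091009840099a :=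
  pieceG0 good7 c7_210 x7_210

theorem n7_211 : NoCfg 7 0x97c06a4097c0800093406b0089005f8088808e4007b0 0xb6008000a94092c0ac40800092c075c091009840099a :=
  pieceG good7 c7_211 x7_211 (by
    simp only [List.forall_mem_cons, List.not_mem_nil, false_imp_iff, implies_true, and_true]
    exact n7_210)

theorem n7_212 : NoCfg 7 0x8d805f8097c080008b005f8080005f8088808b0007b0 0xb6008000af80a580ac408000a580800091009840099a :=
  pieceG good7 c7_212 x7_212 (by
    simp only [List.forall_mem_cons, List.not_mem_nil, false_imp_iff, implies_true, and_true]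
    exact ⟨n7_211, n7_209⟩)

theorem n7_213 : NoCfg 7 0x8d805f8097c0800080005f8080005f8080008b0006b0 0xb6008000af80a580ac408000a58080008880a580099a :=
  pieceG0 good7 c7_213 x7_213

theorem n7_214 : NoCfg 7 0x8d805f8097c0800080005f8080005f808000800006b0 0xb6008000af80a580ac408000a58080009100a580099a :=
  pieceG good7 c7_214 x7_214 (by
    simp only [List.forall_mem_cons, List.not_mem_nil, false_imp_iff, implies_true, and_true]
    exact ⟨n7_213, n7_212, n7_208⟩)

theorem n7_215 : NoCfg 7 0x8d805f808000800080005f8080005f809100800006b0 0xb6008000af80a580ac408000a5808000a200a580099a :=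
  pieceG0 good7 c7_215 x7_215

theorem n7_216 : NoCfg 7 0x800038008000800080005f8080005f80800080000487 0xc8008000c800c800c8008000c8008000c800c800099a :=
  pieceG good7 c7_216 x7_216 (by
    simp only [List.forall_mem_cons, List.not_mem_nil, false_imp_iff, implies_true, and_true]
    exact ⟨n7_214, n7_215⟩)

theorem n7_217 : NoCfg 7 0xa1c080008c0067808b005f8080005f80888096c00770 0xac009a80af808000ac408000a5806fc091009e80099a :=
  pieceG0 good7 c7_217 x7_217

theorem n7_218 : NoCfg 7 0xa1c080008c005f808b005f8080005f8088808ec00770 0xac00a400af808000ac408000a5806fc091009e80099a :=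
  pieceG good7 c7_218 x7_218 (by
    simp only [List.forall_mem_cons, List.not_mem_nil, false_imp_iff, implies_true, and_true]
    exact n7_217)

theorem n7_219 : NoCfg 7 0x8d8080008c005f808b005f8080005f80888089800770 0xa1c0a400af808000ac408000a58080009100a580099a :=
  pieceG0 good7 c7_219 x7_219

theorem n7_220 : NoCfg 7 0x8d8080008c005f8080005f8080005f808000898006b0 0xb600a400af808000ac408000a58080008880a580099a :=
  pieceG0 good7 c7_220 x7_220

theorem n7_221 : NoCfg 7 0x8d8080008c005f8080005f8080005f809100800006b0 0xb600a400af808000ac408000a5808000a200a580099a :=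
  pieceG0 good7 c7_221 x7_221

theorem n7_222 : NoCfg 7 0x8000800080005f8080005f8080005f808000800006b0 0xb600a400c8008000ac408000a5808000a200a580099a :=
  pieceG good7 c7_222 x7_222 (by
    simp only [List.forall_mem_cons, List.not_mem_nil, false_imp_iff, implies_true, and_true]
    exact ⟨n7_220, n7_219, n7_218, n7_221⟩)

theorem n7_223 : NoCfg 7 0x80003800800038008000380080003800800080000487 0xc8008000c8008000c8008000c8008000c800c800099a :=
  pieceG0 good7 c7_223 x7_223

theorem n7_224 : NoCfg 7 0x80003800800038008000380080003800800080000487 0xc800c800c800c800c8008000c8008000c800c800099a :=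
  pieceG good7 c7_224 x7_224 (by
    simp only [List.forall_mem_cons, List.not_mem_nil, false_imp_iff, implies_true, and_true]
    exact ⟨n7_223, n7_222, n7_216, n7_206⟩)

theorem n7_225 : NoCfg 7 0x80003800800038008000380080003800800080000487 0xc800c800c800c800c800c800c8008000c800c800099a :=
  pieceG good7 c7_225 x7_225 (by
    simp only [List.forall_mem_cons, List.not_mem_nil, false_imp_iff, implies_true, and_true]
    exact ⟨n7_224, n7_192, n7_182, n7_193⟩)

theorem n7_226 : NoCfg 7 0x800080008000800080008000800080008840618006b0 0xb600af80ac40af80ab40af80a580af80908070c0099a :=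
  pieceG0 good7 c7_226 x7_226

theorem n7_227 : NoCfg 7 0x800080008000800080008000800080008000618006b0 0xb600af80c800af80ab40af80a580af8090808000099a :=
  pieceG good7 c7_227 x7_227 (by
    simp only [List.forall_mem_cons, List.not_mem_nil, false_imp_iff, implies_true, and_true]
    exact n7_226)

theorem n7_228 : NoCfg 7 0x800080008000800080008000800080008000618006b0 0xc800c800c800c800ab40c800a580af80a0c08000099a :=
  pieceG good7 c7_228 x7_228 (by
    simp only [List.forall_mem_cons, List.not_mem_nil, false_imp_iff, implies_true, and_true]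
    exact n7_227)

theorem n7_229 : NoCfg 7 0x80005e4080008000908080009040800091c05f4006b0 0xb6008000af80ac40aac0ac40a580ac40a3408000099a :=
  pieceG0 good7 c7_229 x7_229

theorem n7_230 : NoCfg 7 0xa3006f008c0080008ac08000898080008900674007b0 0xaa408000af80ac40aac09640a580ac4091c06f80099a :=
  pieceG0 good7 c7_230 x7_230

theorem n7_231 : NoCfg 7 0x90006f008c0080008ac08000800080008900674007b0 0xa3008000af80ac40aac09640a580ac4091c06f80099a :=
  pieceG0 good7 c7_231 x7_231

theorem n7_232 : NoCfg 7 0x90006f008c008000800080008000800089005f4007b0 0xac807780af80a140aac0a140a580a14091c06740099a :=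
  pieceG0 good7 c7_232 x7_232

theorem n7_233 : NoCfg 7 0x90006f008c00800080008000800080008900674007b0 0xb6008000af80ac40aac0ac40a580ac4091c06f80099a :=
  pieceG good7 c7_233 x7_233 (by
    simp only [List.forall_mem_cons, List.not_mem_nil, false_imp_iff, implies_true, and_true]
    exact ⟨n7_231, n7_230⟩)

theorem n7_234 : NoCfg 7 0x90006f0080008000800080008000800089006f8006b0 0xb6008000af80ac40aac0ac40a580ac4091c08000099a :=
  pieceG0 good7 c7_234 x7_234

theorem n7_235 : NoCfg 7 0x970067008e0080008ac080008980800089005f4007d0 0xabc06f00af80a040aac09f40a5809f4091c06b80099a :=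
  pieceG0 good7 c7_235 x7_235

theorem n7_236 : NoCfg 7 0x900063808e008000800080008000800089005f4006b0 0xb6006f00af80ac40aac0ac40a580ac4091c08000099a :=
  pieceG good7 c7_236 x7_236 (by
    simp only [List.forall_mem_cons, List.not_mem_nil, false_imp_iff, implies_true, and_true]
    exact n7_235)

theorem n7_237 : NoCfg 7 0x80005e4080008000800080008000800089005f4006b0 0xb6008000af80ac40aac0ac40a580ac4091c08000099a :=
  pieceG good7 c7_237 x7_237 (by
    simp only [List.forall_mem_cons, List.not_mem_nil, false_imp_iff, implies_true, and_true]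
    exact ⟨n7_236, n7_232, n7_233, n7_234⟩)

theorem n7_238 : NoCfg 7 0x80005e4080008000800080008000800080005f4006b0 0xc8008000c800c800aac0c800a580c800a3408000099a :=
  pieceG good7 c7_238 x7_238 (by
    simp only [List.forall_mem_cons, List.not_mem_nil, false_imp_iff, implies_true, and_true]
    exact ⟨n7_237, n7_229⟩)

theorem n7_239 : NoCfg 7 0x8000800092405e40900080009040800091c05f4006b0 0xb600aac0af808000a940aac0a580ac40a3408000099a :=
  pieceG0 good7 c7_239 x7_239

theorem n7_240 : NoCfg 7 0x9dc080009ec06f0099c0800080008000890067400770 0xaa00aac0ab008000a940aac0a580ac4091c06f80099a :=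
  pieceG0 good7 c7_240 x7_240

theorem n7_241 : NoCfg 7 0xaa0080009ec06f008a40800080008000890067400770 0xb600aac0ab008000a940aac0a580ac4091c06f80099a :=
  pieceG0 good7 c7_241 x7_241

theorem n7_242 : NoCfg 7 0x9000800093406f009280800088408000890067400770 0xb6009ac09ec08000a0009b8092c0ac4091c06f80099a :=
  pieceG0 good7 c7_242 x7_242

theorem n7_243 : NoCfg 7 0x900080008e006f008a4080008000800089005f400770 0xb600a000a7408000a940aac092c0a14091c06740099a :=
  pieceG0 good7 c7_243 x7_243

theorem n7_244 : NoCfg 7 0x900080008e006f008000800080008000890067400770 0xb600aac0af808000a940aac0a580ac4091c06f80099a :=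
  pieceG good7 c7_244 x7_244 (by
    simp only [List.forall_mem_cons, List.not_mem_nil, false_imp_iff, implies_true, and_true]
    exact ⟨n7_242, n7_240, n7_241⟩)

theorem n7_245 : NoCfg 7 0x99808000994068808a4080008980800089006a000810 0xae409b80a8006f00a9409f009e809d4091c06f80099a :=
  pieceG0 good7 c7_245 x7_245

theorem n7_246 : NoCfg 7 0x900080008e0062c08a4080008000800089005f400770 0xb600aac0af806f00a940aac0a580ac4091c06f80099a :=
  pieceG good7 c7_246 x7_246 (by
    simp only [List.forall_mem_cons, List.not_mem_nil, false_imp_iff, implies_true, and_true]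
    exact n7_245)

theorem n7_247 : NoCfg 7 0x900080008e006f00800080008000800089005f400770 0xb600aac0af808000a940aac0a580ac4091c08000099a :=
  pieceG good7 c7_247 x7_247 (by
    simp only [List.forall_mem_cons, List.not_mem_nil, false_imp_iff, implies_true, and_true]
    exact ⟨n7_243, n7_244⟩)

theorem n7_248 : NoCfg 7 0x80008000800068c0800080008000800080005f4006b0 0xb600aac0af808000a940aac0a580ac4089006d80099a :=
  pieceG0 good7 c7_248 x7_248

theorem n7_249 : NoCfg 7 0x8000800080005e40800080008000800080005f4006b0 0xc800c800c8008000c800c800a580c800a3408000099a :=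
  pieceG good7 c7_249 x7_249 (by
    simp only [List.forall_mem_cons, List.not_mem_nil, false_imp_iff, implies_true, and_true]
    exact ⟨n7_248, n7_246, n7_247, n7_239⟩)

theorem n7_250 : NoCfg 7 0x9840694092c068c09480800089c08b008a0062400840 0xb6008000af808000a9008d4092c09f0094006b00099a :=
  pieceG0 good7 c7_250 x7_250

theorem n7_251 : NoCfg 7 0x9840694092c068c09480800089c08b008a006b000840 0xb6008000af808000a9009a8092c09f0094007700099a :=
  pieceG0 good7 c7_251 x7_251

theorem n7_252 : NoCfg 7 0x8d805fc092c05e409480800080008b008a005f400770 0xb6008000af808000a900a58092c09f0094007700099a :=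
  pieceG good7 c7_252 x7_252 (by
    simp only [List.forall_mem_cons, List.not_mem_nil, false_imp_iff, implies_true, and_true]
    exact ⟨n7_250, n7_251⟩)

theorem n7_253 : NoCfg 7 0x8d805fc080005e40800080008000800080005f4006b0 0xb6008000af808000a900a58092c0a580a3408000099a :=
  pieceG good7 c7_253 x7_253 (by
    simp only [List.forall_mem_cons, List.not_mem_nil, false_imp_iff, implies_true, and_true]
    exact n7_252)

theorem n7_254 : NoCfg 7 0x80005fc080005e40800080008000800080005f400487 0xc8008000c8008000c800a580a580a580a3408000099a :=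
  pieceG good7 c7_254 x7_254 (by
    simp only [List.forall_mem_cons, List.not_mem_nil, false_imp_iff, implies_true, and_true]
    exact n7_253)

theorem n7_255 : NoCfg 7 0x80003800800080008000800080008000800038000487 0xc800c800c800c800c800c800c800c800c8008000099a :=
  pieceG good7 c7_255 x7_255 (by
    simp only [List.forall_mem_cons, List.not_mem_nil, false_imp_iff, implies_true, and_true]
    exact ⟨n7_238, n7_228⟩)

theorem n7_256 : NoCfg 7 0x94c080009480800095806840898096408bc05f400810 0xb6009d40af808ec0a580800092c09e8091c074c0099a :=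
  pieceG0 good7 c7_256 x7_256

theorem n7_257 : NoCfg 7 0x94c08000948080009580684089808b408bc05f400810 0xb6009d40af809d40a580800092c0964091c074c0099a :=
  pieceG0 good7 c7_257 x7_257

theorem n7_258 : NoCfg 7 0x94c08000948080009580684080008b4080005f400770 0xb6009d40af809d40aac0800092c0a14091c074c0099a :=
  pieceG good7 c7_258 x7_258 (by
    simp only [List.forall_mem_cons, List.not_mem_nil, false_imp_iff, implies_true, and_true]
    exact ⟨n7_257, n7_256⟩)

theorem n7_259 : NoCfg 7 0x800080008000800095805e408000800080005f4006b0 0xb600aac0af80aac0aac08000a580ac4091c08000099a :=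
  pieceG good7 c7_259 x7_259 (by
    simp only [List.forall_mem_cons, List.not_mem_nil, false_imp_iff, implies_true, and_true]
    exact n7_258)

theorem n7_260 : NoCfg 7 0x800080008000800080005e408000800091c05f4006b0 0xb600aac0af80aac0aac08000a580ac40a3408000099a :=
  pieceG0 good7 c7_260 x7_260

theorem n7_261 : NoCfg 7 0x800080008000800080005e408000800080005f400487 0xc800c800c800c800c8008000c800c800a3408000099a :=
  pieceG good7 c7_261 x7_261 (by
    simp only [List.forall_mem_cons, List.not_mem_nil, false_imp_iff, implies_true, and_true]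
    exact ⟨n7_259, n7_260⟩)

theorem n7_262 : NoCfg 7 0x97c06a8095808d4093406a408dc08f00890068400810 0xb6008000a8809a40a600800092c09d4091c07180099a :=
  pieceG0 good7 c7_262 x7_262

theorem n7_263 : NoCfg 7 0x97c06a809580800093406a408dc08f00890068400810 0xb6008000a8809a40a600800092c09d4091c07180099a :=
  pieceG good7 c7_263 x7_263 (by
    simp only [List.forall_mem_cons, List.not_mem_nil, false_imp_iff, implies_true, and_true]
    exact n7_262)

theorem n7_264 : NoCfg 7 0x97c06a809580800093406a4088808f00890062400810 0xb6008000a8808d40a600800092c09d4091c06840099a :=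
  pieceG0 good7 c7_264 x7_264

theorem n7_265 : NoCfg 7 0x97c06a809580800093406a4088808f0089005f400810 0xb6008000a8809a40a600800092c09d4091c06840099a :=
  pieceG good7 c7_265 x7_265 (by
    simp only [List.forall_mem_cons, List.not_mem_nil, false_imp_iff, implies_true, and_true]
    exact n7_264)

theorem n7_266 : NoCfg 7 0x8d805fc08c0080008b005e408000800089005f400770 0xb6008000af80a400ac40800092c0a58091c08000099a :=
  pieceG good7 c7_266 x7_266 (by
    simp only [List.forall_mem_cons, List.not_mem_nil, false_imp_iff, implies_true, and_true]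
    exact ⟨n7_265, n7_263⟩)

theorem n7_267 : NoCfg 7 0x8d805fc08000800080005e408000800080005f4006b0 0xb6008000af80a400ac408000a580a58091c08000099a :=
  pieceG good7 c7_267 x7_267 (by
    simp only [List.forall_mem_cons, List.not_mem_nil, false_imp_iff, implies_true, and_true]
    exact n7_266)

theorem n7_268 : NoCfg 7 0x80005fc08000800080005e408000800080005f400487 0xc8008000c800a400c8008000c800c800a3408000099a :=
  pieceG good7 c7_268 x7_268 (by
    simp only [List.forall_mem_cons, List.not_mem_nil, false_imp_iff, implies_true, and_true]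
    exact n7_267)

theorem n7_269 : NoCfg 7 0x98408d00958069c09340698089408f8089c05f400850 0xa7409a00a7c08000a600800092c09c8093806f40099a :=
  pieceG0 good7 c7_269 x7_269

theorem n7_270 : NoCfg 7 0x8d8080008c005fc08b005f4080008b0089c05f4006f0 0xb600a400af808000ac40800092c0a58093808000099a :=
  pieceG good7 c7_270 x7_270 (by
    simp only [List.forall_mem_cons, List.not_mem_nil, false_imp_iff, implies_true, and_true]
    exact n7_269)

theorem n7_271 : NoCfg 7 0x8000800080005fc080005f408000800080005f4006f0 0xc800a400c8008000ac408000a580a580a2408000099a :=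
  pieceG good7 c7_271 x7_271 (by
    simp only [List.forall_mem_cons, List.not_mem_nil, false_imp_iff, implies_true, and_true]
    exact n7_270)

theorem n7_272 : NoCfg 7 0x80003800800038008000380080008000800038000487 0xc8008000c8008000c8008000c800c800c8008000099a :=
  pieceG0 good7 c7_272 x7_272

theorem n7_273 : NoCfg 7 0x80003800800038008000380080008000800038000487 0xc800c800c800c800c8008000c800c800c8008000099a :=
  pieceG good7 c7_273 x7_273 (by
    simp only [List.forall_mem_cons, List.not_mem_nil, false_imp_iff, implies_true, and_true]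
    exact ⟨n7_272, n7_271, n7_268, n7_261⟩)

theorem n7_274 : NoCfg 7 0x80008000800080008000800092c05e4080005f4006b0 0xb600aac0af80aac0aac0ac40a5808000a3408000099a :=
  pieceG0 good7 c7_274 x7_274

theorem n7_275 : NoCfg 7 0x80005fc0800080008000800080005e4080005f400487 0xc8008000c800a400c800a400a5808000a3408000099a :=
  pieceG0 good7 c7_275 x7_275

theorem n7_276 : NoCfg 7 0x80008000800080008000800080003800800038000487 0xc800c800c800c800c800c800c8008000c8008000099a :=
  pieceG good7 c7_276 x7_276 (by
    simp only [List.forall_mem_cons, List.not_mem_nil, false_imp_iff, implies_true, and_true]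
    exact n7_274)

theorem n7_277 : NoCfg 7 0x8000800080005f408000800080005f4080005dc00487 0xc800c800c8008000c800c800c8008000a2408000099a :=
  pieceG0 good7 c7_277 x7_277

theorem n7_278 : NoCfg 7 0x80003800800038008000800080003800800038000487 0xc800c800c8008000c800c800c8008000c8008000099a :=
  pieceG good7 c7_278 x7_278 (by
    simp only [List.forall_mem_cons, List.not_mem_nil, false_imp_iff, implies_true, and_true]
    exact n7_277)

theorem n7_279 : NoCfg 7 0x80008000800080008000380080003800800038000487 0xc800c800c800c800c8008000c8008000c8008000099a :=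
  pieceG0 good7 c7_279 x7_279

theorem n7_280 : NoCfg 7 0x80003800800038008000380080003800800038000487 0xc800c800c800c800c800c800c8008000c8008000099a :=
  pieceG good7 c7_280 x7_280 (by
    simp only [List.forall_mem_cons, List.not_mem_nil, false_imp_iff, implies_true, and_true]
    exact ⟨n7_279, n7_278, n7_275, n7_276⟩)

theorem n7_281 : NoCfg 7 0x80003800800038008000380080003800800038000487 0xc800c800c800c800c800c800c800c800c8008000099a :=
  pieceG good7 c7_281 x7_281 (by
    simp only [List.forall_mem_cons, List.not_mem_nil, false_imp_iff, implies_true, and_true]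
    exact ⟨n7_280, n7_273, n7_254, n7_249, n7_255⟩)

theorem n7_282 : NoCfg 7 0x38003800800038008000380080008000800080000487 0x8000c800c800c800c800c800c800c800c800c800099a :=
  pieceG0 good7 c7_282 x7_282

theorem n7_283 : NoCfg 7 0x38003800800038008000380080003800800038000487 0x8000c800c800c800c800c800c8008000c8008000099a :=
  pieceG0 good7 c7_283 x7_283

theorem n7_284 : NoCfg 7 0x38003800800038008000380080003800800038000487 0x8000c800c800c800c800c800c800c800c8008000099a :=
  pieceG good7 c7_284 x7_284 (by
    simp only [List.forall_mem_cons, List.not_mem_nil, false_imp_iff, implies_true, and_true]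
    exact n7_283)

theorem n7_285 : NoCfg 7 0x80003800800038008000380080003800800038000487 0xc800c800c800c800c800c800c800c800c800c800099a :=
  pieceG good7 c7_285 x7_285 (by
    simp only [List.forall_mem_cons, List.not_mem_nil, false_imp_iff, implies_true, and_true]
    exact ⟨n7_281, n7_225, n7_93, n7_90, n7_94, n7_95⟩)

theorem n7_286 : NoCfg 7 0x80003800380038008000380080008000800080000487 0xc800c8008000c800c800c800c800c800c800c800099a :=
  pieceG0 good7 c7_286 x7_286

theorem n7_287 : NoCfg 7 0x80003800380038008000380080003800800038000487 0xc800c8008000c800c800c800c8008000c8008000099a :=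
  pieceG0 good7 c7_287 x7_287

theorem n7_288 : NoCfg 7 0x80003800380038008000380080003800800038000487 0xc800c8008000c800c800c800c800c800c8008000099a :=
  pieceG good7 c7_288 x7_288 (by
    simp only [List.forall_mem_cons, List.not_mem_nil, false_imp_iff, implies_true, and_true]
    exact n7_287)

theorem n7_289 : NoCfg 7 0x38003800380038008000380080008000800080000487 0x8000c8008000c800c800c800c800c800c800c800099a :=
  pieceG0 good7 c7_289 x7_289

theorem n7_290 : NoCfg 7 0x38003800380038008000380080003800800038000487 0x8000c8008000c800c800c800c800c800c8008000099a :=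
  pieceG0 good7 c7_290 x7_290

theorem n7_291 : NoCfg 7 0x38003800380038008000380080003800800038000487 0xc800c8008000c800c800c800c800c800c800c800099a :=
  pieceG good7 c7_291 x7_291 (by
    simp only [List.forall_mem_cons, List.not_mem_nil, false_imp_iff, implies_true, and_true]
    exact ⟨n7_290, n7_289, n7_288, n7_286⟩)

theorem n7_292 : NoCfg 7 0x80003800800080003800800080008000800080000487 0xc800c800c800c8008000c800a400c800c800c800099a :=
  pieceG0 good7 c7_292 x7_292

theorem n7_293 : NoCfg 7 0x80003800800038003800380080008000800080000487 0xc800c800c800c8008000c800a400c800c800c800099a :=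
  pieceG good7 c7_293 x7_293 (by
    simp only [List.forall_mem_cons, List.not_mem_nil, false_imp_iff, implies_true, and_true]
    exact n7_292)

theorem n7_294 : NoCfg 7 0x80003800800038003800380080003800800038000487 0xc800c800c800c8008000c800a4008000c800c800099a :=
  pieceG0 good7 c7_294 x7_294

theorem n7_295 : NoCfg 7 0x38003800800038003800380080008000800038000487 0x8000c800c800c8008000c800a400c800c800c800099a :=
  pieceG0 good7 c7_295 x7_295

theorem n7_296 : NoCfg 7 0x80003800380038003800380080008000800080000487 0xc800c8008000c8008000c800a400c800c800c800099a :=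
  pieceG0 good7 c7_296 x7_296

theorem n7_297 : NoCfg 7 0x80003800380038003800380080003800800038000487 0xc800c8008000c8008000c800a4008000c800c800099a :=
  pieceG0 good7 c7_297 x7_297

theorem n7_298 : NoCfg 7 0x38003800380038003800800080003800800038000487 0x8000c8008000c8008000c800a400c800c800c800099a :=
  pieceG0 good7 c7_298 x7_298

theorem n7_299 : NoCfg 7 0x38003800800038003800380080003800800038000487 0xc800c800c800c8008000c800a400c800c800c800099a :=
  pieceG good7 c7_299 x7_299 (by
    simp only [List.forall_mem_cons, List.not_mem_nil, false_imp_iff, implies_true, and_true]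
    exact ⟨n7_295, n7_294, n7_293⟩)

theorem n7_300 : NoCfg 7 0x38003800380038003800380080003800800038000487 0xc800c800c800c8008000c800c800c800c800c800099a :=
  pieceG good7 c7_300 x7_300 (by
    simp only [List.forall_mem_cons, List.not_mem_nil, false_imp_iff, implies_true, and_true]
    exact ⟨n7_298, n7_297, n7_296, n7_299⟩)

theorem n7_301 : NoCfg 7 0x8000620080006200800062007d8093808000a6400487 0xabc0c800a5c0c8009fc0c8008000a6809200ba80099a :=
  pieceG0 good7 c7_301 x7_301

theorem n7_302 : NoCfg 7 0x8000620080006200800062007d809380800092000487 0xabc0c8009300c8009000c8008000a6c09200a640099a :=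
  pieceG0 good7 c7_302 x7_302

theorem n7_303 : NoCfg 7 0x8000620080006200900062007d809380800092000487 0xabc0c800a5c0c8009fc0c8008000a6c09200a640099a :=
  pieceG0 good7 c7_303 x7_303

theorem n7_304 : NoCfg 7 0x8000620080006200800062007d80a6c0800092000487 0xabc0c800a5c0c8009fc0c8008000b9c09200a640099a :=
  pieceG0 good7 c7_304 x7_304

theorem n7_305 : NoCfg 7 0x8000380080003800800038007d808000800080000487 0xabc0c800a5c0c8009fc0c8008000c8009200c800099a :=
  pieceG good7 c7_305 x7_305 (by
    simp only [List.forall_mem_cons, List.not_mem_nil, false_imp_iff, implies_true, and_true]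
    exact ⟨n7_302, n7_303, n7_304, n7_301⟩)

theorem n7_306 : NoCfg 7 0x8000380080003800800038007e005bc0800080000487 0xc800c8009ec0c8009ac0c80080006bc09200c800099a :=
  pieceG0 good7 c7_306 x7_306

theorem n7_307 : NoCfg 7 0x8000380080003800800038007e00800080005d800487 0xa680c8009f40c8009bc0c8008000a80092008000099a :=
  pieceG0 good7 c7_307 x7_307

theorem n7_308 : NoCfg 7 0x3800380080003800800038005c003800800038000487 0x8000c800c800c800c800c8008000c8009200c800099a :=
  pieceG0 good7 c7_308 x7_308

theorem n7_309 : NoCfg 7 0x8000380038003800800038005c003800800080000487 0xc800c8008000c800c800c8008000c8009200c800099a :=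
  pieceG0 good7 c7_309 x7_309

theorem n7_310 : NoCfg 7 0x3800380038003800800038005c003800800038000487 0xc800c8008000c800c800c8008000c8009200c800099a :=
  pieceG good7 c7_310 x7_310 (by
    simp only [List.forall_mem_cons, List.not_mem_nil, false_imp_iff, implies_true, and_true]
    exact n7_309)

theorem n7_311 : NoCfg 7 0x80006200800062007b0062007d809380800095400487 0xa8c0c8009180c8008000c8008000b8809200b900099a :=
  pieceG0 good7 c7_311 x7_311

theorem n7_312 : NoCfg 7 0x8000380080003800380038005c003800800080000487 0xc800c800c800c8008000c8008000c8009200c800099a :=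
  pieceG good7 c7_312 x7_312 (by
    simp only [List.forall_mem_cons, List.not_mem_nil, false_imp_iff, implies_true, and_true]
    exact n7_311)

theorem n7_313 : NoCfg 7 0x8000380038003800380038005c008000800038000487 0xc800c8008000c8008000c8008000c8009200c800099a :=
  pieceG0 good7 c7_313 x7_313

theorem n7_314 : NoCfg 7 0x3800380038003800380038005c003800800038000487 0x8000c8008000c8008000c8008000c8009200c800099a :=
  pieceG0 good7 c7_314 x7_314

theorem n7_315 : NoCfg 7 0x3800380080003800380038005c003800800038000487 0xc800c800c800c8008000c8008000c8009200c800099a :=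
  pieceG good7 c7_315 x7_315 (by
    simp only [List.forall_mem_cons, List.not_mem_nil, false_imp_iff, implies_true, and_true]
    exact n7_312)

theorem n7_316 : NoCfg 7 0x3800380038003800800038005c003800800038000487 0xc800c800c800c800c800c8008000c8009200c800099a :=
  pieceG good7 c7_316 x7_316 (by
    simp only [List.forall_mem_cons, List.not_mem_nil, false_imp_iff, implies_true, and_true]
    exact ⟨n7_310, n7_308, n7_307, n7_306, n7_305⟩)

theorem n7_317 : NoCfg 7 0x8000800080008000800080008000920070c0a40006b0 0x97c0c8009480c80091c0c8009080b8008000b880099a :=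
  pieceG0 good7 c7_317 x7_317

theorem n7_318 : NoCfg 7 0x8000800080008000800080008000800070c0a40006b0 0xaf80c8009480c80091c0c8009080c8008000b880099a :=
  pieceG good7 c7_318 x7_318 (by
    simp only [List.forall_mem_cons, List.not_mem_nil, false_imp_iff, implies_true, and_true]
    exact n7_317)

theorem n7_319 : NoCfg 7 0x800080008000800091c080008000800070c0a40006b0 0xaf80c800a900c800a340c8009080c8008000b880099a :=
  pieceG0 good7 c7_319 x7_319

theorem n7_320 : NoCfg 7 0x800080008000800080008000800080006180a40006b0 0xaf80c800a900c8009780c8009380b48070c0afc0099a :=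
  pieceG0 good7 c7_320 x7_320

theorem n7_321 : NoCfg 7 0x8000800080008000800080008000800070c0a40006b0 0xaf80c800a900c800a340c800a0c0c8008000b880099a :=
  pieceG good7 c7_321 x7_321 (by
    simp only [List.forall_mem_cons, List.not_mem_nil, false_imp_iff, implies_true, and_true]
    exact ⟨n7_318, n7_319⟩)

theorem n7_322 : NoCfg 7 0x9c4080009cc080008f8080009080800070c0920006b0 0xa600af80a900af809980af8098c0af808000a400099a :=
  pieceG0 good7 c7_322 x7_322

theorem n7_323 : NoCfg 7 0x9c4080009cc080008f8080009080800070c0920006b0 0xaf80af80a900af80a340af8098c0af808000a400099a :=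
  pieceG good7 c7_323 x7_323 (by
    simp only [List.forall_mem_cons, List.not_mem_nil, false_imp_iff, implies_true, and_true]
    exact n7_322)

theorem n7_324 : NoCfg 7 0xa7c08000904080008f808000908080007840974006b0 0xaf8090c09cc0af809d80af8098c0af808000a400099a :=
  pieceG0 good7 c7_324 x7_324

theorem n7_325 : NoCfg 7 0x9fc08000904080008f808000908080007840974006b0 0xa7c0af809cc0af809d80af8098c0af808000a400099a :=
  pieceG0 good7 c7_325 x7_325

theorem n7_326 : NoCfg 7 0x90008000904080008f808000908080007840974006b0 0x9fc0af809cc0af809d80af8098c0af808000a0c0099a :=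
  pieceG0 good7 c7_326 x7_326

theorem n7_327 : NoCfg 7 0xa7c08000904080008f8080009080800070c09b0006b0 0xaf80af809cc0af809d80af8098c0af807840a400099a :=
  pieceG0 good7 c7_327 x7_327

theorem n7_328 : NoCfg 7 0x9fc08000904080008f8080009080800070c09b0006b0 0xaf80af809cc0af809d80af8098c0af807840a400099a :=
  pieceG good7 c7_328 x7_328 (by
    simp only [List.forall_mem_cons, List.not_mem_nil, false_imp_iff, implies_true, and_true]
    exact n7_327)

theorem n7_329 : NoCfg 7 0x9fc08000904080008f8080009080800070c0920006b0 0xa7c097c09cc0af809d80af8098c0af8078409b00099a :=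
  pieceG0 good7 c7_329 x7_329

theorem n7_330 : NoCfg 7 0xa7c08000904080008f8080009080800070c0920006b0 0xaf80af809cc0af809d80af8098c0af8078409b00099a :=
  pieceG0 good7 c7_330 x7_330

theorem n7_331 : NoCfg 7 0x98008000904080008f8080009080800070c0920006b0 0x9fc0af809cc0af809d80af8098c0af8078409b00099a :=
  pieceG0 good7 c7_331 x7_331

theorem n7_332 : NoCfg 7 0x90008000904080008f8080009080800070c0920006b0 0xaf80af809cc0af809d80af8098c0af8078409b00099a :=
  pieceG good7 c7_332 x7_332 (by
    simp only [List.forall_mem_cons, List.not_mem_nil, false_imp_iff, implies_true, and_true]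
    exact ⟨n7_331, n7_329, n7_330⟩)

theorem n7_333 : NoCfg 7 0x90008000904080008f8080009080800070c0920006b0 0xaf80af809cc0af809d80af8098c0af808000a400099a :=
  pieceG good7 c7_333 x7_333 (by
    simp only [List.forall_mem_cons, List.not_mem_nil, false_imp_iff, implies_true, and_true]
    exact ⟨n7_332, n7_328, n7_326, n7_325, n7_324⟩)

theorem n7_334 : NoCfg 7 0xa04080009040800091c0800088408dc07840974006b0 0xa80098c09cc0b1409d40b2c09080b2c08000a400099a :=
  pieceG0 good7 c7_334 x7_334

theorem n7_335 : NoCfg 7 0xa04080009040800091c0800088408cc070c0920006b0 0xa80098c09cc0b1409d40b2c09080b2c078409b00099a :=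
  pieceG0 good7 c7_335 x7_335

theorem n7_336 : NoCfg 7 0xa04080009040800091c0800088408cc070c09b0006b0 0xa800b1409cc0b1409d40b2c09080b2c07840a400099a :=
  pieceG0 good7 c7_336 x7_336

theorem n7_337 : NoCfg 7 0xa04080009040800091c080008840800070c0920006b0 0xa800b1409cc0b140a340b2c09080b2c08000a400099a :=
  pieceG good7 c7_337 x7_337 (by
    simp only [List.forall_mem_cons, List.not_mem_nil, false_imp_iff, implies_true, and_true]
    exact ⟨n7_335, n7_336, n7_334⟩)

theorem n7_338 : NoCfg 7 0x97c080009880800091c0800088408cc070c0920006b0 0xa040b140a080b1409a80b2c09080b2c078409b00099a :=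
  pieceG0 good7 c7_338 x7_338

theorem n7_339 : NoCfg 7 0x97c080009880800091c0800088408cc07840920006b0 0xa040b140a080b1409a80b2c09080b2c08000a400099a :=
  pieceG0 good7 c7_339 x7_339

theorem n7_340 : NoCfg 7 0x98c080009040800091c0800088408cc070c0920006b0 0xa040b1409880b1409a80b2c09080b2c078409b00099a :=
  pieceG0 good7 c7_340 x7_340

theorem n7_341 : NoCfg 7 0x98c080009040800091c0800088408cc07840920006b0 0xa040b1409880b1409a80b2c09080b2c08000a400099a :=
  pieceG0 good7 c7_341 x7_341

theorem n7_342 : NoCfg 7 0x910080009040800091c0800088408cc070c0920006b0 0x98c0b1409880b1409a80b2c09080b2c08000a400099a :=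
  pieceG0 good7 c7_342 x7_342

theorem n7_343 : NoCfg 7 0x910080009880800091c080008840800070c0920006b0 0xa040b140a080b1409a80b2c09080b2c08000a400099a :=
  pieceG good7 c7_343 x7_343 (by
    simp only [List.forall_mem_cons, List.not_mem_nil, false_imp_iff, implies_true, and_true]
    exact ⟨n7_338, n7_339⟩)

theorem n7_344 : NoCfg 7 0x91008000904080009a8080008840800070c0920006b0 0xa040b140a080b140a340b2c09080b2c08000a400099a :=
  pieceG0 good7 c7_344 x7_344

theorem n7_345 : NoCfg 7 0xa04080009040800091c080008840800070c0920006b0 0xaf80b140a900b140a340b2c09080b2c08000a400099a :=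
  pieceG good7 c7_345 x7_345 (by
    simp only [List.forall_mem_cons, List.not_mem_nil, false_imp_iff, implies_true, and_true]
    exact n7_337)

theorem n7_346 : NoCfg 7 0xa04080009040800091c0800080009b8070c0920006b0 0xabc0b1409cc0b1409e00b2c08840a34078409b00099a :=
  pieceG0 good7 c7_346 x7_346

theorem n7_347 : NoCfg 7 0xa04080009040800091c080008000938070c0920006b0 0xabc0b1409cc0b1409e00b2c08840b2c078409b00099a :=
  pieceG good7 c7_347 x7_347 (by
    simp only [List.forall_mem_cons, List.not_mem_nil, false_imp_iff, implies_true, and_true]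
    exact n7_346)

theorem n7_348 : NoCfg 7 0xa04080009040800091c080008000938070c09b0006b0 0xabc0b1409cc0b1409e00b2c08840b2c08000a400099a :=
  pieceG0 good7 c7_348 x7_348

theorem n7_349 : NoCfg 7 0x984080009900800091c0800080009b8070c0920006b0 0xa040b140a180b1409f00b2c08840a3408000a400099a :=
  pieceG0 good7 c7_349 x7_349

theorem n7_350 : NoCfg 7 0x984080009900800091c080008000a34070c0920006b0 0xa040b140a180b1409f00b2c08840b2c08000a400099a :=
  pieceG0 good7 c7_350 x7_350

theorem n7_351 : NoCfg 7 0x98c080009040800091c0800080009b8070c0920006b0 0xa040b1409900b1409940b2c08840a34078409b00099a :=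
  pieceG0 good7 c7_351 x7_351

theorem n7_352 : NoCfg 7 0x98c080009040800091c080008000a34070c0920006b0 0xa040b1409900b1409940b2c08840b2c078409b00099a :=
  pieceG0 good7 c7_352 x7_352

theorem n7_353 : NoCfg 7 0x98c080009040800091c080008000938070c09b0006b0 0xa040b1409900b1409940b2c08840b2c08000a400099a :=
  pieceG0 good7 c7_353 x7_353

theorem n7_354 : NoCfg 7 0x910080009040800091c080008000938070c0920006b0 0x98c0b1409900b1409940b2c08840a34078409b00099a :=
  pieceG0 good7 c7_354 x7_354

theorem n7_355 : NoCfg 7 0x910080009040800091c080008000938070c0920006b0 0x98c0b1409900b1409940b2c08840b2c07840a400099a :=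
  pieceG good7 c7_355 x7_355 (by
    simp only [List.forall_mem_cons, List.not_mem_nil, false_imp_iff, implies_true, and_true]
    exact n7_354)

theorem n7_356 : NoCfg 7 0x98c080009040800091c080008000938070c0920006b0 0xa040b1409900b1409940b2c08840b2c08000a400099a :=
  pieceG good7 c7_356 x7_356 (by
    simp only [List.forall_mem_cons, List.not_mem_nil, false_imp_iff, implies_true, and_true]
    exact ⟨n7_351, n7_352, n7_353⟩)

theorem n7_357 : NoCfg 7 0x910080009040800091c080008000938070c0920006b0 0xa040b140a180b1409f00b2c08840b2c08000a400099a :=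
  pieceG good7 c7_357 x7_357 (by
    simp only [List.forall_mem_cons, List.not_mem_nil, false_imp_iff, implies_true, and_true]
    exact ⟨n7_355, n7_356, n7_349, n7_350⟩)

theorem n7_358 : NoCfg 7 0x910080009040800091c080008000800070c0920006b0 0xaf80b140a900b140a340b2c08840b2c08000a400099a :=
  pieceG good7 c7_358 x7_358 (by
    simp only [List.forall_mem_cons, List.not_mem_nil, false_imp_iff, implies_true, and_true]
    exact ⟨n7_357, n7_347, n7_348⟩)

theorem n7_359 : NoCfg 7 0xa180800094808000890080008840800070c0920006b0 0xac00b1409ec0b18091c0b2c09080b2c07840a400099a :=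
  pieceG0 good7 c7_359 x7_359

theorem n7_360 : NoCfg 7 0xa180800094808000890080008000938070c0920006b0 0xac00a5009ec0b18091c0b2c08840b2c078409b00099a :=
  pieceG0 good7 c7_360 x7_360

theorem n7_361 : NoCfg 7 0xa180800094808000890080008000800070c0920006b0 0xac00b1409ec0b18091c0b2c09080b2c08000a400099a :=
  pieceG good7 c7_361 x7_361 (by
    simp only [List.forall_mem_cons, List.not_mem_nil, false_imp_iff, implies_true, and_true]
    exact ⟨n7_360, n7_359⟩)

theorem n7_362 : NoCfg 7 0x9380800094808000890080008840998070c0920006b0 0xa180b140a200b18091c0b2c09080b2c078409b00099a :=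
  pieceG0 good7 c7_362 x7_362

theorem n7_363 : NoCfg 7 0x9380800094808000890080008840800070c0920006b0 0xa180b140a200b18091c0b2c09080b2c07840a400099a :=
  pieceG good7 c7_363 x7_363 (by
    simp only [List.forall_mem_cons, List.not_mem_nil, false_imp_iff, implies_true, and_true]
    exact n7_362)

theorem n7_364 : NoCfg 7 0x9380800094808000890080008000a34070c0920006b0 0xa180b140a200b18091c0b2c08840ab0078409b00099a :=
  pieceG0 good7 c7_364 x7_364

theorem n7_365 : NoCfg 7 0x93808000948080008900800080009b8070c0920006b0 0xa180b140a200b18091c0b2c08840a34078409b00099a :=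
  pieceG0 good7 c7_365 x7_365

theorem n7_366 : NoCfg 7 0x9380800094808000890080008000938070c09b0006b0 0xa180b140a200b18091c0b2c08840b2c07840a400099a :=
  pieceG0 good7 c7_366 x7_366

theorem n7_367 : NoCfg 7 0x9380800094808000890080008000938070c0920006b0 0xa180b140a200b18091c0b2c08840b2c07840a400099a :=
  pieceG good7 c7_367 x7_367 (by
    simp only [List.forall_mem_cons, List.not_mem_nil, false_imp_iff, implies_true, and_true]
    exact ⟨n7_365, n7_364, n7_366⟩)

theorem n7_368 : NoCfg 7 0x9380800094808000890080008840800070c0920006b0 0xa180b140a200b18091c0b2c09080b2c08000a400099a :=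
  pieceG good7 c7_368 x7_368 (by
    simp only [List.forall_mem_cons, List.not_mem_nil, false_imp_iff, implies_true, and_true]
    exact n7_363)

theorem n7_369 : NoCfg 7 0x9380800094808000800093808000938070c0920006b0 0xa180b1409ec0b1808900b2c08940b2c078409b00099a :=
  pieceG0 good7 c7_369 x7_369

theorem n7_370 : NoCfg 7 0x9380800094808000800080008000800070c0920006b0 0xa180b140a900b18091c0b2c09080b2c08000a400099a :=
  pieceG good7 c7_370 x7_370 (by
    simp only [List.forall_mem_cons, List.not_mem_nil, false_imp_iff, implies_true, and_true]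
    exact ⟨n7_369, n7_367, n7_368⟩)

theorem n7_371 : NoCfg 7 0xa3c080008a408000890080008840800070c0920006b0 0xaf80a5409480b60091c0b6009080b6008000a400099a :=
  pieceG0 good7 c7_371 x7_371

theorem n7_372 : NoCfg 7 0x97c080008a408000890080008840800070c0920006b0 0xa3c0b1809480b60091c0b6009080b60080009b00099a :=
  pieceG0 good7 c7_372 x7_372

theorem n7_373 : NoCfg 7 0x97c080008a40800089008000800094c070c0920006b0 0xa3c08c809480b60091c0b6008840b6008000a400099a :=
  pieceG0 good7 c7_373 x7_373

theorem n7_374 : NoCfg 7 0x97c080008a408000890080008000800070c0920006b0 0xa3c0b1809480b60091c0b6008840b6008000a400099a :=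
  pieceG good7 c7_374 x7_374 (by
    simp only [List.forall_mem_cons, List.not_mem_nil, false_imp_iff, implies_true, and_true]
    exact n7_373)

theorem n7_375 : NoCfg 7 0x97c080008a408000800093408000924070c0920006b0 0xa3c098c09480b6008900b6008940b6008000a400099a :=
  pieceG0 good7 c7_375 x7_375

theorem n7_376 : NoCfg 7 0x97c080008a408000800080008000800070c0920006b0 0xa3c0b1809480b60091c0b6009080b6008000a400099a :=
  pieceG good7 c7_376 x7_376 (by
    simp only [List.forall_mem_cons, List.not_mem_nil, false_imp_iff, implies_true, and_true]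
    exact ⟨n7_375, n7_374, n7_372⟩)

theorem n7_377 : NoCfg 7 0x97c0800080008000800080008000800070c0920006b0 0xaf80b1809480c80091c0b6009080b6008000a400099a :=
  pieceG good7 c7_377 x7_377 (by
    simp only [List.forall_mem_cons, List.not_mem_nil, false_imp_iff, implies_true, and_true]
    exact ⟨n7_376, n7_371⟩)

theorem n7_378 : NoCfg 7 0x8c00920080008000800080008000800070c0920006b0 0x97c0a4009480a40091c0c8009080c8008000a400099a :=
  pieceG0 good7 c7_378 x7_378

theorem n7_379 : NoCfg 7 0x8c0080008a4080008900800080008d8070c0920006b0 0x97c092009480b60091c0b6009080b6008000a400099a :=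
  pieceG0 good7 c7_379 x7_379

theorem n7_380 : NoCfg 7 0x8c00800080008000800080008000800070c0920006b0 0x97c092009480c80091c0c8009080c8008000a400099a :=
  pieceG good7 c7_380 x7_380 (by
    simp only [List.forall_mem_cons, List.not_mem_nil, false_imp_iff, implies_true, and_true]
    exact n7_379)

theorem n7_381 : NoCfg 7 0x8c00a40080008000800080008000800070c0920006b0 0x97c0c8009480c80091c0c8009080c8008000a400099a :=
  pieceG0 good7 c7_381 x7_381

theorem n7_382 : NoCfg 7 0x8000800080008000800080008000800070c0920006b0 0xaf80c8009480c80091c0c8009080c8008000a400099a :=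
  pieceG good7 c7_382 x7_382 (by
    simp only [List.forall_mem_cons, List.not_mem_nil, false_imp_iff, implies_true, and_true]
    exact ⟨n7_380, n7_378, n7_381, n7_377⟩)

theorem n7_383 : NoCfg 7 0x800080008000800091c080008000800070c0920006b0 0xaf80c800a900c800a340c8009080c8008000a400099a :=
  pieceG good7 c7_383 x7_383 (by
    simp only [List.forall_mem_cons, List.not_mem_nil, false_imp_iff, implies_true, and_true]
    exact ⟨n7_358, n7_342, n7_340, n7_341, n7_343, n7_344, n7_345⟩)

theorem n7_384 : NoCfg 7 0x8000800080008000800080009080800070c0920006b0 0xaf80c800a900c800a340c800a0c0c8008000a400099a :=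
  pieceG good7 c7_384 x7_384 (by
    simp only [List.forall_mem_cons, List.not_mem_nil, false_imp_iff, implies_true, and_true]
    exact ⟨n7_333, n7_323⟩)

theorem n7_385 : NoCfg 7 0xa04080009100800091c0800080008e006ac0920006b0 0xa900afc09940afc09dc0b1408840af8070c09b00099a :=
  pieceG0 good7 c7_385 x7_385

theorem n7_386 : NoCfg 7 0x98c080009100800091c098c0800096806ac0920006b0 0xa040afc09940afc09dc0b1408840a30070c09b00099a :=
  pieceG0 good7 c7_386 x7_386

theorem n7_387 : NoCfg 7 0x98c080009100800091c0800080008e006ac0920006b0 0xa040afc09940afc09dc0b1408840af8070c09b00099a :=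
  pieceG good7 c7_387 x7_387 (by
    simp only [List.forall_mem_cons, List.not_mem_nil, false_imp_iff, implies_true, and_true]
    exact n7_386)

theorem n7_388 : NoCfg 7 0x910080009100800091c08000800096806ac0920006b0 0x98c0afc09940afc09dc0b1408840a30070c09b00099a :=
  pieceG0 good7 c7_388 x7_388

theorem n7_389 : NoCfg 7 0x910080009100800091c0800080008e006ac0920006b0 0x98c0afc09940afc09dc0b1409080af8070c09b00099a :=
  pieceG good7 c7_389 x7_389 (by
    simp only [List.forall_mem_cons, List.not_mem_nil, false_imp_iff, implies_true, and_true]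
    exact n7_388)

theorem n7_390 : NoCfg 7 0x98c080009100800091c0800080008e006ac0920006b0 0xa040afc09940afc09dc0b1409080af8070c0a400099a :=
  pieceG good7 c7_390 x7_390 (by
    simp only [List.forall_mem_cons, List.not_mem_nil, false_imp_iff, implies_true, and_true]
    exact n7_387)

theorem n7_391 : NoCfg 7 0x910080009940800091c0800080008e006ac0920006b0 0xa040afc0a180afc09dc0b1409080af8070c0a400099a :=
  pieceG0 good7 c7_391 x7_391

theorem n7_392 : NoCfg 7 0xa04080009100800091c0800080008e006ac0920006b0 0xaf80afc0a180afc09dc0b1409080af8070c0a400099a :=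
  pieceG good7 c7_392 x7_392 (by
    simp only [List.forall_mem_cons, List.not_mem_nil, false_imp_iff, implies_true, and_true]
    exact n7_385)

theorem n7_393 : NoCfg 7 0xa08098008000800080008000800080006600920006b0 0xa900a6c0a900b48091c0b4809080b60070c0a400099a :=
  pieceG0 good7 c7_393 x7_393

theorem n7_394 : NoCfg 7 0xa08080009480800089008000800080006600920006b0 0xa9009800a900b48091c0b4809080b60070c0a400099a :=
  pieceG0 good7 c7_394 x7_394

theorem n7_395 : NoCfg 7 0x97c080009480800089008000884080006600920006b0 0xa080b000a900b48091c0b4809080b60070c0a400099a :=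
  pieceG0 good7 c7_395 x7_395

theorem n7_396 : NoCfg 7 0x97c080009480800089009a4080009b406600920006b0 0xa080b000a100b48091c0b4808840a44070c09b00099a :=
  pieceG0 good7 c7_396 x7_396

theorem n7_397 : NoCfg 7 0x97c080009480800089008000800092406600920006b0 0xa080b000a100b48091c0b48088409b4070c09b00099a :=
  pieceG0 good7 c7_397 x7_397

theorem n7_398 : NoCfg 7 0x97c0800094808000890080008000a4406600920006b0 0xa080b000a100b48091c0b4808840b60070c09b00099a :=
  pieceG0 good7 c7_398 x7_398

theorem n7_399 : NoCfg 7 0x97c0800088c0800089008000800092406600920006b0 0xa08098009480b48091c0b4808840b60070c09b00099a :=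
  pieceG0 good7 c7_399 x7_399

theorem n7_400 : NoCfg 7 0x97c080009480800089008000800092406600920006b0 0xa080b000a900b48091c0b4808840b60070c0a400099a :=
  pieceG good7 c7_400 x7_400 (by
    simp only [List.forall_mem_cons, List.not_mem_nil, false_imp_iff, implies_true, and_true]
    exact ⟨n7_397, n7_396, n7_398⟩)

theorem n7_401 : NoCfg 7 0x97c080008000800089008000884080006600920006b0 0xa080b000a900b48091c0b4809080b60070c0a400099a :=
  pieceG good7 c7_401 x7_401 (by
    simp only [List.forall_mem_cons, List.not_mem_nil, false_imp_iff, implies_true, and_true]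
    exact n7_395)

theorem n7_402 : NoCfg 7 0x97c0800080008000800092c08000a4406600920006b0 0xa080b0009ec0a7808900a4808940ad4070c09b00099a :=
  pieceG0 good7 c7_402 x7_402

theorem n7_403 : NoCfg 7 0x97c08000964080008000a500800092406600920006b0 0xa080b0009ec09a408900b00089409b4070c09b00099a :=
  pieceG0 good7 c7_403 x7_403

theorem n7_404 : NoCfg 7 0x97c0800080008000800092c0800092406600920006b0 0xa080b0009ec0b4808900b48089409b4070c09b00099a :=
  pieceG good7 c7_404 x7_404 (by
    simp only [List.forall_mem_cons, List.not_mem_nil, false_imp_iff, implies_true, and_true]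
    exact n7_403)

theorem n7_405 : NoCfg 7 0x97c0800080008000800092c0800092406600920006b0 0xa080b0009ec0b4808900b4808940b60070c09b00099a :=
  pieceG good7 c7_405 x7_405 (by
    simp only [List.forall_mem_cons, List.not_mem_nil, false_imp_iff, implies_true, and_true]
    exact ⟨n7_404, n7_402⟩)

theorem n7_406 : NoCfg 7 0x97c080008000800080008000800080006600920006b0 0xa080b000a900b4808900b4809080b60070c0a400099a :=
  pieceG good7 c7_406 x7_406 (by
    simp only [List.forall_mem_cons, List.not_mem_nil, false_imp_iff, implies_true, and_true]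
    exact n7_405)

theorem n7_407 : NoCfg 7 0xa08080008000800080008000800080006600920006b0 0xa900b000a900b48091c0b4809080b60070c0a400099a :=
  pieceG good7 c7_407 x7_407 (by
    simp only [List.forall_mem_cons, List.not_mem_nil, false_imp_iff, implies_true, and_true]
    exact ⟨n7_394, n7_393⟩)

theorem n7_408 : NoCfg 7 0x8c0080008cc080008900800080008d8066c0920006b0 0x97c0b48099409a4091c0b4808840b60070c09b00099a :=
  pieceG0 good7 c7_408 x7_408

theorem n7_409 : NoCfg 7 0x8c0080008cc080008900800080008d8066c0920006b0 0x97c0b4809940b48091c0b4809080b60070c09b00099a :=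
  pieceG good7 c7_409 x7_409 (by
    simp only [List.forall_mem_cons, List.not_mem_nil, false_imp_iff, implies_true, and_true]
    exact n7_408)

theorem n7_410 : NoCfg 7 0x8c0080008cc080008000a4808000958066c0920006b0 0x97c0b4809940b4808900ac808980a24070c09b00099a :=
  pieceG0 good7 c7_410 x7_410

theorem n7_411 : NoCfg 7 0x8c0080008cc08000800094408000a38066c0920006b0 0x97c0b4809940b48089009c808980b60070c09b00099a :=
  pieceG0 good7 c7_411 x7_411

theorem n7_412 : NoCfg 7 0x8c0080008cc080008000944080008d8066c0920006b0 0x97c0b4809940b4808900b4808980b60070c09b00099a :=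
  pieceG good7 c7_412 x7_412 (by
    simp only [List.forall_mem_cons, List.not_mem_nil, false_imp_iff, implies_true, and_true]
    exact ⟨n7_411, n7_410⟩)

theorem n7_413 : NoCfg 7 0x8c0080008000800080008000800080006180920006b0 0x97c0c8008cc0c80091c0c8009080c80070c0a400099a :=
  pieceG0 good7 c7_413 x7_413

theorem n7_414 : NoCfg 7 0x800080008cc0800080008000800080006180920006b0 0x97c0c8009940c80091c0c8009080c80070c0a400099a :=
  pieceG good7 c7_414 x7_414 (by
    simp only [List.forall_mem_cons, List.not_mem_nil, false_imp_iff, implies_true, and_true]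
    exact ⟨n7_412, n7_409⟩)

theorem n7_415 : NoCfg 7 0x97c080008000800080008000800080006180920006b0 0xaf80c800a900c80091c0c8009080c80070c0a400099a :=
  pieceG good7 c7_415 x7_415 (by
    simp only [List.forall_mem_cons, List.not_mem_nil, false_imp_iff, implies_true, and_true]
    exact ⟨n7_406, n7_399, n7_400, n7_401, n7_407⟩)

theorem n7_416 : NoCfg 7 0x800080008000800080008000800080006180920006b0 0xaf80c800a900c800a340c8009080c80070c0a400099a :=
  pieceG good7 c7_416 x7_416 (by
    simp only [List.forall_mem_cons, List.not_mem_nil, false_imp_iff, implies_true, and_true]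
    exact ⟨n7_413, n7_414, n7_415, n7_389, n7_390, n7_391, n7_392⟩)

theorem n7_417 : NoCfg 7 0x914080009080800091c08000884080006a40890006b0 0xaf80b480a900b600a340b6009080b60075c09200099a :=
  pieceG0 good7 c7_417 x7_417

theorem n7_418 : NoCfg 7 0x938080009480800087c0800088408d806c40890006b0 0x9dc0b480a1c0b60091c0b6009080b60075c09200099a :=
  pieceG0 good7 c7_418 x7_418

theorem n7_419 : NoCfg 7 0x97c080008740800087c08000884080006680890006b0 0xaf80b4809480b60091c0b6009080b60072009200099a :=
  pieceG0 good7 c7_419 x7_419

theorem n7_420 : NoCfg 7 0x800080008000800080008000884080006180890006b0 0xaf80b480a900b60091c0b6009080b60075c09200099a :=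
  pieceG good7 c7_420 x7_420 (by
    simp only [List.forall_mem_cons, List.not_mem_nil, false_imp_iff, implies_true, and_true]
    exact ⟨n7_419, n7_418⟩)

theorem n7_421 : NoCfg 7 0x9e0080009480800080008000800092406880890006b0 0xa880a640a180b60091c0b6008840ad0075c09200099a :=
  pieceG0 good7 c7_421 x7_421

theorem n7_422 : NoCfg 7 0x938080009480800091c0800080009e006880890006b0 0x9e00b480a180b6009c40b6008840a9c075c09200099a :=
  pieceG0 good7 c7_422 x7_422

theorem n7_423 : NoCfg 7 0x938080009480800089008000800092406880890006b0 0x9e008d40a180b60091c0b6008840b60075c09200099a :=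
  pieceG0 good7 c7_423 x7_423

theorem n7_424 : NoCfg 7 0x9380800094808000800094c08000aa406880890007d0 0x9e00a5009b40a60089009f408840b00070009200099a :=
  pieceG0 good7 c7_424 x7_424

theorem n7_425 : NoCfg 7 0x93808000948080008000a580800096c06880890006b0 0x9e00b480a180a4c08900af0088409fc070009200099a :=
  pieceG0 good7 c7_425 x7_425

theorem n7_426 : NoCfg 7 0x938080009480800089008000800092406880890006b0 0x9e00b480a180b60091c0b6008840b60075c09200099a :=
  pieceG good7 c7_426 x7_426 (by
    simp only [List.forall_mem_cons, List.not_mem_nil, false_imp_iff, implies_true, and_true]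
    exact n7_423)

theorem n7_427 : NoCfg 7 0x938080009480800091c08000800092406880890006b0 0x9e00b480a180b600a340b6008840b60075c09200099a :=
  pieceG good7 c7_427 x7_427 (by
    simp only [List.forall_mem_cons, List.not_mem_nil, false_imp_iff, implies_true, and_true]
    exact n7_422)

theorem n7_428 : NoCfg 7 0x938080009480800080008000800092406880890006b0 0xa880b480a180b600a340b6008840b60075c09200099a :=
  pieceG good7 c7_428 x7_428 (by
    simp only [List.forall_mem_cons, List.not_mem_nil, false_imp_iff, implies_true, and_true]
    exact ⟨n7_425, n7_424, n7_426, n7_427, n7_421⟩)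

theorem n7_429 : NoCfg 7 0x97c080008a4080008b008000800092406b80890006b0 0xa040b4809480b60095c0b6008840a44075c09200099a :=
  pieceG0 good7 c7_429 x7_429

theorem n7_430 : NoCfg 7 0x97c080008a40800080008000800092406b80890006b0 0xa040b4809480b6008b00b6008840b60075c09200099a :=
  pieceG0 good7 c7_430 x7_430

theorem n7_431 : NoCfg 7 0xa04080008a40800080008000800092406b80890006b0 0xa880b4809480b60095c0b6008840b60075c09200099a :=
  pieceG0 good7 c7_431 x7_431

theorem n7_432 : NoCfg 7 0x894080008a40800080009240800092406b80890006b0 0x97c09a409480b6008b00b6008840b60075c09200099a :=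
  pieceG0 good7 c7_432 x7_432

theorem n7_433 : NoCfg 7 0x894080008a4080008b008000800092406b80890006b0 0x97c0b4809480b60095c0b6008840b60075c09200099a :=
  pieceG0 good7 c7_433 x7_433

theorem n7_434 : NoCfg 7 0x800080008a40800080008000800092406b80890006b0 0xaf80b4809480b60095c0b6008840b60075c09200099a :=
  pieceG good7 c7_434 x7_434 (by
    simp only [List.forall_mem_cons, List.not_mem_nil, false_imp_iff, implies_true, and_true]
    exact ⟨n7_432, n7_433, n7_430, n7_429, n7_431⟩)

theorem n7_435 : NoCfg 7 0x97c080008a40800080008000800092406180890006b0 0xa540b4809480b6008b00b6008840b6006b809200099a :=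
  pieceG0 good7 c7_435 x7_435

theorem n7_436 : NoCfg 7 0x894080008a408000800094c0800092406180890006b0 0x97c09a409480b6008b00b6008840b6006b809200099a :=
  pieceG0 good7 c7_436 x7_436

theorem n7_437 : NoCfg 7 0x800080008a40800080008000800092406180890006b0 0xaf80b4809480b60095c0b6008840b6006b809200099a :=
  pieceG good7 c7_437 x7_437 (by
    simp only [List.forall_mem_cons, List.not_mem_nil, false_imp_iff, implies_true, and_true]
    exact ⟨n7_436, n7_435⟩)

theorem n7_438 : NoCfg 7 0x800080008000800080008000800092406180890006b0 0xaf80b4809480b60095c0b6008840b6006b809200099a :=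
  pieceG good7 c7_438 x7_438 (by
    simp only [List.forall_mem_cons, List.not_mem_nil, false_imp_iff, implies_true, and_true]
    exact n7_437)

theorem n7_439 : NoCfg 7 0x800080008000800080008000908080006180890006b0 0xaf80b480a900b600a340b600a0c0b60075c09200099a :=
  pieceG0 good7 c7_439 x7_439

theorem n7_440 : NoCfg 7 0x800080008000800080009100800080006640800006b0 0xaf80b4809ec0b6008d40b6008dc0b6006fc08900099a :=
  pieceG0 good7 c7_440 x7_440

theorem n7_441 : NoCfg 7 0x800080008000800080008000800080006180800006b0 0xaf80b480a900b600a340b600a0c0b60075c08900099a :=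
  pieceG good7 c7_441 x7_441 (by
    simp only [List.forall_mem_cons, List.not_mem_nil, false_imp_iff, implies_true, and_true]
    exact n7_440)

theorem n7_442 : NoCfg 7 0x800080008000800080008000800080006180800006b0 0xaf80c800a900c800a340c800a0c0c80080009200099a :=
  pieceG good7 c7_442 x7_442 (by
    simp only [List.forall_mem_cons, List.not_mem_nil, false_imp_iff, implies_true, and_true]
    exact ⟨n7_441, n7_438, n7_434, n7_428, n7_420, n7_417, n7_439⟩)

theorem n7_443 : NoCfg 7 0x800080008000800080008000800080006180800006b0 0xaf80c800a900c800a340c800a0c0c8008000a400099a :=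
  pieceG good7 c7_443 x7_443 (by
    simp only [List.forall_mem_cons, List.not_mem_nil, false_imp_iff, implies_true, and_true]
    exact ⟨n7_442, n7_416, n7_382, n7_370, n7_361, n7_383, n7_384⟩)

theorem n7_444 : NoCfg 7 0xa400720080008000800080008000800075c08cc006b0 0xafc08000a800b140a340b140a0c0b1408000b2c0099a :=
  pieceG0 good7 c7_444 x7_444

theorem n7_445 : NoCfg 7 0x980074c09bc080008f408000908080007200998006b0 0xa4008000a800b140a340b140a0c0b1408000a640099a :=
  pieceG0 good7 c7_445 x7_445

theorem n7_446 : NoCfg 7 0x980074c09140800091c0800088408c407200998006b0 0xa40080009cc098c09d40b1409080b1408000a640099a :=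
  pieceG0 good7 c7_446 x7_446

theorem n7_447 : NoCfg 7 0x980074c08000800091c08000884080007200998006b0 0xa4008000a800b140a340b1409080b1408000a640099a :=
  pieceG good7 c7_447 x7_447 (by
    simp only [List.forall_mem_cons, List.not_mem_nil, false_imp_iff, implies_true, and_true]
    exact n7_446)

theorem n7_448 : NoCfg 7 0x980074c09180800091c08000800095407200998006b0 0xa4008000a280b1409f00b1408840a3408000a640099a :=
  pieceG0 good7 c7_448 x7_448

theorem n7_449 : NoCfg 7 0x980074c08000800080008000800095407200998006b0 0xa4008000a800b14091c0b1408840b1408000a640099a :=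
  pieceG0 good7 c7_449 x7_449

theorem n7_450 : NoCfg 7 0x980074c08000800080008000884080007200998006b0 0xa4008000a800b140a340b1409080b1408000a640099a :=
  pieceG good7 c7_450 x7_450 (by
    simp only [List.forall_mem_cons, List.not_mem_nil, false_imp_iff, implies_true, and_true]
    exact n7_447)

theorem n7_451 : NoCfg 7 0x980074c08000800080008000908080007200998006b0 0xa4008000a800b140a340b140a0c0b1408000a640099a :=
  pieceG good7 c7_451 x7_451 (by
    simp only [List.forall_mem_cons, List.not_mem_nil, false_imp_iff, implies_true, and_true]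
    exact n7_445)

theorem n7_452 : NoCfg 7 0x980074c08000800091c0800080008c406980998006b0 0xa4008000a800b140a340b1409080b1407200a640099a :=
  pieceG0 good7 c7_452 x7_452

theorem n7_453 : NoCfg 7 0x980074c08000800080008000800080006400998006b0 0xa4008000a800b140a340b140a0c0b1407200a640099a :=
  pieceG good7 c7_453 x7_453 (by
    simp only [List.forall_mem_cons, List.not_mem_nil, false_imp_iff, implies_true, and_true]
    exact n7_452)

theorem n7_454 : NoCfg 7 0x980074c08f8080008f408000908080007200910006b0 0xa40080009bc0b140a340b140a0c0b14080009980099a :=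
  pieceG0 good7 c7_454 x7_454

theorem n7_455 : NoCfg 7 0x980074c09140800091c0800088408c407200910006b0 0xa40080009cc098c09f00b1409080b14080009980099a :=
  pieceG0 good7 c7_455 x7_455

theorem n7_456 : NoCfg 7 0x980074c08000800080008000884080007200910006b0 0xa4008000a800b14091c0b1409080b14080009980099a :=
  pieceG0 good7 c7_456 x7_456

theorem n7_457 : NoCfg 7 0x980074c08000800080008000800095407200910006b0 0xa4008000a800b140a34098c08840a34080009980099a :=
  pieceG0 good7 c7_457 x7_457

theorem n7_458 : NoCfg 7 0x980074c080008000800098c0800095407200910006b0 0xa4008000a800b140a340b1408840b14080009980099a :=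
  pieceG0 good7 c7_458 x7_458

theorem n7_459 : NoCfg 7 0x980074c08000800080008000884080007200910006b0 0xa4008000a800b140a340b1409080b14080009980099a :=
  pieceG good7 c7_459 x7_459 (by
    simp only [List.forall_mem_cons, List.not_mem_nil, false_imp_iff, implies_true, and_true]
    exact ⟨n7_456, n7_455⟩)

theorem n7_460 : NoCfg 7 0x980074c08000800080008000800080007200910006b0 0xa4008000a800b140a340b1409080b14080009980099a :=
  pieceG good7 c7_460 x7_460 (by
    simp only [List.forall_mem_cons, List.not_mem_nil, false_imp_iff, implies_true, and_true]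
    exact ⟨n7_457, n7_458, n7_459⟩)

theorem n7_461 : NoCfg 7 0x980074c0908098c091c08000800097406ac08cc006b0 0xa400800098c0b1409dc0b1408840aac072009980099a :=
  pieceG0 good7 c7_461 x7_461

theorem n7_462 : NoCfg 7 0x980074c098c0800091c08000800097406ac08cc006b0 0xa4008000a0c0b1409dc0b1408840aac072009980099a :=
  pieceG0 good7 c7_462 x7_462

theorem n7_463 : NoCfg 7 0x980074c09080800091c0800088408c406ac08cc006b0 0xa4008000a0c0b1409dc0b1409080b14072009980099a :=
  pieceG0 good7 c7_463 x7_463

theorem n7_464 : NoCfg 7 0x980074c0940080008900800080008c4067808cc006b0 0xa4008000a800b14091c0b1409080b14072009980099a :=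
  pieceG0 good7 c7_464 x7_464

theorem n7_465 : NoCfg 7 0x980074c080008000800080008000800064008cc006b0 0xa4008000a800b14091c0b1409080b14072009980099a :=
  pieceG good7 c7_465 x7_465 (by
    simp only [List.forall_mem_cons, List.not_mem_nil, false_imp_iff, implies_true, and_true]
    exact n7_464)

theorem n7_466 : NoCfg 7 0x980074c080008000800080008000800064008cc006b0 0xa4008000a800b140a340b140a0c0b14072009980099a :=
  pieceG good7 c7_466 x7_466 (by
    simp only [List.forall_mem_cons, List.not_mem_nil, false_imp_iff, implies_true, and_true]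
    exact ⟨n7_465, n7_461, n7_462, n7_463⟩)

theorem n7_467 : NoCfg 7 0x980074c08000800080008000800080006400800006b0 0xa4008000a800b140a340b140a0c0b14080008cc0099a :=
  pieceG0 good7 c7_467 x7_467

theorem n7_468 : NoCfg 7 0x980074c08000800080008000800080006400998006b0 0xa4008000a800b140a340b140a0c0b1408000b2c0099a :=
  pieceG good7 c7_468 x7_468 (by
    simp only [List.forall_mem_cons, List.not_mem_nil, false_imp_iff, implies_true, and_true]
    exact ⟨n7_453, n7_449, n7_448, n7_450, n7_451⟩)

theorem n7_469 : NoCfg 7 0x980069c08a0080008000800080008c8072008f0006b0 0xa40074c0a800b140a340b140a0c098c08000a9c0099a :=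
  pieceG0 good7 c7_469 x7_469

theorem n7_470 : NoCfg 7 0x980069c08000800080008000800098c072008f0006b0 0xa40074c0a800b140a340b140a0c0b1408000a9c0099a :=
  pieceG0 good7 c7_470 x7_470

theorem n7_471 : NoCfg 7 0x980069c08000800080008000800080006400800006b0 0xa40074c0a800b140a340b140a0c0b1407200b2c0099a :=
  pieceG0 good7 c7_471 x7_471

theorem n7_472 : NoCfg 7 0x980074c08000800080008000800080006400800006b0 0xa4008000a800b140a340b140a0c0b1408000b2c0099a :=
  pieceG good7 c7_472 x7_472 (by
    simp only [List.forall_mem_cons, List.not_mem_nil, false_imp_iff, implies_true, and_true]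
    exact ⟨n7_467, n7_466, n7_460, n7_454, n7_468⟩)

theorem n7_473 : NoCfg 7 0xa40069c08000800080008000800080006400800006b0 0xafc08000a800b140a340b140a0c0b1408000b2c0099a :=
  pieceG good7 c7_473 x7_473 (by
    simp only [List.forall_mem_cons, List.not_mem_nil, false_imp_iff, implies_true, and_true]
    exact n7_444)

theorem n7_474 : NoCfg 7 0x8c0071408c8080008c4080008c4080006b00930006b0 0x980080009900b1409840b1409880b14075809ec0099a :=
  pieceG0 good7 c7_474 x7_474

theorem n7_475 : NoCfg 7 0x8c0071408c8080008c4080008c4080006b00930006b0 0x980080009900b1409840b1409880b1408000a600099a :=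
  pieceG good7 c7_475 x7_475 (by
    simp only [List.forall_mem_cons, List.not_mem_nil, false_imp_iff, implies_true, and_true]
    exact n7_474)

theorem n7_476 : NoCfg 7 0x8c0071408c8080008c408000800090c06b00930006b0 0x980080009900b1409840b1408c40a10075809c80099a :=
  pieceG0 good7 c7_476 x7_476

theorem n7_477 : NoCfg 7 0x8c0071408c8080008c408000800090c07580930006b0 0x980080009900b1409840b1408c40b14080009c80099a :=
  pieceG0 good7 c7_477 x7_477

theorem n7_478 : NoCfg 7 0x8c0071408c8080008c408000800090c06b00930006b0 0x980080009900b1409840b1408c40b14080009c80099a :=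
  pieceG good7 c7_478 x7_478 (by
    simp only [List.forall_mem_cons, List.not_mem_nil, false_imp_iff, implies_true, and_true]
    exact ⟨n7_476, n7_477⟩)

theorem n7_479 : NoCfg 7 0x8c0071408c8080008c408000800090c069c0898006b0 0x980080009900b1409840b1408c40b14075409300099a :=
  pieceG0 good7 c7_479 x7_479

theorem n7_480 : NoCfg 7 0x8c0071408c8080008c408000800080006400800006b0 0x980080009900b1409840b1408c40b1408000a600099a :=
  pieceG good7 c7_480 x7_480 (by
    simp only [List.forall_mem_cons, List.not_mem_nil, false_imp_iff, implies_true, and_true]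
    exact ⟨n7_479, n7_478⟩)

theorem n7_481 : NoCfg 7 0x8c0075008c8080008000928080009180640090c006b0 0x980080009900b1408c40b1408c80b1407200a180099a :=
  pieceG0 good7 c7_481 x7_481

theorem n7_482 : NoCfg 7 0x8c0071408c8080008000928080009180640090c006b0 0x980080009900b1408c40b1408c80b1408000a180099a :=
  pieceG good7 c7_482 x7_482 (by
    simp only [List.forall_mem_cons, List.not_mem_nil, false_imp_iff, implies_true, and_true]
    exact n7_481)

theorem n7_483 : NoCfg 7 0x8c0071408c80800080008000800080006400800006b0 0x980080009900b1408c40b1409880b1408000b2c0099a :=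
  pieceG good7 c7_483 x7_483 (by
    simp only [List.forall_mem_cons, List.not_mem_nil, false_imp_iff, implies_true, and_true]
    exact n7_482)

theorem n7_484 : NoCfg 7 0x8c0071408000800080008000800080006400800006b0 0x980080009900b1409840b1409880b1408000b2c0099a :=
  pieceG good7 c7_484 x7_484 (by
    simp only [List.forall_mem_cons, List.not_mem_nil, false_imp_iff, implies_true, and_true]
    exact ⟨n7_483, n7_480, n7_475⟩)

theorem n7_485 : NoCfg 7 0x800062808000800080008000800080006400800006b0 0x98008000a800b140a340b140a0c0b1408000b2c0099a :=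
  pieceG good7 c7_485 x7_485 (by
    simp only [List.forall_mem_cons, List.not_mem_nil, false_imp_iff, implies_true, and_true]
    exact n7_484)

theorem n7_486 : NoCfg 7 0x80006280800080008000800080008000640080000487 0xc8008000c800c800c800c800c800c8008000c800099a :=
  pieceG good7 c7_486 x7_486 (by
    simp only [List.forall_mem_cons, List.not_mem_nil, false_imp_iff, implies_true, and_true]
    exact ⟨n7_485, n7_471, n7_469, n7_470, n7_472, n7_473⟩)

theorem n7_487 : NoCfg 7 0xa14080009400714091c08000908098c075c099000850 0xab40a0c09e0080009b0098c098c0aa008000a300099a :=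
  pieceG0 good7 c7_487 x7_487

theorem n7_488 : NoCfg 7 0xa14080009400714091c080009080800072008f0006b0 0xafc0afc09e0080009f00b14098c0b14080009900099a :=
  pieceG0 good7 c7_488 x7_488

theorem n7_489 : NoCfg 7 0xa14080009400714091c080009080800072008f0006b0 0xafc0afc09e008000a340b14098c0b1408000a300099a :=
  pieceG good7 c7_489 x7_489 (by
    simp only [List.forall_mem_cons, List.not_mem_nil, false_imp_iff, implies_true, and_true]
    exact ⟨n7_488, n7_487⟩)

theorem n7_490 : NoCfg 7 0xa1408c009400788091c094808840a1c07200938008a0 0xa6c0950098808000970098c09080aa407bc09c80099a :=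
  pieceG0 good7 c7_490 x7_490

theorem n7_491 : NoCfg 7 0xa1408c009400788091c0800088409ec0720093800850 0xa6c098009e0080009b0098c09080aa4080009c80099a :=
  pieceG good7 c7_491 x7_491 (by
    simp only [List.forall_mem_cons, List.not_mem_nil, false_imp_iff, implies_true, and_true]
    exact n7_490)

theorem n7_492 : NoCfg 7 0xa1408c009400714091c0800088408c407200938006b0 0xac4098009e0080009f0098c09080b14080009c80099a :=
  pieceG good7 c7_492 x7_492 (by
    simp only [List.forall_mem_cons, List.not_mem_nil, false_imp_iff, implies_true, and_true]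
    exact n7_491)

theorem n7_493 : NoCfg 7 0xa14080009400714091c0888088409ec0720093800870 0xa6c08c009a008000984098c09080aa4080009c80099a :=
  pieceG0 good7 c7_493 x7_493

theorem n7_494 : NoCfg 7 0xa14098009400714091c0800088408c407200938006b0 0xac40afc09e0080009f00b1409080b14080009c80099a :=
  pieceG0 good7 c7_494 x7_494

theorem n7_495 : NoCfg 7 0xa14080009400714091c0800088408c4072008f0006b0 0xac40afc09e0080009f00b1409080b14080009c80099a :=
  pieceG good7 c7_495 x7_495 (by
    simp only [List.forall_mem_cons, List.not_mem_nil, false_imp_iff, implies_true, and_true]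
    exact ⟨n7_493, n7_492, n7_494⟩)

theorem n7_496 : NoCfg 7 0xa14080009400714091c080008000974072008f0006b0 0xac40a3c09e0080009b8098c08840aac08000a9c0099a :=
  pieceG0 good7 c7_496 x7_496

theorem n7_497 : NoCfg 7 0xa14080009400714091c0800088408c4072008f0006b0 0xac40afc09e0080009f00b1409080b1408000a9c0099a :=
  pieceG good7 c7_497 x7_497 (by
    simp only [List.forall_mem_cons, List.not_mem_nil, false_imp_iff, implies_true, and_true]
    exact n7_495)

theorem n7_498 : NoCfg 7 0xa14080009400714091c080008000800072008f0006b0 0xafc0afc0a8008000a340b1409080b1408000a9c0099a :=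
  pieceG good7 c7_498 x7_498 (by
    simp only [List.forall_mem_cons, List.not_mem_nil, false_imp_iff, implies_true, and_true]
    exact ⟨n7_496, n7_497⟩)

theorem n7_499 : NoCfg 7 0xa1408f8095807b408f0094c08600a500720095000920 0xa480914096807e0091c097408980a700760099c00970 :=
  pieceG0 good7 c7_499 x7_499

theorem n7_500 : NoCfg 7 0xa1408c40950079008f0092408600a3c07200950008f0 0xa48091409800800091c098c08980a800760099c0099a :=
  pieceG good7 c7_500 x7_500 (by
    simp only [List.forall_mem_cons, List.not_mem_nil, false_imp_iff, implies_true, and_true]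
    exact n7_499)

theorem n7_501 : NoCfg 7 0xa1408900940079008cc0900082809fc07200938008b0 0xa5809a809980800091c098c08980a9c076009bc0099a :=
  pieceG good7 c7_501 x7_501 (by
    simp only [List.forall_mem_cons, List.not_mem_nil, false_imp_iff, implies_true, and_true]
    exact n7_500)

theorem n7_502 : NoCfg 7 0xa14080009400714089008000800080007200938006b0 0xab80a3c0a800800091c098c092c0b1408000a100099a :=
  pieceG good7 c7_502 x7_502 (by
    simp only [List.forall_mem_cons, List.not_mem_nil, false_imp_iff, implies_true, and_true]
    exact n7_501)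

theorem n7_503 : NoCfg 7 0xa140800094007140800080008000800072008f0006b0 0xab80afc0a800800091c0b14092c0b1408000a100099a :=
  pieceG good7 c7_503 x7_503 (by
    simp only [List.forall_mem_cons, List.not_mem_nil, false_imp_iff, implies_true, and_true]
    exact n7_502)

theorem n7_504 : NoCfg 7 0xa14080009400788088408fc0800098c06a408e000870 0xa880a2c09c40800099c098c09280a98072009d00099a :=
  pieceG0 good7 c7_504 x7_504

theorem n7_505 : NoCfg 7 0xa14080009400714080008000800098c06a40800006b0 0xa880a2c0a1c08000a340b1409880b1407200a3c0099a :=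
  pieceG good7 c7_505 x7_505 (by
    simp only [List.forall_mem_cons, List.not_mem_nil, false_imp_iff, implies_true, and_true]
    exact n7_504)

theorem n7_506 : NoCfg 7 0xa14080009400714080008000800080007200800006b0 0xafc0afc0a8008000a340b140a0c0b1408000b2c0099a :=
  pieceG good7 c7_506 x7_506 (by
    simp only [List.forall_mem_cons, List.not_mem_nil, false_imp_iff, implies_true, and_true]
    exact ⟨n7_503, n7_498, n7_489⟩)

theorem n7_507 : NoCfg 7 0x92808000940071408f408000908080007580998006b0 0xa1409800a20080009940b1409980b1408000a200099a :=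
  pieceG0 good7 c7_507 x7_507

theorem n7_508 : NoCfg 7 0x928098009400714091c0800088408c407580998006b0 0xa140a400a20080009f0098c09080b1408000a640099a :=
  pieceG0 good7 c7_508 x7_508

theorem n7_509 : NoCfg 7 0x92808c009400714091c0800088409ec07580998006b0 0xa1409800a20080009f00b1409080b1408000a640099a :=
  pieceG0 good7 c7_509 x7_509

theorem n7_510 : NoCfg 7 0x928080009400714091c0800088408c407580998006b0 0xa1409800a20080009f00b1409080b1408000a640099a :=
  pieceG good7 c7_510 x7_510 (by
    simp only [List.forall_mem_cons, List.not_mem_nil, false_imp_iff, implies_true, and_true]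
    exact n7_509)

theorem n7_511 : NoCfg 7 0x928080009400714080008000800095407580998006b0 0xa140afc0a2008000a340b1408840a3408000a640099a :=
  pieceG0 good7 c7_511 x7_511

theorem n7_512 : NoCfg 7 0x928080009400714080008000884080007580998006b0 0xa140afc0a2008000a340b1409080b1408000a640099a :=
  pieceG good7 c7_512 x7_512 (by
    simp only [List.forall_mem_cons, List.not_mem_nil, false_imp_iff, implies_true, and_true]
    exact ⟨n7_510, n7_508⟩)

theorem n7_513 : NoCfg 7 0x928080009400714080008000908080007580998006b0 0xa140afc0a2008000a340b140a0c0b1408000a640099a :=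
  pieceG good7 c7_513 x7_513 (by
    simp only [List.forall_mem_cons, List.not_mem_nil, false_imp_iff, implies_true, and_true]
    exact n7_507)

theorem n7_514 : NoCfg 7 0x928080009400714091c0800088408c406b00998006b0 0xa1409800a20080009e00b1409080b14075809f80099a :=
  pieceG0 good7 c7_514 x7_514

theorem n7_515 : NoCfg 7 0x928080009400714091c0800088408c406b00998006b0 0xa140afc0a2008000a340b1409080b1407580a640099a :=
  pieceG good7 c7_515 x7_515 (by
    simp only [List.forall_mem_cons, List.not_mem_nil, false_imp_iff, implies_true, and_true]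
    exact n7_514)

theorem n7_516 : NoCfg 7 0x928080009400714091c08000800097406b00998006b0 0xa140afc0a20080009d4098c08840a4407580a640099a :=
  pieceG0 good7 c7_516 x7_516

theorem n7_517 : NoCfg 7 0x928080009400714080008000800097406b00998006b0 0xa140afc0a2008000a340b1408840a4407580a640099a :=
  pieceG good7 c7_517 x7_517 (by
    simp only [List.forall_mem_cons, List.not_mem_nil, false_imp_iff, implies_true, and_true]
    exact n7_516)

theorem n7_518 : NoCfg 7 0x92808000940071408000800088408c406b00998006b0 0xa140afc0a2008000a340b1409080b1407580a640099a :=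
  pieceG good7 c7_518 x7_518 (by
    simp only [List.forall_mem_cons, List.not_mem_nil, false_imp_iff, implies_true, and_true]
    exact n7_515)

theorem n7_519 : NoCfg 7 0x928080009400714080008000800080006b00998006b0 0xa140afc0a2008000a340b140a0c0b1407580a640099a :=
  pieceG good7 c7_519 x7_519 (by
    simp only [List.forall_mem_cons, List.not_mem_nil, false_imp_iff, implies_true, and_true]
    exact ⟨n7_517, n7_518⟩)

theorem n7_520 : NoCfg 7 0x92808000940071408f408000908080007200910006b0 0xa140afc0a20080009940b140a0c0b14080009980099a :=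
  pieceG0 good7 c7_520 x7_520

theorem n7_521 : NoCfg 7 0x928098009400714091c0800088409ec0720091000830 0xa140a400a20080009f0098c09080b14079009980099a :=
  pieceG0 good7 c7_521 x7_521

theorem n7_522 : NoCfg 7 0x92808c009400714091c0800088408c407200910006b0 0xa1409800a20080009f00b14090809ec080009980099a :=
  pieceG0 good7 c7_522 x7_522

theorem n7_523 : NoCfg 7 0x928080009400714091c0800088408c407200910006b0 0xa1408c00a20080009f00b1409080b14080009980099a :=
  pieceG0 good7 c7_523 x7_523

theorem n7_524 : NoCfg 7 0x928098009400714091c0800088408c407200910006b0 0xa140afc0a20080009f00b1409080b14080009980099a :=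
  pieceG good7 c7_524 x7_524 (by
    simp only [List.forall_mem_cons, List.not_mem_nil, false_imp_iff, implies_true, and_true]
    exact n7_521)

theorem n7_525 : NoCfg 7 0x92808000940071408800800088409ec07200910006b0 0xa140afc0a200800091c0b1409080b14080009980099a :=
  pieceG0 good7 c7_525 x7_525

theorem n7_526 : NoCfg 7 0x928080009400788091c08c80800095407200910006b0 0xa140afc0a20080009e0098c08840a3407a009980099a :=
  pieceG0 good7 c7_526 x7_526

theorem n7_527 : NoCfg 7 0x928080009400714091c08000800095407200910006b0 0xa140afc0a20080009e0098c08840a3407a009980099a :=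
  pieceG good7 c7_527 x7_527 (by
    simp only [List.forall_mem_cons, List.not_mem_nil, false_imp_iff, implies_true, and_true]
    exact n7_526)

theorem n7_528 : NoCfg 7 0x928080009400714091c080008000a3407200910006b0 0xa140afc0a20080009e00b1408840b14080009980099a :=
  pieceG0 good7 c7_528 x7_528

theorem n7_529 : NoCfg 7 0x9280800094007140890080008000a3407200910006b0 0xa140afc0a200800091c0b1408840b14080009980099a :=
  pieceG0 good7 c7_529 x7_529

theorem n7_530 : NoCfg 7 0x928080009400714091c08000800095407200910006b0 0xa140afc0a2008000a340b1408840b14080009980099a :=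
  pieceG good7 c7_530 x7_530 (by
    simp only [List.forall_mem_cons, List.not_mem_nil, false_imp_iff, implies_true, and_true]
    exact ⟨n7_527, n7_528⟩)

theorem n7_531 : NoCfg 7 0x928080009400714080008000884080007200910006b0 0xa140afc0a2008000a340b1409080b14080009980099a :=
  pieceG good7 c7_531 x7_531 (by
    simp only [List.forall_mem_cons, List.not_mem_nil, false_imp_iff, implies_true, and_true]
    exact ⟨n7_525, n7_523, n7_522, n7_524⟩)

theorem n7_532 : NoCfg 7 0x928080009400714080008000800080007200910006b0 0xa140afc0a2008000a340b1409080b14080009980099a :=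
  pieceG good7 c7_532 x7_532 (by
    simp only [List.forall_mem_cons, List.not_mem_nil, false_imp_iff, implies_true, and_true]
    exact ⟨n7_529, n7_530, n7_531⟩)

theorem n7_533 : NoCfg 7 0x928080009400714091c0800088408c4068c08cc006b0 0xa1409800a20080009c80b1409080b14072009980099a :=
  pieceG0 good7 c7_533 x7_533

theorem n7_534 : NoCfg 7 0x92808000940071408000800088408c4068c08cc006b0 0xa140afc0a200800091c0b1409080b14072009980099a :=
  pieceG0 good7 c7_534 x7_534

theorem n7_535 : NoCfg 7 0x92809200940078808d4092808000a4406c408cc00870 0xa140a3c09dc080009a80a5008840ab4072009980099a :=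
  pieceG0 good7 c7_535 x7_535

theorem n7_536 : NoCfg 7 0x9280800094007880800080008000a44068c08cc006b0 0xa140afc0a20080009a80a5008840ad8072009980099a :=
  pieceG good7 c7_536 x7_536 (by
    simp only [List.forall_mem_cons, List.not_mem_nil, false_imp_iff, implies_true, and_true]
    exact n7_535)

theorem n7_537 : NoCfg 7 0x928098009400750091c08640800097406c408cc00870 0xa140a9c09d40800099c08f808840a44072009980099a :=
  pieceG0 good7 c7_537 x7_537

theorem n7_538 : NoCfg 7 0x92808c009400714091c098c08000974068c08cc006b0 0xa1409800a20080009c80b1408840a44072009980099a :=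
  pieceG0 good7 c7_538 x7_538

theorem n7_539 : NoCfg 7 0x9280800094007140890098c08000974068c08cc006b0 0xa140afc0a200800091c0b1408840a44072009980099a :=
  pieceG0 good7 c7_539 x7_539

theorem n7_540 : NoCfg 7 0x928080009400714091c080008000974068c08cc006b0 0xa140afc0a2008000a340b1408840a44072009980099a :=
  pieceG good7 c7_540 x7_540 (by
    simp only [List.forall_mem_cons, List.not_mem_nil, false_imp_iff, implies_true, and_true]
    exact ⟨n7_538, n7_537⟩)

theorem n7_541 : NoCfg 7 0x92808000940071408000800080008c4068c08cc006b0 0xa140afc0a2008000a340b1408840b14072009980099a :=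
  pieceG good7 c7_541 x7_541 (by
    simp only [List.forall_mem_cons, List.not_mem_nil, false_imp_iff, implies_true, and_true]
    exact ⟨n7_539, n7_540, n7_536⟩)

theorem n7_542 : NoCfg 7 0x9280800094007140800080008000800064008cc006b0 0xa140afc0a2008000a340b140a0c0b14072009980099a :=
  pieceG good7 c7_542 x7_542 (by
    simp only [List.forall_mem_cons, List.not_mem_nil, false_imp_iff, implies_true, and_true]
    exact ⟨n7_541, n7_534, n7_533⟩)

theorem n7_543 : NoCfg 7 0x928080009400714080008000800080006400800006b0 0xa140afc0a2008000a340b140a0c0b14080008cc0099a :=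
  pieceG0 good7 c7_543 x7_543

theorem n7_544 : NoCfg 7 0x928080009400714080008000800080006400998006b0 0xa140afc0a2008000a340b140a0c0b1408000b2c0099a :=
  pieceG good7 c7_544 x7_544 (by
    simp only [List.forall_mem_cons, List.not_mem_nil, false_imp_iff, implies_true, and_true]
    exact ⟨n7_519, n7_511, n7_512, n7_513⟩)

theorem n7_545 : NoCfg 7 0xa14080009400714080008000800080006400800006b0 0xafc0afc0a8008000a340b140a0c0b1408000b2c0099a :=
  pieceG good7 c7_545 x7_545 (by
    simp only [List.forall_mem_cons, List.not_mem_nil, false_imp_iff, implies_true, and_true]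
    exact ⟨n7_505, n7_506⟩)

theorem n7_546 : NoCfg 7 0x928080009400678097408000908080007200958006b0 0xafc0afc0a0c071409e80a5009cc0a5008000a1c0099a :=
  pieceG0 good7 c7_546 x7_546

theorem n7_547 : NoCfg 7 0x928080009400678080008000908080007200914006b0 0xafc0afc0a0c07140a340b140a0c0b1408000a740099a :=
  pieceG good7 c7_547 x7_547 (by
    simp only [List.forall_mem_cons, List.not_mem_nil, false_imp_iff, implies_true, and_true]
    exact n7_546)

theorem n7_548 : NoCfg 7 0x928080009400628080008000800080006400800006b0 0xafc0afc0a8007140a340b140a0c0b1408000b2c0099a :=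
  pieceG good7 c7_548 x7_548 (by
    simp only [List.forall_mem_cons, List.not_mem_nil, false_imp_iff, implies_true, and_true]
    exact n7_547)

theorem n7_549 : NoCfg 7 0x8e0080008a007140800080008000800072008cc006b0 0xafc0afc0940080009500b1409440b14080009980099a :=
  pieceG0 good7 c7_549 x7_549

theorem n7_550 : NoCfg 7 0x8e0080008a00714080008000800080006400998006b0 0xafc0afc0940080009500b1409440b1408000b2c0099a :=
  pieceG0 good7 c7_550 x7_550

theorem n7_551 : NoCfg 7 0x800080008a00714080008000800080006400800006b0 0xafc0afc0940080009500b1409440b1408000b2c0099a :=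
  pieceG good7 c7_551 x7_551 (by
    simp only [List.forall_mem_cons, List.not_mem_nil, false_imp_iff, implies_true, and_true]
    exact ⟨n7_549, n7_550⟩)

theorem n7_552 : NoCfg 7 0x800080008000628080008000800080006400800006b0 0xafc0afc094008000a340b140a0c0b1408000b2c0099a :=
  pieceG good7 c7_552 x7_552 (by
    simp only [List.forall_mem_cons, List.not_mem_nil, false_imp_iff, implies_true, and_true]
    exact n7_551)

theorem n7_553 : NoCfg 7 0x924075409400688080008000800080006ec08d000830 0xaf808000a8007440a340aac0a0c0ac408000ac40099a :=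
  pieceG0 good7 c7_553 x7_553

theorem n7_554 : NoCfg 7 0x800060c0940060c080008000800080006400800006b0 0xaf808000a8008000a340aac0a0c0ac408000ac40099a :=
  pieceG good7 c7_554 x7_554 (by
    simp only [List.forall_mem_cons, List.not_mem_nil, false_imp_iff, implies_true, and_true]
    exact n7_553)

theorem n7_555 : NoCfg 7 0x80008000800038008000800080008000380080000487 0xc800c800c8008000c800c800c800c8008000c800099a :=
  pieceG good7 c7_555 x7_555 (by
    simp only [List.forall_mem_cons, List.not_mem_nil, false_imp_iff, implies_true, and_true]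
    exact ⟨n7_552, n7_548, n7_543, n7_542, n7_532, n7_520, n7_544, n7_545⟩)

theorem n7_556 : NoCfg 7 0x80003800800038008000800080008000380080000487 0xc800c800c8008000c800c800c800c8008000c800099a :=
  pieceG good7 c7_556 x7_556 (by
    simp only [List.forall_mem_cons, List.not_mem_nil, false_imp_iff, implies_true, and_true]
    exact ⟨n7_554, n7_555⟩)

theorem n7_557 : NoCfg 7 0x80008000800080008000800080008000674064400487 0xc800c800a440c800a000c8009e00c80080008000099a :=
  pieceG0 good7 c7_557 x7_557

theorem n7_558 : NoCfg 7 0x800061808000800080008000800080006500600006f0 0xc8008000a440c800a000c8009cc0c80080008000099a :=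
  pieceG0 good7 c7_558 x7_558

theorem n7_559 : NoCfg 7 0x800080008000618080008000800080006500700006f0 0xac40a600a4408000a000a7809cc0a90080008000099a :=
  pieceG0 good7 c7_559 x7_559

theorem n7_560 : NoCfg 7 0x80006180800060c080008000800080006440700006f0 0xac408000a4408000a0c0a4409d80a44080008000099a :=
  pieceG0 good7 c7_560 x7_560

theorem n7_561 : NoCfg 7 0x80003800800038008000800080008000380038000487 0xc8008000c8008000c800c800c800c80080008000099a :=
  pieceG good7 c7_561 x7_561 (by
    simp only [List.forall_mem_cons, List.not_mem_nil, false_imp_iff, implies_true, and_true]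
    exact n7_560)

theorem n7_562 : NoCfg 7 0x80003800800038008000800080008000380038000487 0xc800c800c8008000c800c800c800c80080008000099a :=
  pieceG good7 c7_562 x7_562 (by
    simp only [List.forall_mem_cons, List.not_mem_nil, false_imp_iff, implies_true, and_true]
    exact ⟨n7_561, n7_559⟩)

theorem n7_563 : NoCfg 7 0x80003800800038008000800080008000380080000487 0xc800c800c800c800c800c800c800c8008000c800099a :=
  pieceG good7 c7_563 x7_563 (by
    simp only [List.forall_mem_cons, List.not_mem_nil, false_imp_iff, implies_true, and_true]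
    exact ⟨n7_556, n7_486, n7_443, n7_320, n7_321⟩)

theorem n7_564 : NoCfg 7 0xa7c080009140800091c0714090808000758097c006b0 0xaf80a0c09cc097c09f0080009b00af808000a3c0099a :=
  pieceG0 good7 c7_564 x7_564

theorem n7_565 : NoCfg 7 0xa7c080009140800091c0714080008000720097c006b0 0xaf80a0c0a800af809f0080009080af808000a3c0099a :=
  pieceG0 good7 c7_565 x7_565

theorem n7_566 : NoCfg 7 0xa00080009cc0800091c0788090809880760097c006b0 0xa7c0a3c0a800af809a8080009b40a5008000a0c0099a :=
  pieceG0 good7 c7_566 x7_566

theorem n7_567 : NoCfg 7 0xa00092009cc0800093407140908098007b809b4008d0 0xa7c09b00a48084809500788094409bc080009e80099a :=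
  pieceG0 good7 c7_567 x7_567

theorem n7_568 : NoCfg 7 0xa00092009cc0800093407140908095807c409c0008e0 0xa7c09b00a480838094c078809480980080009e40099a :=
  pieceG0 good7 c7_568 x7_568

theorem n7_569 : NoCfg 7 0xa00092009cc0800093407140908095807c409c0008e0 0xa7c09b00a4808380964078809480980080009e40099a :=
  pieceG good7 c7_569 x7_569 (by
    simp only [List.forall_mem_cons, List.not_mem_nil, false_imp_iff, implies_true, and_true]
    exact n7_568)

theorem n7_570 : NoCfg 7 0xa00092009cc08000934071409080980079c097c00870 0xa7c09b00a4808cc0980078809780a2808000a0c0099a :=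
  pieceG good7 c7_570 x7_570 (by
    simp only [List.forall_mem_cons, List.not_mem_nil, false_imp_iff, implies_true, and_true]
    exact n7_567)

theorem n7_571 : NoCfg 7 0xa00080009cc0800091c0714090808000760097c006b0 0xa7c09200a800af809a8078809b40af808000a0c0099a :=
  pieceG0 good7 c7_571 x7_571

theorem n7_572 : NoCfg 7 0xa00080009cc0800091c0714090808000760097c006b0 0xa7c0af80a800af809a8078809b40af808000a0c0099a :=
  pieceG good7 c7_572 x7_572 (by
    simp only [List.forall_mem_cons, List.not_mem_nil, false_imp_iff, implies_true, and_true]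
    exact ⟨n7_571, n7_569, n7_570⟩)

theorem n7_573 : NoCfg 7 0xa00080009140800091c07880908097c0760097c006b0 0xa7c0af809cc0af809a8080009b40af808000a0c0099a :=
  pieceG0 good7 c7_573 x7_573

theorem n7_574 : NoCfg 7 0xa00091809440800091c07140908097c0788097c008b0 0xa7c09d809cc08e009a8078809780a0008000a0c0099a :=
  pieceG0 good7 c7_574 x7_574

theorem n7_575 : NoCfg 7 0xa00080009140800091c07140908097c0760097c00850 0xa7c0a2c09cc0a3c09a8078809b40a0008000a0c0099a :=
  pieceG good7 c7_575 x7_575 (by
    simp only [List.forall_mem_cons, List.not_mem_nil, false_imp_iff, implies_true, and_true]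
    exact n7_574)

theorem n7_576 : NoCfg 7 0xa00080009140800091c0714090808000760097c006b0 0xa7c0af809cc0af809a8078809b4097c08000a3c0099a :=
  pieceG0 good7 c7_576 x7_576

theorem n7_577 : NoCfg 7 0xa00080009140800091c0714090808000760097c006b0 0xa7c0af809cc0af809a8078809b40af808000a3c0099a :=
  pieceG good7 c7_577 x7_577 (by
    simp only [List.forall_mem_cons, List.not_mem_nil, false_imp_iff, implies_true, and_true]
    exact ⟨n7_576, n7_575⟩)

theorem n7_578 : NoCfg 7 0xa00086c09f409b8094c078808c8098c078409bc00920 0xa2008900a0809d8095c07a008dc09a407a809cc00950 :=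
  pieceG0 good7 c7_578 x7_578

theorem n7_579 : NoCfg 7 0xa00085c09cc09d8094c078808bc098c077809bc00900 0xa2008b40a080a04096407b008dc09ac07a809d400970 :=
  pieceG0 good7 c7_579 x7_579

theorem n7_580 : NoCfg 7 0xa00085c09cc097c094c078808dc0974076009bc00900 0xa2008b40a240a04096407b0090809bc07c809d400970 :=
  pieceG0 good7 c7_580 x7_580

theorem n7_581 : NoCfg 7 0xa00083c09cc097c094c07880888093c076009bc008c0 0xa2008e80a240a44097807b0090809dc080009fc0099a :=
  pieceG good7 c7_581 x7_581 (by
    simp only [List.forall_mem_cons, List.not_mem_nil, false_imp_iff, implies_true, and_true]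
    exact ⟨n7_578, n7_579, n7_580⟩)

theorem n7_582 : NoCfg 7 0xa00083c09cc097c094c07880888093c0760097c008c0 0xa2008e80a480a44097807d8090809dc080009fc0099a :=
  pieceG good7 c7_582 x7_582 (by
    simp only [List.forall_mem_cons, List.not_mem_nil, false_imp_iff, implies_true, and_true]
    exact n7_581)

theorem n7_583 : NoCfg 7 0xa00080009cc097c091c07880888093c0760097c008c0 0xa4008e80a480a44094c0800090809dc080009fc0099a :=
  pieceG0 good7 c7_583 x7_583

theorem n7_584 : NoCfg 7 0xa00080009cc097c091c0788085409080760097c006b0 0xa7c0a3c0a800af809a80800090809dc08000a3c0099a :=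
  pieceG good7 c7_584 x7_584 (by
    simp only [List.forall_mem_cons, List.not_mem_nil, false_imp_iff, implies_true, and_true]
    exact ⟨n7_583, n7_582⟩)

theorem n7_585 : NoCfg 7 0xa00085809ec09b00944076808d00988079c09bf00920 0xa1808840a1c09dc095c078808f009a007b809c800960 :=
  pieceG0 good7 c7_585 x7_585

theorem n7_586 : NoCfg 7 0xa00085809ec09b00944076808d00980079c09b800920 0xa2c08840a1c09dc095c078808f809a007c409c800960 :=
  pieceG good7 c7_586 x7_586 (by
    simp only [List.forall_mem_cons, List.not_mem_nil, false_imp_iff, implies_true, and_true]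
    exact n7_585)

theorem n7_587 : NoCfg 7 0xa00084409cc09b00944074c08a4097407600998008f0 0xa40089c0a2c09dc09640788090809c407d809e80099a :=
  pieceG good7 c7_587 x7_587 (by
    simp only [List.forall_mem_cons, List.not_mem_nil, false_imp_iff, implies_true, and_true]
    exact n7_586)

theorem n7_588 : NoCfg 7 0xa00080009cc09200938073008a4097407600998008c0 0xa5c08b80a5009b009700788090809dc080009e80099a :=
  pieceG0 good7 c7_588 x7_588

theorem n7_589 : NoCfg 7 0xa00092009cc08240938074c08cc0974079009ac008c0 0xa5c09f40a50085c09680788090809dc080009e80099a :=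
  pieceG0 good7 c7_589 x7_589

theorem n7_590 : NoCfg 7 0xa00092009cc08000938074c08ac097407600998008c0 0xa5c09f40a5008b809780788090809dc080009e80099a :=
  pieceG good7 c7_590 x7_590 (by
    simp only [List.forall_mem_cons, List.not_mem_nil, false_imp_iff, implies_true, and_true]
    exact n7_589)

theorem n7_591 : NoCfg 7 0xa00080009cc0800091c0714088009740760097c00850 0xa7c0a3c0a500a3c09a80788090809dc08000a0c0099a :=
  pieceG good7 c7_591 x7_591 (by
    simp only [List.forall_mem_cons, List.not_mem_nil, false_imp_iff, implies_true, and_true]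
    exact ⟨n7_590, n7_588, n7_587⟩)

theorem n7_592 : NoCfg 7 0xa00080009cc0800091c0788085409080760097c006b0 0xa7c0a3c0a800af809a80800090809dc08000a3c0099a :=
  pieceG good7 c7_592 x7_592 (by
    simp only [List.forall_mem_cons, List.not_mem_nil, false_imp_iff, implies_true, and_true]
    exact n7_584)

theorem n7_593 : NoCfg 7 0xa00080009cc0800091c0714080009dc0760097c006b0 0xa7c0a3c0a800af809a8080009080af808000a3c0099a :=
  pieceG0 good7 c7_593 x7_593

theorem n7_594 : NoCfg 7 0xa00080009140860091c0788084409dc0760097c00850 0xa7c0a3c09cc097c09a8080009080a40080009fc0099a :=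
  pieceG0 good7 c7_594 x7_594

theorem n7_595 : NoCfg 7 0xa00080009140800091c0788084809080760097c006b0 0xa7c08c009cc0af809a80800090809dc08000a3c0099a :=
  pieceG0 good7 c7_595 x7_595

theorem n7_596 : NoCfg 7 0xa00080009140800091c0788080009dc0760097c006b0 0xa7c0af809cc0af809a8080009080af808000a3c0099a :=
  pieceG good7 c7_596 x7_596 (by
    simp only [List.forall_mem_cons, List.not_mem_nil, false_imp_iff, implies_true, and_true]
    exact n7_594)

theorem n7_597 : NoCfg 7 0xa00080009440800091c0714086409dc0760097c00850 0xa7c0a3c09cc0a1809a8078809080a38080009f40099a :=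
  pieceG0 good7 c7_597 x7_597

theorem n7_598 : NoCfg 7 0xa0009200954080009400714088809500760097c008c0 0xa7c0a3c09cc087809a80788090809dc08000a040099a :=
  pieceG0 good7 c7_598 x7_598

theorem n7_599 : NoCfg 7 0xa00080009140800091c0714085409500760097c006b0 0xa7c0a3c09cc0af809a80788090809dc08000a3c0099a :=
  pieceG good7 c7_599 x7_599 (by
    simp only [List.forall_mem_cons, List.not_mem_nil, false_imp_iff, implies_true, and_true]
    exact n7_598)

theorem n7_600 : NoCfg 7 0xa00080009140800091c0788080008c00760097c006b0 0xa7c0af809cc0af809a8080009080af808000a3c0099a :=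
  pieceG good7 c7_600 x7_600 (by
    simp only [List.forall_mem_cons, List.not_mem_nil, false_imp_iff, implies_true, and_true]
    exact ⟨n7_595, n7_596⟩)

theorem n7_601 : NoCfg 7 0xa00080009140800091c0714080008c00760097c006b0 0xa7c0af809cc0af809a8080009080af808000a3c0099a :=
  pieceG good7 c7_601 x7_601 (by
    simp only [List.forall_mem_cons, List.not_mem_nil, false_imp_iff, implies_true, and_true]
    exact ⟨n7_599, n7_597, n7_600⟩)

theorem n7_602 : NoCfg 7 0xa00080009140800091c0714090808000760097c006b0 0xa7c0af80a800af809a808000a0c0af808000a3c0099a :=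
  pieceG good7 c7_602 x7_602 (by
    simp only [List.forall_mem_cons, List.not_mem_nil, false_imp_iff, implies_true, and_true]
    exact ⟨n7_577, n7_573, n7_572, n7_566⟩)

theorem n7_603 : NoCfg 7 0xa00080009140800091c0788080008e006c4097c006b0 0xa7c0a3c099c0af809a80800095009ec07600a3c0099a :=
  pieceG0 good7 c7_603 x7_603

theorem n7_604 : NoCfg 7 0xa000800099c0800091c0788080008e006c4097c006b0 0xa7c0a3c0a240af809a8080009500af807600a3c0099a :=
  pieceG0 good7 c7_604 x7_604

theorem n7_605 : NoCfg 7 0xa00080009140800091c0714080008e006c4097c006b0 0xa7c0a3c0a240af809a8078809500af807600a3c0099a :=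
  pieceG0 good7 c7_605 x7_605

theorem n7_606 : NoCfg 7 0xa00080009140800091c07140800080006c4097c006b0 0xa7c0af80a800af809a808000a0c0af807600a3c0099a :=
  pieceG good7 c7_606 x7_606 (by
    simp only [List.forall_mem_cons, List.not_mem_nil, false_imp_iff, implies_true, and_true]
    exact ⟨n7_605, n7_603, n7_604⟩)

theorem n7_607 : NoCfg 7 0xa00080009140800091c07140800080006c4097c006b0 0xa7c0af80a800af80a3408000a0c0af808000a3c0099a :=
  pieceG good7 c7_607 x7_607 (by
    simp only [List.forall_mem_cons, List.not_mem_nil, false_imp_iff, implies_true, and_true]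
    exact ⟨n7_606, n7_601, n7_591, n7_592, n7_593, n7_602⟩)

theorem n7_608 : NoCfg 7 0x9880800098c080009a80714080008000760097c006b0 0xa000af80a040af80a3408000a0c0af808000a3c0099a :=
  pieceG0 good7 c7_608 x7_608

theorem n7_609 : NoCfg 7 0x9880800098c0800091c0788088409680760097c006b0 0xa0008c00a040af809a80800090809ec08000a0c0099a :=
  pieceG0 good7 c7_609 x7_609

theorem n7_610 : NoCfg 7 0x9880800098c0800091c0788088408e00760097c006b0 0xa000af80a040af809a80800090809ec08000a3c0099a :=
  pieceG good7 c7_610 x7_610 (by
    simp only [List.forall_mem_cons, List.not_mem_nil, false_imp_iff, implies_true, and_true]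
    exact n7_609)

theorem n7_611 : NoCfg 7 0x9880800098c0800091c0788080008000760097c006b0 0xa000af80a040af809a8080009080af808000a3c0099a :=
  pieceG good7 c7_611 x7_611 (by
    simp only [List.forall_mem_cons, List.not_mem_nil, false_imp_iff, implies_true, and_true]
    exact n7_610)

theorem n7_612 : NoCfg 7 0x988097c098c0800091c0714088409680760097c006b0 0xa000af80a04097c09a80788090809ec08000a3c0099a :=
  pieceG0 good7 c7_612 x7_612

theorem n7_613 : NoCfg 7 0x9880800098c0800091c0714088409680760097c006b0 0xa000af80a040af809a80788090809ec08000a3c0099a :=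
  pieceG good7 c7_613 x7_613 (by
    simp only [List.forall_mem_cons, List.not_mem_nil, false_imp_iff, implies_true, and_true]
    exact n7_612)

theorem n7_614 : NoCfg 7 0x9880800098c0800091c0714080008000760097c006b0 0xa000af80a040af809a8078809080af808000a3c0099a :=
  pieceG good7 c7_614 x7_614 (by
    simp only [List.forall_mem_cons, List.not_mem_nil, false_imp_iff, implies_true, and_true]
    exact n7_613)

theorem n7_615 : NoCfg 7 0x9880800098c0800091c0788089408e006c4097c006b0 0xa000af80a040af809a80800092809ec076009e80099a :=
  pieceG0 good7 c7_615 x7_615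

theorem n7_616 : NoCfg 7 0x9880800098c0800091c07880800096806c4097c006b0 0xa000af80a040af809a8080008940a8407600a3c0099a :=
  pieceG0 good7 c7_616 x7_616

theorem n7_617 : NoCfg 7 0x9880800098c0800091c0714089408e006c4097c006b0 0xa000af80a040af809a8080009280af807600a3c0099a :=
  pieceG good7 c7_617 x7_617 (by
    simp only [List.forall_mem_cons, List.not_mem_nil, false_imp_iff, implies_true, and_true]
    exact n7_615)

theorem n7_618 : NoCfg 7 0x9880800098c0800091c0714080008000760097c006b0 0xa000af80a040af809a808000a0c0af808000a3c0099a :=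
  pieceG good7 c7_618 x7_618 (by
    simp only [List.forall_mem_cons, List.not_mem_nil, false_imp_iff, implies_true, and_true]
    exact ⟨n7_614, n7_611⟩)

theorem n7_619 : NoCfg 7 0x984080009140800091c0788088408e00760097c006b0 0xa000af8098c0af80994080009080af808000a3c0099a :=
  pieceG0 good7 c7_619 x7_619

theorem n7_620 : NoCfg 7 0x984080009140800091c0714088408e00760097c006b0 0xa000af8098c0af80994080009080af808000a3c0099a :=
  pieceG good7 c7_620 x7_620 (by
    simp only [List.forall_mem_cons, List.not_mem_nil, false_imp_iff, implies_true, and_true]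
    exact n7_619)

theorem n7_621 : NoCfg 7 0x904080009140800091c0788088408e006c4097c006b0 0xa000af8098c0af80994080009080af8076009f40099a :=
  pieceG0 good7 c7_621 x7_621

theorem n7_622 : NoCfg 7 0x904080009140800091c0714088408e006c4097c006b0 0xa000af8098c0af80994080009080af807600a3c0099a :=
  pieceG good7 c7_622 x7_622 (by
    simp only [List.forall_mem_cons, List.not_mem_nil, false_imp_iff, implies_true, and_true]
    exact n7_621)

theorem n7_623 : NoCfg 7 0x944080009140800091c07880800096806c4097c006b0 0xa000af8098c0af80994080008840a3007600a3c0099a :=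
  pieceG0 good7 c7_623 x7_623

theorem n7_624 : NoCfg 7 0x904080009140800091c07140800096806c4097c006b0 0xa000af8098c0af80994080008840a3008000a3c0099a :=
  pieceG good7 c7_624 x7_624 (by
    simp only [List.forall_mem_cons, List.not_mem_nil, false_imp_iff, implies_true, and_true]
    exact n7_623)

theorem n7_625 : NoCfg 7 0x904080009140800091c0714080008e006c4097c006b0 0xa000af8098c0af80994080008840af808000a3c0099a :=
  pieceG good7 c7_625 x7_625 (by
    simp only [List.forall_mem_cons, List.not_mem_nil, false_imp_iff, implies_true, and_true]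
    exact n7_624)

theorem n7_626 : NoCfg 7 0x904080009140800091c07140908080006c4097c006b0 0xa000af8098c0af8099408000a0c0af808000a3c0099a :=
  pieceG0 good7 c7_626 x7_626

theorem n7_627 : NoCfg 7 0x9040800098c0800091c07140800080006c4097c006b0 0xa000af80a040af80a3408000a0c0af808000a3c0099a :=
  pieceG good7 c7_627 x7_627 (by
    simp only [List.forall_mem_cons, List.not_mem_nil, false_imp_iff, implies_true, and_true]
    exact ⟨n7_616, n7_617, n7_618, n7_608⟩)

theorem n7_628 : NoCfg 7 0xa00080009140800091c07140800080006c4097c006b0 0xaf80af80a800af80a3408000a0c0af808000a3c0099a :=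
  pieceG good7 c7_628 x7_628 (by
    simp only [List.forall_mem_cons, List.not_mem_nil, false_imp_iff, implies_true, and_true]
    exact ⟨n7_607, n7_565, n7_564⟩)

theorem n7_629 : NoCfg 7 0x904080009140800091c0788080008e0075808c0006b0 0xa7c0af80a140af809e0080009080af80800097c0099a :=
  pieceG0 good7 c7_629 x7_629

theorem n7_630 : NoCfg 7 0x904080009140800091c071408000800075808c0006b0 0xa7c0af80a140af809e0078809080af80800097c0099a :=
  pieceG0 good7 c7_630 x7_630

theorem n7_631 : NoCfg 7 0xa00080009140800091c0788080008c006b008c0006b0 0xaa00a3c099c0af809f0080009700af80758097c0099a :=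
  pieceG0 good7 c7_631 x7_631

theorem n7_632 : NoCfg 7 0xa00080009140800091c07140800080006b008c0006b0 0xaa00a3c0a200af809f0080009700af80758097c0099a :=
  pieceG good7 c7_632 x7_632 (by
    simp only [List.forall_mem_cons, List.not_mem_nil, false_imp_iff, implies_true, and_true]
    exact n7_631)

theorem n7_633 : NoCfg 7 0x9900800099c0800091c07140800080006b008c0006b0 0xa000af80a200af809f0080008a40af80758097c0099a :=
  pieceG0 good7 c7_633 x7_633

theorem n7_634 : NoCfg 7 0x984080009140800091c0788080008e006b008c0006b0 0xa000af8099c0af809a0080008840af80758097c0099a :=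
  pieceG0 good7 c7_634 x7_634

theorem n7_635 : NoCfg 7 0x904080009140800091c0788080008e006b008c0006b0 0x9840af8099c0af809a0080009080af80758097c0099a :=
  pieceG0 good7 c7_635 x7_635

theorem n7_636 : NoCfg 7 0x904080009140800091c0714080008e006b008c0006b0 0xa000af8099c0af809a0078809080af80758097c0099a :=
  pieceG0 good7 c7_636 x7_636

theorem n7_637 : NoCfg 7 0x904080009140800091c07140800080006b008c0006b0 0xa000af8099c0af809a0080009080af80758097c0099a :=
  pieceG good7 c7_637 x7_637 (by
    simp only [List.forall_mem_cons, List.not_mem_nil, false_imp_iff, implies_true, and_true]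
    exact ⟨n7_636, n7_635, n7_634⟩)

theorem n7_638 : NoCfg 7 0x9040800099c0800091c07140800080006b008c0006b0 0xa000af80a200af809f008000a0c0af80758097c0099a :=
  pieceG good7 c7_638 x7_638 (by
    simp only [List.forall_mem_cons, List.not_mem_nil, false_imp_iff, implies_true, and_true]
    exact n7_633)

theorem n7_639 : NoCfg 7 0x904080009140800091c071408000800075808c0006b0 0xaf80af80a800af80a3408000a0c0af80800097c0099a :=
  pieceG good7 c7_639 x7_639 (by
    simp only [List.forall_mem_cons, List.not_mem_nil, false_imp_iff, implies_true, and_true]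
    exact ⟨n7_630, n7_629⟩)

theorem n7_640 : NoCfg 7 0x904080009140800091c071408000800064008c0006b0 0xaf80af80a800af80a3408000a0c0af80800097c0099a :=
  pieceG good7 c7_640 x7_640 (by
    simp only [List.forall_mem_cons, List.not_mem_nil, false_imp_iff, implies_true, and_true]
    exact ⟨n7_637, n7_638, n7_632, n7_639⟩)

theorem n7_641 : NoCfg 7 0x904080009140800091c0714080008000640097c006b0 0xaf80af80a800af80a3408000a0c0af808000af80099a :=
  pieceG good7 c7_641 x7_641 (by
    simp only [List.forall_mem_cons, List.not_mem_nil, false_imp_iff, implies_true, and_true]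
    exact ⟨n7_625, n7_622, n7_620, n7_626, n7_627, n7_628⟩)

theorem n7_642 : NoCfg 7 0xa00080009700800091c06ac09080800076c095c00870 0xabc09fc09cc0a2c09f00714098c0a3c08000a240099a :=
  pieceG0 good7 c7_642 x7_642

theorem n7_643 : NoCfg 7 0x904080009cc0800091c066c090808000720095c006b0 0xaf80af80a800af809f00714098c0af808000a240099a :=
  pieceG0 good7 c7_643 x7_643

theorem n7_644 : NoCfg 7 0x904080009140800091c066c0908080007200904006b0 0xaf80af80a800af809f00714098c0af808000a640099a :=
  pieceG good7 c7_644 x7_644 (by
    simp only [List.forall_mem_cons, List.not_mem_nil, false_imp_iff, implies_true, and_true]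
    exact ⟨n7_642, n7_643⟩)

theorem n7_645 : NoCfg 7 0x904080009140800091c066c0800080007200904006b0 0xaf80af80a800af809f007140a0c0af808000a640099a :=
  pieceG good7 c7_645 x7_645 (by
    simp only [List.forall_mem_cons, List.not_mem_nil, false_imp_iff, implies_true, and_true]
    exact n7_644)

theorem n7_646 : NoCfg 7 0x800080008000800089006280800080006400800006b0 0xaf80af80a800af8091c0714092c0af808000af80099a :=
  pieceG0 good7 c7_646 x7_646

theorem n7_647 : NoCfg 7 0x800080008000800080006280800080006400800006b0 0xaf80af80a800af8091c08000a0c0af808000af80099a :=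
  pieceG good7 c7_647 x7_647 (by
    simp only [List.forall_mem_cons, List.not_mem_nil, false_imp_iff, implies_true, and_true]
    exact n7_646)

theorem n7_648 : NoCfg 7 0x800080008000800080006280800080006400800006b0 0xc800c800a800c800a3408000a0c0c8008000c800099a :=
  pieceG good7 c7_648 x7_648 (by
    simp only [List.forall_mem_cons, List.not_mem_nil, false_imp_iff, implies_true, and_true]
    exact ⟨n7_647, n7_645, n7_640, n7_641⟩)

theorem n7_649 : NoCfg 7 0x904075809140800091c06980908080007440964007f0 0xaf808000a800aac0a34074c0a0c0aac08000a200099a :=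
  pieceG0 good7 c7_649 x7_649

theorem n7_650 : NoCfg 7 0x904075809140800091c06980908080007040964007f0 0xaf808000a800aac0a3408000a0c0aac08000a6c0099a :=
  pieceG good7 c7_650 x7_650 (by
    simp only [List.forall_mem_cons, List.not_mem_nil, false_imp_iff, implies_true, and_true]
    exact n7_649)

theorem n7_651 : NoCfg 7 0x904060c09140800091c05f40800080006b00964007f0 0xaf808000a800aac0a3408000a0c0aac08000ac40099a :=
  pieceG good7 c7_651 x7_651 (by
    simp only [List.forall_mem_cons, List.not_mem_nil, false_imp_iff, implies_true, and_true]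
    exact n7_650)

theorem n7_652 : NoCfg 7 0x800060c08000800080005f40800080006400800006b0 0x97c08000a800aac091c0800092c0aac080009640099a :=
  pieceG0 good7 c7_652 x7_652

theorem n7_653 : NoCfg 7 0x800060c08000800080005f40800080006400800006b0 0xaf808000a800aac091c08000a0c0aac08000ac40099a :=
  pieceG good7 c7_653 x7_653 (by
    simp only [List.forall_mem_cons, List.not_mem_nil, false_imp_iff, implies_true, and_true]
    exact n7_652)

theorem n7_654 : NoCfg 7 0x80003800800080008000380080008000380080000487 0xc8008000c800c800c8008000c800c8008000c800099a :=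
  pieceG good7 c7_654 x7_654 (by
    simp only [List.forall_mem_cons, List.not_mem_nil, false_imp_iff, implies_true, and_true]
    exact ⟨n7_653, n7_651⟩)

theorem n7_655 : NoCfg 7 0x9100800091406ac091c0698090808000780096400810 0xaf80a940a8008000a3408000a0c0aac08000a140099a :=
  pieceG0 good7 c7_655 x7_655

theorem n7_656 : NoCfg 7 0x800080008000604080005f40800080006400800006b0 0xaf80a940a800800091c0800092c0aac080009640099a :=
  pieceG0 good7 c7_656 x7_656

theorem n7_657 : NoCfg 7 0x800080008000604091c05f40800080006400800006b0 0xaf80a940a8008000a3408000a0c0aac08000ac40099a :=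
  pieceG good7 c7_657 x7_657 (by
    simp only [List.forall_mem_cons, List.not_mem_nil, false_imp_iff, implies_true, and_true]
    exact n7_655)

theorem n7_658 : NoCfg 7 0x800060c0800060c0800060c080008000654080000487 0xc8008000c8008000a2c080009ec0a2c08000c800099a :=
  pieceG0 good7 c7_658 x7_658

theorem n7_659 : NoCfg 7 0x80003800800038008000380080008000380080000487 0xc800c800c8008000c8008000c800c8008000c800099a :=
  pieceG good7 c7_659 x7_659 (by
    simp only [List.forall_mem_cons, List.not_mem_nil, false_imp_iff, implies_true, and_true]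
    exact ⟨n7_658, n7_656, n7_657⟩)

theorem n7_660 : NoCfg 7 0x800080008000800080006180800080006500700006f0 0xac40a540a440a540a00080009cc0a90080008000099a :=
  pieceG0 good7 c7_660 x7_660

theorem n7_661 : NoCfg 7 0x800061809240800080005f40800092406500700006f0 0xac408000a440a2c0a0c080009cc0a44074808000099a :=
  pieceG0 good7 c7_661 x7_661

theorem n7_662 : NoCfg 7 0x800061808000800080005f40800080006500600006f0 0xc8008000a440a2c0a0c080009cc0a44080008000099a :=
  pieceG good7 c7_662 x7_662 (by
    simp only [List.forall_mem_cons, List.not_mem_nil, false_imp_iff, implies_true, and_true]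
    exact n7_661)

theorem n7_663 : NoCfg 7 0x80008000800080008000380080008000380038000487 0xc800c800c800c800c8008000c800c80080008000099a :=
  pieceG good7 c7_663 x7_663 (by
    simp only [List.forall_mem_cons, List.not_mem_nil, false_imp_iff, implies_true, and_true]
    exact n7_660)

theorem n7_664 : NoCfg 7 0x964080008000618080006100800091406500700006f0 0xac40a0c0a4408000a0c080009cc0a24074808000099a :=
  pieceG0 good7 c7_664 x7_664

theorem n7_665 : NoCfg 7 0x800080008000618080006100800080006500600006f0 0xac40a0c0a4408000a0c080009cc0a24080008000099a :=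
  pieceG good7 c7_665 x7_665 (by
    simp only [List.forall_mem_cons, List.not_mem_nil, false_imp_iff, implies_true, and_true]
    exact n7_664)

theorem n7_666 : NoCfg 7 0x80003800800038008000380080008000380038000487 0xc8008000c8008000c8008000c800c80080008000099a :=
  pieceG0 good7 c7_666 x7_666

theorem n7_667 : NoCfg 7 0x80003800800038008000380080008000380038000487 0xc800c800c800c800c8008000c800c80080008000099a :=
  pieceG good7 c7_667 x7_667 (by
    simp only [List.forall_mem_cons, List.not_mem_nil, false_imp_iff, implies_true, and_true]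
    exact ⟨n7_666, n7_665, n7_662, n7_663⟩)

theorem n7_668 : NoCfg 7 0x9b0080009bc080008f40800090807840770097c006b0 0xa540af80a800af809d40af809cc080008000a0c0099a :=
  pieceG0 good7 c7_668 x7_668

theorem n7_669 : NoCfg 7 0x9b0080009bc080008f408000908070c0770097c006b0 0xa540af80a800af809d40af809cc078408000a0c0099a :=
  pieceG0 good7 c7_669 x7_669

theorem n7_670 : NoCfg 7 0x9b0080009bc080008f408000908070c0714097c006b0 0xaf80af80a800af80a340af80a0c080008000a0c0099a :=
  pieceG good7 c7_670 x7_670 (by
    simp only [List.forall_mem_cons, List.not_mem_nil, false_imp_iff, implies_true, and_true]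
    exact ⟨n7_669, n7_668⟩)

theorem n7_671 : NoCfg 7 0xa00080008f8080008f40800090807840788097c006b0 0xa7c0af809bc0af809c40af809c0080008000a140099a :=
  pieceG0 good7 c7_671 x7_671

theorem n7_672 : NoCfg 7 0x904080008f8080008f40800090807840714097c006b0 0xa000af809bc0af809c40af809c0080008000a140099a :=
  pieceG0 good7 c7_672 x7_672

theorem n7_673 : NoCfg 7 0xa0008000928080008f4097c0908070c0788097c006b0 0xa7c0af809bc0af809c40af809c0078408000a200099a :=
  pieceG0 good7 c7_673 x7_673

theorem n7_674 : NoCfg 7 0xa7c08000928080008f408000908070c0788097c006b0 0xaf80af809bc0af809c40af809c0078408000a200099a :=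
  pieceG0 good7 c7_674 x7_674

theorem n7_675 : NoCfg 7 0x90408000928080008f408000908070c0788097c006b0 0xaf80af809bc0af809c40af809c0078408000a200099a :=
  pieceG good7 c7_675 x7_675 (by
    simp only [List.forall_mem_cons, List.not_mem_nil, false_imp_iff, implies_true, and_true]
    exact ⟨n7_673, n7_674⟩)

theorem n7_676 : NoCfg 7 0x904080008f8080008f40800090807840714097c006b0 0xaf80af809bc0af809c40af809c0080008000a540099a :=
  pieceG good7 c7_676 x7_676 (by
    simp only [List.forall_mem_cons, List.not_mem_nil, false_imp_iff, implies_true, and_true]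
    exact ⟨n7_672, n7_671⟩)

theorem n7_677 : NoCfg 7 0x904080008f8080008f408000908070c075808c0006b0 0xaf80af80a800af80a340af809cc08000800097c0099a :=
  pieceG0 good7 c7_677 x7_677

theorem n7_678 : NoCfg 7 0x904080008f8080008f408000908070c06b00800006b0 0xaf80af80a800af80a340af80a0c08000800097c0099a :=
  pieceG good7 c7_678 x7_678 (by
    simp only [List.forall_mem_cons, List.not_mem_nil, false_imp_iff, implies_true, and_true]
    exact n7_677)

theorem n7_679 : NoCfg 7 0xa00080008f8080008f40800090806940790098000830 0xabc0a3c09bc0a3c0a340a3c09cc070c08000a3c0099a :=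
  pieceG0 good7 c7_679 x7_679

theorem n7_680 : NoCfg 7 0x904080008f8080008f40800090806940790098000830 0xa000a3c0a800a3c0a340a3c09cc070c08000a3c0099a :=
  pieceG0 good7 c7_680 x7_680

theorem n7_681 : NoCfg 7 0x904080008f8080008f408000908061806b00800006b0 0xaf80af80a800af80a340af80a0c070c08000af80099a :=
  pieceG good7 c7_681 x7_681 (by
    simp only [List.forall_mem_cons, List.not_mem_nil, false_imp_iff, implies_true, and_true]
    exact ⟨n7_680, n7_679⟩)

theorem n7_682 : NoCfg 7 0x800080008000800080008000884061806400800006b0 0xaf80af80a800af80a340af80908080008000af80099a :=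
  pieceG0 good7 c7_682 x7_682

theorem n7_683 : NoCfg 7 0x800080008000800080008000800061806400800006b0 0xaf80af80a800af80a340af80908080008000af80099a :=
  pieceG good7 c7_683 x7_683 (by
    simp only [List.forall_mem_cons, List.not_mem_nil, false_imp_iff, implies_true, and_true]
    exact n7_682)

theorem n7_684 : NoCfg 7 0x80008000800080008000800080006180640080000487 0xc800c800c800c800a340c800a0c080008000c800099a :=
  pieceG good7 c7_684 x7_684 (by
    simp only [List.forall_mem_cons, List.not_mem_nil, false_imp_iff, implies_true, and_true]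
    exact ⟨n7_683, n7_681, n7_678, n7_675, n7_676, n7_670⟩)

theorem n7_685 : NoCfg 7 0xa0407480900080008f8080008fc074807680980007d0 0xa8008000a800aac0a340ac409ac080008000a200099a :=
  pieceG0 good7 c7_685 x7_685

theorem n7_686 : NoCfg 7 0x95c07480900080008f8080008fc069007740988007d0 0xaf808000a800aac09980ac409f4074808000a200099a :=
  pieceG0 good7 c7_686 x7_686

theorem n7_687 : NoCfg 7 0x8c0060c0900080008f8080008fc05f406b00948006b0 0xaf808000a800aac0a340ac409f4080008000a900099a :=
  pieceG good7 c7_687 x7_687 (by
    simp only [List.forall_mem_cons, List.not_mem_nil, false_imp_iff, implies_true, and_true]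
    exact ⟨n7_686, n7_685⟩)

theorem n7_688 : NoCfg 7 0x80006880800080008000800080005f406400800006b0 0xaf8080009d40a00099c0a08097806f8071008a40099a :=
  pieceG0 good7 c7_688 x7_688

theorem n7_689 : NoCfg 7 0x800060c0800080008000800080005f406400800006b0 0xaf808000a800aac0a340ac409f40800079009480099a :=
  pieceG good7 c7_689 x7_689 (by
    simp only [List.forall_mem_cons, List.not_mem_nil, false_imp_iff, implies_true, and_true]
    exact n7_688)

theorem n7_690 : NoCfg 7 0x800060c0800080008000800080005f406400800006b0 0xc8008000a800c800a340c8009f4080008000c800099a :=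
  pieceG good7 c7_690 x7_690 (by
    simp only [List.forall_mem_cons, List.not_mem_nil, false_imp_iff, implies_true, and_true]
    exact ⟨n7_689, n7_687⟩)

theorem n7_691 : NoCfg 7 0x9580800093805f808000800090405e0071c094000830 0xaf80a900a8008000a200a900a08080008000a800099a :=
  pieceG0 good7 c7_691 x7_691

theorem n7_692 : NoCfg 7 0x800080008ac06b008000800080005e0064c0800006b0 0xaf809d00a0008000a200a9009040760079409400099a :=
  pieceG0 good7 c7_692 x7_692

theorem n7_693 : NoCfg 7 0x8000800080005f808000800080005e0064c0800006b0 0xc800c800a8008000a200a900a08080008000a800099a :=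
  pieceG good7 c7_693 x7_693 (by
    simp only [List.forall_mem_cons, List.not_mem_nil, false_imp_iff, implies_true, and_true]
    exact ⟨n7_692, n7_691⟩)

theorem n7_694 : NoCfg 7 0x800060c0800060c08000800080005f4066c080000487 0xc8008000c8008000c800c8009f4080008000c800099a :=
  pieceG0 good7 c7_694 x7_694

theorem n7_695 : NoCfg 7 0x80003800800038008000800080003800380080000487 0xc800c800c8008000c800c800c80080008000c800099a :=
  pieceG good7 c7_695 x7_695 (by
    simp only [List.forall_mem_cons, List.not_mem_nil, false_imp_iff, implies_true, and_true]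
    exact ⟨n7_694, n7_693⟩)

theorem n7_696 : NoCfg 7 0x80008000800080008000800080006000650060000487 0xc800c800c800c800c800c8009cc0800080008000099a :=
  pieceG0 good7 c7_696 x7_696

theorem n7_697 : NoCfg 7 0x800061808000800080008000800060006500620006f0 0xac408000a440a2409e80a2409cc0800072808000099a :=
  pieceG0 good7 c7_697 x7_697

theorem n7_698 : NoCfg 7 0x800080008000618080008000800060006500620006f0 0xc800a0c0a44080009e80a2409c80800080008000099a :=
  pieceG0 good7 c7_698 x7_698

theorem n7_699 : NoCfg 7 0x80003800800080008000800080003800380038000487 0xc800c800c800c800c800c800c800800080008000099a :=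
  pieceG good7 c7_699 x7_699 (by
    simp only [List.forall_mem_cons, List.not_mem_nil, false_imp_iff, implies_true, and_true]
    exact ⟨n7_697, n7_696⟩)

theorem n7_700 : NoCfg 7 0x80003800800038008000800080003800380038000487 0xc800c800c800c800c800c800c800800080008000099a :=
  pieceG good7 c7_700 x7_700 (by
    simp only [List.forall_mem_cons, List.not_mem_nil, false_imp_iff, implies_true, and_true]
    exact ⟨n7_698, n7_699⟩)

theorem n7_701 : NoCfg 7 0x800080008000800080005f8080005e0064c0940006b0 0xaf80a900a680a900a2008000a08080008000a800099a :=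
  pieceG0 good7 c7_701 x7_701

theorem n7_702 : NoCfg 7 0x800080008000800080005f8080005e0064c080000487 0xc800c800c800c800c8008000a08080008000c800099a :=
  pieceG good7 c7_702 x7_702 (by
    simp only [List.forall_mem_cons, List.not_mem_nil, false_imp_iff, implies_true, and_true]
    exact n7_701)

theorem n7_703 : NoCfg 7 0x8000380080008000800038008000380066c080000487 0xc8008000c800c800c80080009f4080008000c800099a :=
  pieceG0 good7 c7_703 x7_703

theorem n7_704 : NoCfg 7 0x8000800080003800800038008000380066c080000487 0xc800c800c8008000c80080009f4080008000c800099a :=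
  pieceG0 good7 c7_704 x7_704

theorem n7_705 : NoCfg 7 0x80008000800080008000380080003800380038000487 0xc800c800c800c800c8008000c800800080008000099a :=
  pieceG0 good7 c7_705 x7_705

theorem n7_706 : NoCfg 7 0x80003800800038008000380080003800380080000487 0xc800c800c800c800c8008000c80080008000c800099a :=
  pieceG good7 c7_706 x7_706 (by
    simp only [List.forall_mem_cons, List.not_mem_nil, false_imp_iff, implies_true, and_true]
    exact ⟨n7_704, n7_703, n7_702⟩)

theorem n7_707 : NoCfg 7 0x80003800800038008000800080003800380038000487 0xc800c800c800c800c800c800c80080008000c800099a :=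
  pieceG good7 c7_707 x7_707 (by
    simp only [List.forall_mem_cons, List.not_mem_nil, false_imp_iff, implies_true, and_true]
    exact ⟨n7_700, n7_695, n7_690, n7_684⟩)

theorem n7_708 : NoCfg 7 0x80003800800038008000380080008000380038000487 0xc800c800c800c800c800c800c800c8008000c800099a :=
  pieceG good7 c7_708 x7_708 (by
    simp only [List.forall_mem_cons, List.not_mem_nil, false_imp_iff, implies_true, and_true]
    exact ⟨n7_667, n7_659, n7_654, n7_648, n7_562, n7_558, n7_557, n7_563⟩)

theorem n7_709 : NoCfg 7 0x38003800800038008000800080008000380038000487 0x8000c800c800c800c800c800c800c8008000c800099a :=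
  pieceG0 good7 c7_709 x7_709

theorem n7_710 : NoCfg 7 0x38003800800038008000380080003800380038000487 0x8000c800c800c800c800c800c80080008000c800099a :=
  pieceG0 good7 c7_710 x7_710

theorem n7_711 : NoCfg 7 0x80008000380038008000800080008000380080000487 0xc800c8008000c800c800c800c800c8008000c800099a :=
  pieceG0 good7 c7_711 x7_711

theorem n7_712 : NoCfg 7 0x80003800380038008000800080008000380038000487 0xc800c8008000c800c800c800c800c8008000c800099a :=
  pieceG good7 c7_712 x7_712 (by
    simp only [List.forall_mem_cons, List.not_mem_nil, false_imp_iff, implies_true, and_true]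
    exact n7_711)

theorem n7_713 : NoCfg 7 0x80003800380038008000800080003800380038000487 0xc800c8008000c800c800c800c80080008000c800099a :=
  pieceG0 good7 c7_713 x7_713

theorem n7_714 : NoCfg 7 0x80003800380038008000380080008000380038000487 0xc800c8008000c800c800c800c800c8008000c800099a :=
  pieceG good7 c7_714 x7_714 (by
    simp only [List.forall_mem_cons, List.not_mem_nil, false_imp_iff, implies_true, and_true]
    exact n7_712)

theorem n7_715 : NoCfg 7 0x38003800380080008000380080003800380080000487 0x8000c8008000c800c800c800c800c8008000c800099a :=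
  pieceG0 good7 c7_715 x7_715

theorem n7_716 : NoCfg 7 0x38003800380038008000380080003800380038000487 0x8000c8008000c800c800c800c800c80080008000099a :=
  pieceG0 good7 c7_716 x7_716

theorem n7_717 : NoCfg 7 0x38003800800038008000380080003800380038000487 0xc800c800c800c800c800c800c800c8008000c800099a :=
  pieceG good7 c7_717 x7_717 (by
    simp only [List.forall_mem_cons, List.not_mem_nil, false_imp_iff, implies_true, and_true]
    exact ⟨n7_710, n7_709, n7_705, n7_706, n7_707, n7_708⟩)

theorem n7_718 : NoCfg 7 0x91008000914080007e00938080009540634095400730 0xa580b1409e40b2c08000b8808400b9008000b480099a :=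
  pieceG0 good7 c7_718 x7_718

theorem n7_719 : NoCfg 7 0x91008000914080007e0093808000954067808bc006b0 0x9b4098c09d80b2c08000b8808400b90071809540099a :=
  pieceG0 good7 c7_719 x7_719

theorem n7_720 : NoCfg 7 0x91008000914080007e0093808000954063407c0006b0 0xa580b1409d80b2c08000b8808400b90080009540099a :=
  pieceG good7 c7_720 x7_720 (by
    simp only [List.forall_mem_cons, List.not_mem_nil, false_imp_iff, implies_true, and_true]
    exact n7_719)

theorem n7_721 : NoCfg 7 0x92c0800080009b007e00938080009540634095400487 0xa5809a409140b6008000b8808400b9008000c800099a :=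
  pieceG0 good7 c7_721 x7_721

theorem n7_722 : NoCfg 7 0x92c08000800080007e00938080009540634062800487 0xa580c8009140c8008000b8808400b9008000c800099a :=
  pieceG good7 c7_722 x7_722 (by
    simp only [List.forall_mem_cons, List.not_mem_nil, false_imp_iff, implies_true, and_true]
    exact n7_721)

theorem n7_723 : NoCfg 7 0x80008000800080007e00938080009540634062800487 0xa580c8009140c8008000b8808400b9008000c800099a :=
  pieceG good7 c7_723 x7_723 (by
    simp only [List.forall_mem_cons, List.not_mem_nil, false_imp_iff, implies_true, and_true]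
    exact n7_722)

theorem n7_724 : NoCfg 7 0x80003800800080005c00800080008000380038000487 0xc8008000c800c8008000c800c800c8008000c800099a :=
  pieceG0 good7 c7_724 x7_724

theorem n7_725 : NoCfg 7 0x80003800800038005c00800080008000380038000487 0xc800c800c80080008000c800c800c8008000c800099a :=
  pieceG0 good7 c7_725 x7_725

theorem n7_726 : NoCfg 7 0x80003800800080005c00380080008000380080000487 0xc800c800c800c80080008000c800c8008000c800099a :=
  pieceG0 good7 c7_726 x7_726

theorem n7_727 : NoCfg 7 0x80008000800038005c00380080008000380038000487 0xc800c800c800800080008000c800c8008000c800099a :=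
  pieceG0 good7 c7_727 x7_727

theorem n7_728 : NoCfg 7 0x80003800800038005c00380080008000380038000487 0xc800c800c800c80080008000c800c8008000c800099a :=
  pieceG good7 c7_728 x7_728 (by
    simp only [List.forall_mem_cons, List.not_mem_nil, false_imp_iff, implies_true, and_true]
    exact ⟨n7_727, n7_726⟩)

theorem n7_729 : NoCfg 7 0x80003800800080005c00800080003800380038000487 0xc8008000c800c8008000c800c80080008000c800099a :=
  pieceG0 good7 c7_729 x7_729

theorem n7_730 : NoCfg 7 0x80003800800038005c00800080003800380080000487 0xc800c800c80080008000c800c80080008000c800099a :=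
  pieceG0 good7 c7_730 x7_730

theorem n7_731 : NoCfg 7 0x80003800800038005c00800080003800380038000487 0xc800c800c80080008000c800c80080008000c800099a :=
  pieceG good7 c7_731 x7_731 (by
    simp only [List.forall_mem_cons, List.not_mem_nil, false_imp_iff, implies_true, and_true]
    exact n7_730)

theorem n7_732 : NoCfg 7 0x80003800800038005c00380080003800380038000487 0xc800c800c800c8008000c800c80080008000c800099a :=
  pieceG good7 c7_732 x7_732 (by
    simp only [List.forall_mem_cons, List.not_mem_nil, false_imp_iff, implies_true, and_true]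
    exact ⟨n7_731, n7_729⟩)

theorem n7_733 : NoCfg 7 0x38003800800038005c00800080003800380038000487 0x8000c800c800c8008000c800c800c8008000c800099a :=
  pieceG0 good7 c7_733 x7_733

theorem n7_734 : NoCfg 7 0x80003800800038005c00380080003800380038000487 0xc800c800c800c8008000c800c800c8008000c800099a :=
  pieceG good7 c7_734 x7_734 (by
    simp only [List.forall_mem_cons, List.not_mem_nil, false_imp_iff, implies_true, and_true]
    exact ⟨n7_732, n7_728, n7_725, n7_724, n7_723, n7_720, n7_718⟩)

theorem n7_735 : NoCfg 7 0x80003800380038005c00800080003800380080000487 0xc800c8008000c8008000c800c800c8008000c800099a :=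
  pieceG0 good7 c7_735 x7_735

theorem n7_736 : NoCfg 7 0x38003800380038005c00800080003800380038000487 0x8000c8008000c8008000c800c800c8008000c800099a :=
  pieceG0 good7 c7_736 x7_736

theorem n7_737 : NoCfg 7 0x80003800380038005c00380080003800380038000487 0xc800c8008000c8008000c800c800c8008000c800099a :=
  pieceG good7 c7_737 x7_737 (by
    simp only [List.forall_mem_cons, List.not_mem_nil, false_imp_iff, implies_true, and_true]
    exact n7_735)

theorem n7_738 : NoCfg 7 0x38003800380038005c00380080003800380038000487 0xc800c8008000c8008000c800c800c8008000c800099a :=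
  pieceG good7 c7_738 x7_738 (by
    simp only [List.forall_mem_cons, List.not_mem_nil, false_imp_iff, implies_true, and_true]
    exact ⟨n7_736, n7_737⟩)

theorem n7_739 : NoCfg 7 0x38003800380038008000380080003800380038000487 0xc800c800c800c800c800c800c800c8008000c800099a :=
  pieceG good7 c7_739 x7_739 (by
    simp only [List.forall_mem_cons, List.not_mem_nil, false_imp_iff, implies_true, and_true]
    exact ⟨n7_716, n7_715, n7_713, n7_714, n7_717⟩)

theorem n7_740 : NoCfg 7 0x9d8080008ec080008fc0800073008f8073c0914006b0 0xac40b1409a40b1409ac0b1408000b1408000a200099a :=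
  pieceG0 good7 c7_740 x7_740

theorem n7_741 : NoCfg 7 0x9d808c808ec080008fc0800073008f806780800006b0 0xa7c098c09740b1409b80b1408000b14073c0b2c0099a :=
  pieceG0 good7 c7_741 x7_741

theorem n7_742 : NoCfg 7 0x9d8080008ec080008fc0800073008f806780800006b0 0xa7c0b1409740b1409b80b1408000b14073c0b2c0099a :=
  pieceG good7 c7_742 x7_742 (by
    simp only [List.forall_mem_cons, List.not_mem_nil, false_imp_iff, implies_true, and_true]
    exact n7_741)

theorem n7_743 : NoCfg 7 0x9d8080008ec080008fc0800073008f806780800006b0 0xac40b140a580b1409f40b1408000b14073c0b2c0099a :=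
  pieceG good7 c7_743 x7_743 (by
    simp only [List.forall_mem_cons, List.not_mem_nil, false_imp_iff, implies_true, and_true]
    exact n7_742)

theorem n7_744 : NoCfg 7 0x97008000974080009780800073008f806900800006b0 0x9d80b1409dc0b1409f40b1408000b1407480b2c0099a :=
  pieceG0 good7 c7_744 x7_744

theorem n7_745 : NoCfg 7 0x8ec080008ec080008fc080007780a08077c0938006b0 0x9d80b1409dc0b1409780b1408000b1408000b2c0099a :=
  pieceG0 good7 c7_745 x7_745

theorem n7_746 : NoCfg 7 0x8ec080008ec080008fc0800073008f806f80998006b0 0x9d80b1409dc0b1409780b1408000a08077c0a640099a :=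
  pieceG0 good7 c7_746 x7_746

theorem n7_747 : NoCfg 7 0x8ec080008ec080008fc08000730098006f80914006b0 0x9d80b1409640b1409780b1408000a4c077c09980099a :=
  pieceG0 good7 c7_747 x7_747

theorem n7_748 : NoCfg 7 0x8ec08000964080008fc08000730098006f80914006b0 0x9d80b1409dc0b1409780b1408000b14077c09980099a :=
  pieceG0 good7 c7_748 x7_748

theorem n7_749 : NoCfg 7 0x8ec080008ec080008fc0800073009b006f8088c006b0 0x9d80b1409640b1409780b1408000aac077c09140099a :=
  pieceG0 good7 c7_749 x7_749

theorem n7_750 : NoCfg 7 0x8ec080008ec080008fc0800073008f806f80914006b0 0x9d80b1409dc0b1409780b1408000b14077c09980099a :=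
  pieceG good7 c7_750 x7_750 (by
    simp only [List.forall_mem_cons, List.not_mem_nil, false_imp_iff, implies_true, and_true]
    exact ⟨n7_747, n7_748⟩)

theorem n7_751 : NoCfg 7 0x8ec080008ec080008fc0800073008f806f80998006b0 0x9d80b1409dc0b1409780b1408000b14077c0b2c0099a :=
  pieceG good7 c7_751 x7_751 (by
    simp only [List.forall_mem_cons, List.not_mem_nil, false_imp_iff, implies_true, and_true]
    exact n7_746)

theorem n7_752 : NoCfg 7 0x8ec080008ec080008fc0800073008f8077c0800006b0 0x9d80b1409dc0b1409780b1408000b1408000b2c0099a :=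
  pieceG good7 c7_752 x7_752 (by
    simp only [List.forall_mem_cons, List.not_mem_nil, false_imp_iff, implies_true, and_true]
    exact n7_745)

theorem n7_753 : NoCfg 7 0x8ec080008ec080008fc0800073009b806400998006b0 0x9d80b1409dc0b1409780b1408000a7406f80a200099a :=
  pieceG0 good7 c7_753 x7_753

theorem n7_754 : NoCfg 7 0x95c08000964080008fc0800073008f8064008cc006b0 0x9d80b1409dc0b1409780b1408000a0806f809980099a :=
  pieceG0 good7 c7_754 x7_754

theorem n7_755 : NoCfg 7 0x8ec080008ec080008fc098c07300948064008cc006b0 0x9d80b1409640b1409780b1408000a0806f809980099a :=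
  pieceG0 good7 c7_755 x7_755

theorem n7_756 : NoCfg 7 0x8ec080008ec080008fc080007300a08064008cc006b0 0x9d80b1409640b1409780b1408000b1406f809980099a :=
  pieceG0 good7 c7_756 x7_756

theorem n7_757 : NoCfg 7 0x8ec080008ec080008fc0800073009f406400800006b0 0x9d80b1409640b1409780b1408000a8c06f808cc0099a :=
  pieceG0 good7 c7_757 x7_757

theorem n7_758 : NoCfg 7 0x8ec080008ec080008fc0800073008f806400800006b0 0x9d80b1409640b1409780b1408000b1406f808cc0099a :=
  pieceG good7 c7_758 x7_758 (by
    simp only [List.forall_mem_cons, List.not_mem_nil, false_imp_iff, implies_true, and_true]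
    exact n7_757)

theorem n7_759 : NoCfg 7 0x8ec08000964080008fc0800073008f806400800006b0 0x9d80b1409dc0b1409780b1408000b1406f809980099a :=
  pieceG good7 c7_759 x7_759 (by
    simp only [List.forall_mem_cons, List.not_mem_nil, false_imp_iff, implies_true, and_true]
    exact n7_754)

theorem n7_760 : NoCfg 7 0x8ec080008ec080008fc0800073008f806400998006b0 0x9d80b1409dc0b1409780b1408000b1406f80b2c0099a :=
  pieceG good7 c7_760 x7_760 (by
    simp only [List.forall_mem_cons, List.not_mem_nil, false_imp_iff, implies_true, and_true]
    exact n7_753)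

theorem n7_761 : NoCfg 7 0x8ec080008ec080008fc0800073008f805f40800006b0 0x9d80b1409dc0b1409780b1408000b1406f80b2c0099a :=
  pieceG good7 c7_761 x7_761 (by
    simp only [List.forall_mem_cons, List.not_mem_nil, false_imp_iff, implies_true, and_true]
    exact ⟨n7_758, n7_755, n7_756, n7_759, n7_760⟩)

theorem n7_762 : NoCfg 7 0x8ec080008ec080009780800073008f805f40800006b0 0x9d80b1409dc0b1409f40b1408000b1408000b2c0099a :=
  pieceG good7 c7_762 x7_762 (by
    simp only [List.forall_mem_cons, List.not_mem_nil, false_imp_iff, implies_true, and_true]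
    exact n7_744)

theorem n7_763 : NoCfg 7 0x9d8080008ec080008fc0800073008f805f40800006b0 0xac40b140a580b1409f40b1408000b1408000b2c0099a :=
  pieceG good7 c7_763 x7_763 (by
    simp only [List.forall_mem_cons, List.not_mem_nil, false_imp_iff, implies_true, and_true]
    exact ⟨n7_743, n7_740⟩)

theorem n7_764 : NoCfg 7 0x9f40800092c080008800800073008d806f80800006b0 0xac4098c09c40b3008fc0b4808000b60077c0b2c0099a :=
  pieceG0 good7 c7_764 x7_764

theorem n7_765 : NoCfg 7 0x9f40800092c080008800800073008d806f80800006b0 0xac40b1409c40b3008fc0b4808000b6008000b2c0099a :=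
  pieceG good7 c7_765 x7_765 (by
    simp only [List.forall_mem_cons, List.not_mem_nil, false_imp_iff, implies_true, and_true]
    exact n7_764)

theorem n7_766 : NoCfg 7 0x9240800092c080008800800073008d806f80998006b0 0x9f40b140a000b3008fc0b4808000b60077c0a640099a :=
  pieceG0 good7 c7_766 x7_766

theorem n7_767 : NoCfg 7 0x9240800092c0800088008d407300a1c06f8091c006b0 0x9f40b140a000b3008fc0a1008000b00077c09980099a :=
  pieceG0 good7 c7_767 x7_767

theorem n7_768 : NoCfg 7 0x9240800092c080008800800073008d806f8089c006b0 0x9f40b140a000b3008fc0b4808000b60077c091c0099a :=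
  pieceG0 good7 c7_768 x7_768

theorem n7_769 : NoCfg 7 0x9240800092c080008800800073008d806f80800006b0 0x9f40b140a000b3008fc0b4808000b60077c0b2c0099a :=
  pieceG good7 c7_769 x7_769 (by
    simp only [List.forall_mem_cons, List.not_mem_nil, false_imp_iff, implies_true, and_true]
    exact ⟨n7_768, n7_767, n7_766⟩)

theorem n7_770 : NoCfg 7 0x924098c092c08000800091c073008d806f80800006b0 0x9f40a5009c00b3008800b4808000b60077c0b2c0099a :=
  pieceG0 good7 c7_770 x7_770

theorem n7_771 : NoCfg 7 0x9240800092c08000800091c073008d806f80998006b0 0x9f4098c0a000b3008800b4808000b60077c0b2c0099a :=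
  pieceG0 good7 c7_771 x7_771

theorem n7_772 : NoCfg 7 0x9240800092c08000800091c073008d806f80800006b0 0x9f40b140a000b3008800b4808000b60077c0b2c0099a :=
  pieceG good7 c7_772 x7_772 (by
    simp only [List.forall_mem_cons, List.not_mem_nil, false_imp_iff, implies_true, and_true]
    exact ⟨n7_771, n7_770⟩)

theorem n7_773 : NoCfg 7 0x9240800092c080008000800073008d806f80800006b0 0x9f40b140a580b3008fc0b4808000b6008000b2c0099a :=
  pieceG good7 c7_773 x7_773 (by
    simp only [List.forall_mem_cons, List.not_mem_nil, false_imp_iff, implies_true, and_true]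
    exact ⟨n7_772, n7_769⟩)

theorem n7_774 : NoCfg 7 0x96408000898080008000800073008d8077c0924006b0 0x9e8098c092c0b6008fc0b6008000b6008000b600099a :=
  pieceG0 good7 c7_774 x7_774

theorem n7_775 : NoCfg 7 0x96408000898080008000800073008d8077c0924006b0 0xa6c0b18092c0b6008fc0b6008000b6008000b600099a :=
  pieceG good7 c7_775 x7_775 (by
    simp only [List.forall_mem_cons, List.not_mem_nil, false_imp_iff, implies_true, and_true]
    exact n7_774)

theorem n7_776 : NoCfg 7 0x9e808000898080008000800073008d806f80800006b0 0xa6c098c092c0b6008fc0b6008000b60077c0b600099a :=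
  pieceG0 good7 c7_776 x7_776

theorem n7_777 : NoCfg 7 0x96408c8089809b008000800073008d806f80800006b0 0x9e8098c092c0b6008fc0b6008000b60077c0b600099a :=
  pieceG0 good7 c7_777 x7_777

theorem n7_778 : NoCfg 7 0x9640800089809b008000800073008d806f80800006b0 0x9e808c8092c0a8808fc0b6008000b60077c0b600099a :=
  pieceG0 good7 c7_778 x7_778

theorem n7_779 : NoCfg 7 0x96408000898080008000800073008d806f80800006b0 0x9e808c8092c09b008fc0b6008000b60077c0b600099a :=
  pieceG0 good7 c7_779 x7_779

theorem n7_780 : NoCfg 7 0x96408000898080008000800073008d806f80800006b0 0x9e8098c092c0b6008fc0b6008000b60077c0b600099a :=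
  pieceG good7 c7_780 x7_780 (by
    simp only [List.forall_mem_cons, List.not_mem_nil, false_imp_iff, implies_true, and_true]
    exact ⟨n7_779, n7_778, n7_777⟩)

theorem n7_781 : NoCfg 7 0x96408000898080008000800073008d806f80800006b0 0x9e80b18092c0b6008fc0b6008000b60077c0b600099a :=
  pieceG good7 c7_781 x7_781 (by
    simp only [List.forall_mem_cons, List.not_mem_nil, false_imp_iff, implies_true, and_true]
    exact n7_780)

theorem n7_782 : NoCfg 7 0x96408000800093408000924073008d806f808d8006b0 0xa0c098c08980b6008a00b6008000b60077c0b600099a :=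
  pieceG0 good7 c7_782 x7_782

theorem n7_783 : NoCfg 7 0x96408000800080008000800073008d806f80800006b0 0xa6c0b18092c0b6008fc0b6008000b60077c0b600099a :=
  pieceG good7 c7_783 x7_783 (by
    simp only [List.forall_mem_cons, List.not_mem_nil, false_imp_iff, implies_true, and_true]
    exact ⟨n7_782, n7_781, n7_776⟩)

theorem n7_784 : NoCfg 7 0x8b4080008000800080008d80730090006f80a40006b0 0x9640b60092c0b6008fc0b6008000b6008000ad80099a :=
  pieceG0 good7 c7_784 x7_784

theorem n7_785 : NoCfg 7 0x8b409b008000800080008000730080006f80968006b0 0x9640a88092c0c8008fc0c8008000c8008000a400099a :=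
  pieceG0 good7 c7_785 x7_785

theorem n7_786 : NoCfg 7 0x8b408d80800080008000800073008d806f80968006b0 0x96409b0092c0c8008fc0b6008000b6008000a400099a :=
  pieceG0 good7 c7_786 x7_786

theorem n7_787 : NoCfg 7 0x8b4080008000800080008000730080006f80968006b0 0x96409b0092c0c8008fc0c8008000c8008000a400099a :=
  pieceG good7 c7_787 x7_787 (by
    simp only [List.forall_mem_cons, List.not_mem_nil, false_imp_iff, implies_true, and_true]
    exact n7_786)

theorem n7_788 : NoCfg 7 0x8b4080008000800080008000730090006f80890006b0 0x9640b60092c0b4808fc0b6008000b60077c09680099a :=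
  pieceG0 good7 c7_788 x7_788

theorem n7_789 : NoCfg 7 0x8b4080008000800080008000730080006f80800006b0 0x9640b60092c0c8008fc0c8008000c8008000a400099a :=
  pieceG good7 c7_789 x7_789 (by
    simp only [List.forall_mem_cons, List.not_mem_nil, false_imp_iff, implies_true, and_true]
    exact ⟨n7_788, n7_787, n7_785⟩)

theorem n7_790 : NoCfg 7 0x800080008000800080008000730080006f80800006b0 0x8b40c8008b80c8008fc0c8008000c8008000a400099a :=
  pieceG0 good7 c7_790 x7_790

theorem n7_791 : NoCfg 7 0x800080008000800080008000730080006f80800006b0 0x9640c80092c0c8008fc0c8008000c8008000c800099a :=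
  pieceG good7 c7_791 x7_791 (by
    simp only [List.forall_mem_cons, List.not_mem_nil, false_imp_iff, implies_true, and_true]
    exact ⟨n7_790, n7_789, n7_784⟩)

theorem n7_792 : NoCfg 7 0x8000800092c0800080008000730080006f80800006b0 0xac40c800a580c8008fc0c8008000c8008000c800099a :=
  pieceG good7 c7_792 x7_792 (by
    simp only [List.forall_mem_cons, List.not_mem_nil, false_imp_iff, implies_true, and_true]
    exact ⟨n7_773, n7_765⟩)

theorem n7_793 : NoCfg 7 0x800080008000800080008e8073008d806740a64006b0 0xa080b6008dc0b6008fc0b6008000ac006f80b2c0099a :=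
  pieceG0 good7 c7_793 x7_793

theorem n7_794 : NoCfg 7 0x800080008000800080008d807300a1c06740998006b0 0xac40b60092c0b6008fc0b6008000ac006f80a640099a :=
  pieceG0 good7 c7_794 x7_794

theorem n7_795 : NoCfg 7 0x800080008000800080008d807300a1c06740998006b0 0xac40b600a580b6008fc0b6008000b6006f80a640099a :=
  pieceG good7 c7_795 x7_795 (by
    simp only [List.forall_mem_cons, List.not_mem_nil, false_imp_iff, implies_true, and_true]
    exact n7_794)

theorem n7_796 : NoCfg 7 0x9280800092c0800080008000730097c06740998006b0 0xac40b6009ec0b6008fc0b6008000a1c06f80a640099a :=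
  pieceG0 good7 c7_796 x7_796

theorem n7_797 : NoCfg 7 0x964080008980800080008d80730097c06740998006b0 0xac40b60092c0b6008fc0b6008000a1c06f80a640099a :=
  pieceG0 good7 c7_797 x7_797

theorem n7_798 : NoCfg 7 0x800080008e40800080008d8073008d806740998006b0 0xa140b6009c40b6008fc0b600800097c06f80a640099a :=
  pieceG0 good7 c7_798 x7_798

theorem n7_799 : NoCfg 7 0x800080008000800080008000730097c06740998006b0 0xac40b600a580b6008fc0b6008000a1c06f80a640099a :=
  pieceG good7 c7_799 x7_799 (by
    simp only [List.forall_mem_cons, List.not_mem_nil, false_imp_iff, implies_true, and_true]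
    exact ⟨n7_797, n7_796⟩)

theorem n7_800 : NoCfg 7 0x80008000800080008000800073008d806740a64006b0 0xac40b600a580b6008fc0b6008000b6006f80b2c0099a :=
  pieceG good7 c7_800 x7_800 (by
    simp only [List.forall_mem_cons, List.not_mem_nil, false_imp_iff, implies_true, and_true]
    exact n7_793)

theorem n7_801 : NoCfg 7 0x8c0080008d40800080008d807300ac0067408cc006b0 0x96c0b6009a80b6008fc0a8408000b6006f809980099a :=
  pieceG0 good7 c7_801 x7_801

theorem n7_802 : NoCfg 7 0x800080008d40800080008d807300ac0067408cc006b0 0xa140b6009a80b6008fc0b6008000b6006f809980099a :=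
  pieceG good7 c7_802 x7_802 (by
    simp only [List.forall_mem_cons, List.not_mem_nil, false_imp_iff, implies_true, and_true]
    exact n7_801)

theorem n7_803 : NoCfg 7 0x9140800092c0800080009b007300a1c067408cc007f0 0x9b809b009b809b008fc0a4008000ac006f809340099a :=
  pieceG0 good7 c7_803 x7_803

theorem n7_804 : NoCfg 7 0x9140800092c0800080009b007300a1c067408cc006b0 0x9b80b6009f409b008fc0a4008000ac006f809980099a :=
  pieceG good7 c7_804 x7_804 (by
    simp only [List.forall_mem_cons, List.not_mem_nil, false_imp_iff, implies_true, and_true]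
    exact n7_803)

theorem n7_805 : NoCfg 7 0x9140800092c0800080009b007300a1c067408cc006b0 0x9b80b6009f40b6008fc0a4008000ac006f809980099a :=
  pieceG good7 c7_805 x7_805 (by
    simp only [List.forall_mem_cons, List.not_mem_nil, false_imp_iff, implies_true, and_true]
    exact n7_804)

theorem n7_806 : NoCfg 7 0x9440800092c09b00800090407300a1c06b408cc007d0 0x9b8089809b00ab808fc09b008000ac006f809980099a :=
  pieceG0 good7 c7_806 x7_806

theorem n7_807 : NoCfg 7 0x94809b0094c08000800093007300a1c069408cc008c0 0x9b80a8409b0086c08fc09b008000ac006f809980099a :=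
  pieceG0 good7 c7_807 x7_807

theorem n7_808 : NoCfg 7 0x91408d8092c08000800090407300a1c067408cc007f0 0x9b80a8409b0086c08fc09b008000ac006f809980099a :=
  pieceG good7 c7_808 x7_808 (by
    simp only [List.forall_mem_cons, List.not_mem_nil, false_imp_iff, implies_true, and_true]
    exact n7_807)

theorem n7_809 : NoCfg 7 0x9140800092c09b00800090407300a1c067408cc006b0 0x9b80b6009f40b6008fc09b008000ac006f809980099a :=
  pieceG good7 c7_809 x7_809 (by
    simp only [List.forall_mem_cons, List.not_mem_nil, false_imp_iff, implies_true, and_true]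
    exact n7_806)

theorem n7_810 : NoCfg 7 0x9b80800092c08000800090407300a1c067408cc006b0 0xa580b6009f40b6008fc09b008000ac006f809980099a :=
  pieceG0 good7 c7_810 x7_810

theorem n7_811 : NoCfg 7 0x9140800092c0800080009b007300a1c067408cc006b0 0xa580b6009f40b6008fc0b6008000ac006f809980099a :=
  pieceG good7 c7_811 x7_811 (by
    simp only [List.forall_mem_cons, List.not_mem_nil, false_imp_iff, implies_true, and_true]
    exact n7_805)

theorem n7_812 : NoCfg 7 0x964080008000800080009b007300a1c067408cc006b0 0xa4c0b60092c09b008fc0b6008000ac006f809980099a :=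
  pieceG0 good7 c7_812 x7_812

theorem n7_813 : NoCfg 7 0x800080008000800080009b007300a1c067408cc006b0 0x9640b60092c0b6008fc0b6008000ac006f809980099a :=
  pieceG0 good7 c7_813 x7_813

theorem n7_814 : NoCfg 7 0x9640800080009b0080008f807300a1c067408cc006b0 0xa540b60092c0b6008fc09b008000ac006f809980099a :=
  pieceG0 good7 c7_814 x7_814

theorem n7_815 : NoCfg 7 0x800080008000800080008b807300a1c067408cc006b0 0x9640b60092c0b6008fc09b008000ac006f809980099a :=
  pieceG0 good7 c7_815 x7_815

theorem n7_816 : NoCfg 7 0x8000800080008000800080007300a1c067408cc006b0 0xac40b60092c0b6008fc0b6008000ac006f809980099a :=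
  pieceG good7 c7_816 x7_816 (by
    simp only [List.forall_mem_cons, List.not_mem_nil, false_imp_iff, implies_true, and_true]
    exact ⟨n7_815, n7_814, n7_813, n7_812⟩)

theorem n7_817 : NoCfg 7 0x8000800080008000800080007300a1c067408cc006b0 0xac40b600a580b6008fc0b6008000ac006f809980099a :=
  pieceG good7 c7_817 x7_817 (by
    simp only [List.forall_mem_cons, List.not_mem_nil, false_imp_iff, implies_true, and_true]
    exact ⟨n7_816, n7_808, n7_809, n7_810, n7_811⟩)

theorem n7_818 : NoCfg 7 0x9b80800092c0800080009b007300964067408cc006b0 0xa580a8809f40b6008fc0b6008000a1c06f809980099a :=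
  pieceG0 good7 c7_818 x7_818

theorem n7_819 : NoCfg 7 0x9180800092c080008000a88079809a4067408cc00790 0x9b80a7809ac0a8808fc0b1808000a1c06f809340099a :=
  pieceG0 good7 c7_819 x7_819

theorem n7_820 : NoCfg 7 0x9180800092c080008000a8807300928067408cc00790 0x9b80a7809ac0a8808fc0b18080009a406f809340099a :=
  pieceG0 good7 c7_820 x7_820

theorem n7_821 : NoCfg 7 0x9180800092c080008000a88073009a4067408cc00790 0x9b80a7809ac0a8808fc0b1808000a1c06f809980099a :=
  pieceG good7 c7_821 x7_821 (by
    simp only [List.forall_mem_cons, List.not_mem_nil, false_imp_iff, implies_true, and_true]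
    exact n7_819)

theorem n7_822 : NoCfg 7 0x9180800092c0800080009b0073009a4067408cc00890 0x9b809b009c409b008fc0a8808000a1c06f809980099a :=
  pieceG0 good7 c7_822 x7_822

theorem n7_823 : NoCfg 7 0x9180800092c0800080009b007300928067408cc006b0 0x9b80b6009f40b6008fc0a8808000a1c06f809980099a :=
  pieceG good7 c7_823 x7_823 (by
    simp only [List.forall_mem_cons, List.not_mem_nil, false_imp_iff, implies_true, and_true]
    exact n7_822)

theorem n7_824 : NoCfg 7 0x9180800092c08000800080007300928067408cc006b0 0x9b80b6009f40b6008fc0b6008000a1c06f809980099a :=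
  pieceG good7 c7_824 x7_824 (by
    simp only [List.forall_mem_cons, List.not_mem_nil, false_imp_iff, implies_true, and_true]
    exact ⟨n7_823, n7_820, n7_821⟩)

theorem n7_825 : NoCfg 7 0x9640800089808000800080007300928067408cc006b0 0xa5c08d8092c09b008fc0b6008000a1c06f809980099a :=
  pieceG0 good7 c7_825 x7_825

theorem n7_826 : NoCfg 7 0x96408d8089808000800080007300928067408cc006b0 0xa5c09b0092c0b6008fc0b6008000a1c06f809980099a :=
  pieceG0 good7 c7_826 x7_826

theorem n7_827 : NoCfg 7 0x9640800089808000800080007300928067408cc006b0 0xa5c09b0092c0b6008fc0b6008000a1c06f809980099a :=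
  pieceG good7 c7_827 x7_827 (by
    simp only [List.forall_mem_cons, List.not_mem_nil, false_imp_iff, implies_true, and_true]
    exact ⟨n7_825, n7_826⟩)

theorem n7_828 : NoCfg 7 0x8f40800089808d808000900073009a4067408cc007b0 0x96408d8092c0b6008fc0b6008000a1c06f809980099a :=
  pieceG0 good7 c7_828 x7_828

theorem n7_829 : NoCfg 7 0x8880800089808000800080007300928067408cc006b0 0x96409b0092c0b6008fc0b6008000a1c06f809980099a :=
  pieceG good7 c7_829 x7_829 (by
    simp only [List.forall_mem_cons, List.not_mem_nil, false_imp_iff, implies_true, and_true]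
    exact n7_828)

theorem n7_830 : NoCfg 7 0x8000800089808000800080007300928067408cc006b0 0xac40b60092c0b6008fc0b6008000a1c06f809980099a :=
  pieceG good7 c7_830 x7_830 (by
    simp only [List.forall_mem_cons, List.not_mem_nil, false_imp_iff, implies_true, and_true]
    exact ⟨n7_829, n7_827⟩)

theorem n7_831 : NoCfg 7 0x80008000800080008000800073008d8067408cc006b0 0xac40b600a580b6008fc0b6008000a1c06f809980099a :=
  pieceG good7 c7_831 x7_831 (by
    simp only [List.forall_mem_cons, List.not_mem_nil, false_imp_iff, implies_true, and_true]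
    exact ⟨n7_830, n7_824, n7_818⟩)

theorem n7_832 : NoCfg 7 0x9200800092c08000800091007300a1c06740800006b0 0x9bc09b009e00b6008fc09bc08000ad406f808cc0099a :=
  pieceG0 good7 c7_832 x7_832

theorem n7_833 : NoCfg 7 0x9200800092c0800080009bc07300a1c06740800006b0 0x9bc0b6009e00b6008fc0aa008000ad406f808cc0099a :=
  pieceG0 good7 c7_833 x7_833

theorem n7_834 : NoCfg 7 0x9200800092c0800080008d80730094806740800006b0 0x9bc0b6009e00b6008fc0a1c08000a1c06f808cc0099a :=
  pieceG0 good7 c7_834 x7_834

theorem n7_835 : NoCfg 7 0x9200800092c0800080008d8073008d806740800006b0 0x9bc0b6009e00b6008fc0b6008000a1c06f808cc0099a :=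
  pieceG good7 c7_835 x7_835 (by
    simp only [List.forall_mem_cons, List.not_mem_nil, false_imp_iff, implies_true, and_true]
    exact n7_834)

theorem n7_836 : NoCfg 7 0x9640800089809b0080008d8073008d80674086800830 0x9e408d8092c0a5408fc0b6008000b6006f808cc0099a :=
  pieceG0 good7 c7_836 x7_836

theorem n7_837 : NoCfg 7 0x964080008980800080008d8073008d806740800006b0 0xa4808d8092c09b008fc0b6008000b6006f808cc0099a :=
  pieceG0 good7 c7_837 x7_837

theorem n7_838 : NoCfg 7 0x96408d808980800080008d8073008d806740800006b0 0xa4809b0092c0b6008fc0b6008000b6006f808cc0099a :=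
  pieceG0 good7 c7_838 x7_838

theorem n7_839 : NoCfg 7 0x888080008980800080008e807300a1c06740800006b0 0x9640b60092c0b6008fc0a2408000b1006f808cc0099a :=
  pieceG0 good7 c7_839 x7_839

theorem n7_840 : NoCfg 7 0x888080008980800080008000730093806740800006b0 0x96408d8092c0b6008fc0b6008000a1c06f808cc0099a :=
  pieceG0 good7 c7_840 x7_840

theorem n7_841 : NoCfg 7 0x88808000898080008000800073008d806740800006b0 0x9640b60092c0b6008fc0b6008000a1c06f808cc0099a :=
  pieceG good7 c7_841 x7_841 (by
    simp only [List.forall_mem_cons, List.not_mem_nil, false_imp_iff, implies_true, and_true]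
    exact n7_840)

theorem n7_842 : NoCfg 7 0x96408000898080008000800073008d806740800006b0 0xac40b60092c0b6008fc0b6008000b6006f808cc0099a :=
  pieceG good7 c7_842 x7_842 (by
    simp only [List.forall_mem_cons, List.not_mem_nil, false_imp_iff, implies_true, and_true]
    exact ⟨n7_837, n7_836, n7_838⟩)

theorem n7_843 : NoCfg 7 0x8ec08000800093408000924073008d806740800007d0 0x9d408d808980b6008a00b6008000b6006f808cc0099a :=
  pieceG0 good7 c7_843 x7_843

theorem n7_844 : NoCfg 7 0x80008000800080008000800073008d806740800006b0 0xac40b6008980b6008fc0b6008000b6006f808cc0099a :=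
  pieceG good7 c7_844 x7_844 (by
    simp only [List.forall_mem_cons, List.not_mem_nil, false_imp_iff, implies_true, and_true]
    exact n7_843)

theorem n7_845 : NoCfg 7 0x8000800092c080008000800073008d806740800006b0 0xac40b600a580b6008fc0b6008000b6006f808cc0099a :=
  pieceG good7 c7_845 x7_845 (by
    simp only [List.forall_mem_cons, List.not_mem_nil, false_imp_iff, implies_true, and_true]
    exact ⟨n7_835, n7_832, n7_833⟩)

theorem n7_846 : NoCfg 7 0x80008000800080008000800073008d806740800006b0 0xac40b600a580b6008fc0b6008000b6006f809980099a :=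
  pieceG good7 c7_846 x7_846 (by
    simp only [List.forall_mem_cons, List.not_mem_nil, false_imp_iff, implies_true, and_true]
    exact ⟨n7_844, n7_841, n7_839, n7_842, n7_845, n7_831, n7_817, n7_802⟩)

theorem n7_847 : NoCfg 7 0x970080008d40800080008ec073008d805f40800006b0 0xa140a8809a80b6008fc0b60080009bc06740a600099a :=
  pieceG0 good7 c7_847 x7_847

theorem n7_848 : NoCfg 7 0x8cc080008d40800080008ec073008d805f40930006b0 0x9700b6009a80b6008fc0b6008000b60067409c80099a :=
  pieceG0 good7 c7_848 x7_848

theorem n7_849 : NoCfg 7 0x8cc080008d40800080008ec073008d805f40800006b0 0x9700b6009a80b6008fc0b60080009a0067409300099a :=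
  pieceG0 good7 c7_849 x7_849

theorem n7_850 : NoCfg 7 0x8cc080008d40800080008ec073008d805f40800006b0 0x9700b6009a80b6008fc0b6008000b60067409300099a :=
  pieceG good7 c7_850 x7_850 (by
    simp only [List.forall_mem_cons, List.not_mem_nil, false_imp_iff, implies_true, and_true]
    exact n7_849)

theorem n7_851 : NoCfg 7 0x90c08000800090008000900073008d805f408cc006b0 0x9900b6008d40b6008fc0b6008000b60067409980099a :=
  pieceG0 good7 c7_851 x7_851

theorem n7_852 : NoCfg 7 0x80008000800090008000900073008d805f40800006b0 0xa140b6008d40b6008fc0b60080009bc067408cc0099a :=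
  pieceG0 good7 c7_852 x7_852

theorem n7_853 : NoCfg 7 0x80008000800090008000900073008d805f408cc006b0 0xa140b6008d40b6008fc0b6008000b60067409980099a :=
  pieceG good7 c7_853 x7_853 (by
    simp only [List.forall_mem_cons, List.not_mem_nil, false_imp_iff, implies_true, and_true]
    exact n7_851)

theorem n7_854 : NoCfg 7 0x80008000800090008000900073008d805f40998006b0 0xa140b6008d40b6008fc0b6008000b6006740b2c0099a :=
  pieceG0 good7 c7_854 x7_854

theorem n7_855 : NoCfg 7 0x800080008d4080008000800073008d805f40800006b0 0xa140b6009a80b6008fc0b6008000b6006740b2c0099a :=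
  pieceG good7 c7_855 x7_855 (by
    simp only [List.forall_mem_cons, List.not_mem_nil, false_imp_iff, implies_true, and_true]
    exact ⟨n7_850, n7_848, n7_847⟩)

theorem n7_856 : NoCfg 7 0x80008000800080008000800073008d806740800006b0 0xac40b600a580b6008fc0b6008000b6006f80b2c0099a :=
  pieceG good7 c7_856 x7_856 (by
    simp only [List.forall_mem_cons, List.not_mem_nil, false_imp_iff, implies_true, and_true]
    exact ⟨n7_846, n7_798, n7_799, n7_795, n7_800⟩)

theorem n7_857 : NoCfg 7 0x800080008000800080008000730080005f40800006b0 0xac40c800a580c8008fc0c8008000c8006f80c800099a :=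
  pieceG good7 c7_857 x7_857 (by
    simp only [List.forall_mem_cons, List.not_mem_nil, false_imp_iff, implies_true, and_true]
    exact ⟨n7_852, n7_853, n7_854, n7_855, n7_856⟩)

theorem n7_858 : NoCfg 7 0x80008000800080008fc08000730080005f40800006b0 0xac40c800a580c8009f40c8008000c8008000c800099a :=
  pieceG good7 c7_858 x7_858 (by
    simp only [List.forall_mem_cons, List.not_mem_nil, false_imp_iff, implies_true, and_true]
    exact ⟨n7_761, n7_749, n7_750, n7_751, n7_752, n7_762, n7_763⟩)

theorem n7_859 : NoCfg 7 0x8f0080008f0080008fc080006640998069c0800006b0 0x9a00b4809d80b4809a00b6007300b2c074409980099a :=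
  pieceG0 good7 c7_859 x7_859

theorem n7_860 : NoCfg 7 0x8f0080008f0080008fc080006640800069c0998006b0 0x9a00b4809d80b4809a00b6007300b2c07440b2c0099a :=
  pieceG0 good7 c7_860 x7_860

theorem n7_861 : NoCfg 7 0x884080008e40800080008ec066408b4069c0a64006b0 0xa140b4809c40b4808fc0b600730094c07440b2c0099a :=
  pieceG0 good7 c7_861 x7_861

theorem n7_862 : NoCfg 7 0x8840800080008f8080008ec066408b4069c0a64006b0 0xa140b4808e40b4808fc0b60073009f407440b2c0099a :=
  pieceG0 good7 c7_862 x7_862

theorem n7_863 : NoCfg 7 0x800080008e408000800080006640998069c0998006b0 0xac40b4809c40b4808fc0b6007300a6407440a640099a :=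
  pieceG0 good7 c7_863 x7_863

theorem n7_864 : NoCfg 7 0x8000800080008000800080006640a64069c0998006b0 0xac40b480a580b4808fc0b6007300b2c07440a640099a :=
  pieceG0 good7 c7_864 x7_864

theorem n7_865 : NoCfg 7 0x94c080008e4080008000800066408cc069c0998006b0 0xa140b4809c40b4808fc0b600730099807440a640099a :=
  pieceG0 good7 c7_865 x7_865

theorem n7_866 : NoCfg 7 0x8840800080008e4080008d8066408cc069c0998006b0 0xa140b4808e40b4808800b600730099807440a640099a :=
  pieceG0 good7 c7_866 x7_866

theorem n7_867 : NoCfg 7 0x884080008e4080008000800066408cc069c0998006b0 0xa140b4809c40b4808fc0b600730099807440a640099a :=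
  pieceG good7 c7_867 x7_867 (by
    simp only [List.forall_mem_cons, List.not_mem_nil, false_imp_iff, implies_true, and_true]
    exact n7_865)

theorem n7_868 : NoCfg 7 0x958080008e40800080008d806640800069c0998006b0 0xa140b4809c40b4808fc0b60073008cc07440a640099a :=
  pieceG0 good7 c7_868 x7_868

theorem n7_869 : NoCfg 7 0x89c0800080008000800080006640800069c0998006b0 0xa140b4808e40b4808fc0b60073008cc07440a640099a :=
  pieceG0 good7 c7_869 x7_869

theorem n7_870 : NoCfg 7 0x8000800080008000800080006640800069c0998006b0 0xac40b4809c40b4808fc0b60073008cc07440a640099a :=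
  pieceG good7 c7_870 x7_870 (by
    simp only [List.forall_mem_cons, List.not_mem_nil, false_imp_iff, implies_true, and_true]
    exact ⟨n7_869, n7_868⟩)

theorem n7_871 : NoCfg 7 0x8000800080008000800080006640800069c0998006b0 0xac40b480a580b4808fc0b600730099807440a640099a :=
  pieceG good7 c7_871 x7_871 (by
    simp only [List.forall_mem_cons, List.not_mem_nil, false_imp_iff, implies_true, and_true]
    exact ⟨n7_870, n7_866, n7_867⟩)

theorem n7_872 : NoCfg 7 0x8000800080008000800080006640800069c0a64006b0 0xac40b480a580b4808fc0b6007300b2c07440b2c0099a :=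
  pieceG good7 c7_872 x7_872 (by
    simp only [List.forall_mem_cons, List.not_mem_nil, false_imp_iff, implies_true, and_true]
    exact ⟨n7_862, n7_861⟩)

theorem n7_873 : NoCfg 7 0x94c080008e40800080008ec06640a64069c0868006b0 0xa140b4809c40b4808800ac407300b2c074409980099a :=
  pieceG0 good7 c7_873 x7_873

theorem n7_874 : NoCfg 7 0x884080008e40800080008ec06640a64069c0868006b0 0x94c0b4809c40b4808fc0b6007300b2c074409980099a :=
  pieceG0 good7 c7_874 x7_874

theorem n7_875 : NoCfg 7 0x8840800080008f80800090006640a64069c08cc006b0 0xa140b4808e40b4808fc0b6007300b2c074409980099a :=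
  pieceG0 good7 c7_875 x7_875

theorem n7_876 : NoCfg 7 0x978080008e40800080008d806640998069c08cc006b0 0xa1c0b4809c40b4808800b6007300a64074409980099a :=
  pieceG0 good7 c7_876 x7_876

theorem n7_877 : NoCfg 7 0x8d0080008e408000800080006640998069c08cc006b0 0x97809a409800b4808fc0b6007300a64074409980099a :=
  pieceG0 good7 c7_877 x7_877

theorem n7_878 : NoCfg 7 0x978080008e408000800080006640998069c08cc006b0 0xa1c0b4809c40b4808fc0b6007300a64074409980099a :=
  pieceG good7 c7_878 x7_878 (by
    simp only [List.forall_mem_cons, List.not_mem_nil, false_imp_iff, implies_true, and_true]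
    exact n7_876)

theorem n7_879 : NoCfg 7 0x94c0800080008e4080008d806640998069c08cc006b0 0xa140b4808e40b4808800b6007300a64074409980099a :=
  pieceG0 good7 c7_879 x7_879

theorem n7_880 : NoCfg 7 0x8000800080008000800080006640998069c08cc006b0 0xac40b4808e40b4808fc0b6007300a64074409980099a :=
  pieceG good7 c7_880 x7_880 (by
    simp only [List.forall_mem_cons, List.not_mem_nil, false_imp_iff, implies_true, and_true]
    exact n7_879)

theorem n7_881 : NoCfg 7 0x970080008e408000800096806640998069c0800006b0 0xa100a7809c40b4808800ac007300a64074408cc0099a :=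
  pieceG0 good7 c7_881 x7_881

theorem n7_882 : NoCfg 7 0x8d0080008e409a40800096406640998069c0800006b0 0x9700b4809780b4808800a1c07300a64074408cc0099a :=
  pieceG0 good7 c7_882 x7_882

theorem n7_883 : NoCfg 7 0x8d0080008e40800080008d806640998069c0800006b0 0x9700b4809780b4808800b6007300a64074408cc0099a :=
  pieceG good7 c7_883 x7_883 (by
    simp only [List.forall_mem_cons, List.not_mem_nil, false_imp_iff, implies_true, and_true]
    exact n7_882)

theorem n7_884 : NoCfg 7 0x970080008e40800080008d806640998069c0800006b0 0xa100b4809c40b4808fc0b6007300a64074408cc0099a :=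
  pieceG good7 c7_884 x7_884 (by
    simp only [List.forall_mem_cons, List.not_mem_nil, false_imp_iff, implies_true, and_true]
    exact n7_881)

theorem n7_885 : NoCfg 7 0x9440800080008e4080008d806640998069c0800007f0 0x9f409a408e40b4808800b6007300a6406f408cc0099a :=
  pieceG0 good7 c7_885 x7_885

theorem n7_886 : NoCfg 7 0x8000800080008e4080008d806640998069c0800006b0 0x9f40b4808e40b4808fc0b6007300a64074408cc0099a :=
  pieceG good7 c7_886 x7_886 (by
    simp only [List.forall_mem_cons, List.not_mem_nil, false_imp_iff, implies_true, and_true]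
    exact n7_885)

theorem n7_887 : NoCfg 7 0x8000800080008000800080006640998069c08cc006b0 0xac40b480a580b4808fc0b6007300a64074409980099a :=
  pieceG good7 c7_887 x7_887 (by
    simp only [List.forall_mem_cons, List.not_mem_nil, false_imp_iff, implies_true, and_true]
    exact ⟨n7_880, n7_877, n7_878⟩)

theorem n7_888 : NoCfg 7 0x8000800080008000800080006640a64069c0800006b0 0xac40b480a580b4808fc0b6007300b2c074409980099a :=
  pieceG good7 c7_888 x7_888 (by
    simp only [List.forall_mem_cons, List.not_mem_nil, false_imp_iff, implies_true, and_true]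
    exact ⟨n7_875, n7_874, n7_873⟩)

theorem n7_889 : NoCfg 7 0x88408000800080008000800066408cc069c08cc006b0 0xa140b4809c40b4808fc0b6007300998074409980099a :=
  pieceG0 good7 c7_889 x7_889

theorem n7_890 : NoCfg 7 0x8a0080008d00800080008d8066408cc069c0800006b0 0x9540b48099c0b4808fc0b6007300998074408cc0099a :=
  pieceG0 good7 c7_890 x7_890

theorem n7_891 : NoCfg 7 0x8a0080008000800080008d8066408cc069c0800006b0 0xa040b48099c0b4808fc0b6007300998074408cc0099a :=
  pieceG good7 c7_891 x7_891 (by
    simp only [List.forall_mem_cons, List.not_mem_nil, false_imp_iff, implies_true, and_true]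
    exact n7_890)

theorem n7_892 : NoCfg 7 0x8a0080008000800080008d806640800069c08d4006b0 0xa040b48099c0b4808800b60073008cc074409980099a :=
  pieceG0 good7 c7_892 x7_892

theorem n7_893 : NoCfg 7 0x8000800080008000800080006640800069c0800006b0 0xac40b480a580b4808fc0b6007300998074409980099a :=
  pieceG good7 c7_893 x7_893 (by
    simp only [List.forall_mem_cons, List.not_mem_nil, false_imp_iff, implies_true, and_true]
    exact ⟨n7_892, n7_891, n7_889⟩)

theorem n7_894 : NoCfg 7 0x8000800080008000800080006640800069c0800006b0 0xac40b480a580b4808fc0b6007300b2c074409980099a :=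
  pieceG good7 c7_894 x7_894 (by
    simp only [List.forall_mem_cons, List.not_mem_nil, false_imp_iff, implies_true, and_true]
    exact ⟨n7_893, n7_886, n7_883, n7_884, n7_887, n7_888⟩)

theorem n7_895 : NoCfg 7 0x80008000800080008fc080006640800069c0800006b0 0xac40b480a580b4809f40b6007300b2c07440b2c0099a :=
  pieceG good7 c7_895 x7_895 (by
    simp only [List.forall_mem_cons, List.not_mem_nil, false_imp_iff, implies_true, and_true]
    exact ⟨n7_859, n7_860⟩)

theorem n7_896 : NoCfg 7 0x8b0080008dc080008bc08000664080005f40800006b0 0x96c0b4809740b4809780b6007300a60069c09980099a :=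
  pieceG0 good7 c7_896 x7_896

theorem n7_897 : NoCfg 7 0x96c080008dc080008000924066409bc05f40800006b0 0xa2809a409b80b4808bc0ad007300a84069c08cc0099a :=
  pieceG0 good7 c7_897 x7_897

theorem n7_898 : NoCfg 7 0x96c080008dc0800080009240664080005f408cc006b0 0xa2809a409b80b4808bc0ad007300b2c069c09980099a :=
  pieceG0 good7 c7_898 x7_898

theorem n7_899 : NoCfg 7 0x96c080008dc0800080009240664080005f40800006b0 0xa2809a409b80b4808bc0ad007300b2c069c0b2c0099a :=
  pieceG good7 c7_899 x7_899 (by
    simp only [List.forall_mem_cons, List.not_mem_nil, false_imp_iff, implies_true, and_true]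
    exact ⟨n7_897, n7_898⟩)

theorem n7_900 : NoCfg 7 0x8b0080008dc0800080009240664099805f40800006b0 0x96c0b4809780b4808bc0a4407300a30069c08cc0099a :=
  pieceG0 good7 c7_900 x7_900

theorem n7_901 : NoCfg 7 0x8b0080008dc0800080009240664099805f40800006b0 0x96c0b4809780b4808bc0b6007300a30069c09980099a :=
  pieceG good7 c7_901 x7_901 (by
    simp only [List.forall_mem_cons, List.not_mem_nil, false_imp_iff, implies_true, and_true]
    exact n7_900)

theorem n7_902 : NoCfg 7 0x8b0080008dc0800080009240664099805f40800006b0 0x96c0b4809780b4808bc0b6007300b2c069c09980099a :=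
  pieceG good7 c7_902 x7_902 (by
    simp only [List.forall_mem_cons, List.not_mem_nil, false_imp_iff, implies_true, and_true]
    exact n7_901)

theorem n7_903 : NoCfg 7 0x8b0080008dc0800080009240664080005f40800006b0 0x96c0b4809780b4808bc0b6007300b2c069c09980099a :=
  pieceG good7 c7_903 x7_903 (by
    simp only [List.forall_mem_cons, List.not_mem_nil, false_imp_iff, implies_true, and_true]
    exact n7_902)

theorem n7_904 : NoCfg 7 0x8b0080008dc0800080009240664080005f40800006b0 0x96c0b4809b80b4808bc0b6007300b2c069c0b2c0099a :=
  pieceG good7 c7_904 x7_904 (by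
    simp only [List.forall_mem_cons, List.not_mem_nil, false_imp_iff, implies_true, and_true]
    exact n7_903)

theorem n7_905 : NoCfg 7 0x8b0080008dc080008bc08000664080005f40800006b0 0xa280b4809b80b4809780b6007300b2c069c0b2c0099a :=
  pieceG good7 c7_905 x7_905 (by
    simp only [List.forall_mem_cons, List.not_mem_nil, false_imp_iff, implies_true, and_true]
    exact n7_896)

theorem n7_906 : NoCfg 7 0x96c0800080008e4080008d80664080005f40800006b0 0xa2809a408dc0b4808e00a1c07300b2c069c0b2c0099a :=
  pieceG0 good7 c7_906 x7_906

theorem n7_907 : NoCfg 7 0x96c0800080008e4080008d80664080005f40800006b0 0xa2809a408dc0b4808e00b6007300b2c069c0b2c0099a :=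
  pieceG good7 c7_907 x7_907 (by
    simp only [List.forall_mem_cons, List.not_mem_nil, false_imp_iff, implies_true, and_true]
    exact n7_906)

theorem n7_908 : NoCfg 7 0x8b00800086008e4080008d80664099805f40800006b0 0x96c0b4808dc0b4808e00b6007300a30069c08cc0099a :=
  pieceG0 good7 c7_908 x7_908

theorem n7_909 : NoCfg 7 0x8b00800086008e4080008d806640a3005f40800006b0 0x96c0b4808dc0b4808e00b6007300ac8069c09980099a :=
  pieceG0 good7 c7_909 x7_909

theorem n7_910 : NoCfg 7 0x8b00800086008e4080008d80664080005f40800006b0 0x96c0b4808dc0b4808e00b6007300998069c09980099a :=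
  pieceG0 good7 c7_910 x7_910

theorem n7_911 : NoCfg 7 0x8b00800080008e4080008d80664080005f40800006b0 0x96c0b4808dc0b4808e00b6007300b2c069c0b2c0099a :=
  pieceG good7 c7_911 x7_911 (by
    simp only [List.forall_mem_cons, List.not_mem_nil, false_imp_iff, implies_true, and_true]
    exact ⟨n7_910, n7_908, n7_909⟩)

theorem n7_912 : NoCfg 7 0x800080008000800080008000664080005f40800006b0 0xac40b4809b80b4809f40b6007300b2c069c0b2c0099a :=
  pieceG good7 c7_912 x7_912 (by
    simp only [List.forall_mem_cons, List.not_mem_nil, false_imp_iff, implies_true, and_true]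
    exact ⟨n7_911, n7_907, n7_904, n7_899, n7_905⟩)

theorem n7_913 : NoCfg 7 0x800080008000800080008000664080005f40800006b0 0xac40c800a580c8009f40c8007300c8008000c800099a :=
  pieceG good7 c7_913 x7_913 (by
    simp only [List.forall_mem_cons, List.not_mem_nil, false_imp_iff, implies_true, and_true]
    exact ⟨n7_912, n7_894, n7_871, n7_863, n7_864, n7_872, n7_895⟩)

theorem n7_914 : NoCfg 7 0x800080008000800080008000688062006200800006f0 0xa780ac40a000ac409c80ac40800080008000a900099a :=
  pieceG0 good7 c7_914 x7_914

theorem n7_915 : NoCfg 7 0x80008000800080008000800038008000380080000487 0xc800c800c800c800c800c8008000c8008000c800099a :=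
  pieceG good7 c7_915 x7_915 (by
    simp only [List.forall_mem_cons, List.not_mem_nil, false_imp_iff, implies_true, and_true]
    exact ⟨n7_913, n7_857, n7_791, n7_783, n7_775, n7_792, n7_858⟩)

theorem n7_916 : NoCfg 7 0x94807240988080008f408000740090c06900800006b0 0x9ec08000a340afc09e80b1408000b1407480b2c0099a :=
  pieceG0 good7 c7_916 x7_916

theorem n7_917 : NoCfg 7 0x948076808d8080008f408000740090c06640854006b0 0x9ec080009880afc098c0b1408000a94070c09200099a :=
  pieceG0 good7 c7_917 x7_917

theorem n7_918 : NoCfg 7 0x948072408d8080008f408000740090c06180800006b0 0x9ec080009880afc098c0b1408000b14070c0b2c0099a :=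
  pieceG good7 c7_918 x7_918 (by
    simp only [List.forall_mem_cons, List.not_mem_nil, false_imp_iff, implies_true, and_true]
    exact n7_917)

theorem n7_919 : NoCfg 7 0x948072408d8080008f408000740090c06180800006b0 0x9ec080009880afc09e80b1408000b1408000b2c0099a :=
  pieceG good7 c7_919 x7_919 (by
    simp only [List.forall_mem_cons, List.not_mem_nil, false_imp_iff, implies_true, and_true]
    exact n7_918)

theorem n7_920 : NoCfg 7 0x948072408000800080008c40740090c070c08cc006b0 0x9ec08000a340afc08f40b1408000b1407840b2c0099a :=
  pieceG0 good7 c7_920 x7_920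

theorem n7_921 : NoCfg 7 0x9480778091c0800080008c40740090c06540930006b0 0x9ec08000a340afc08f40b1408000b14070c0a600099a :=
  pieceG0 good7 c7_921 x7_921

theorem n7_922 : NoCfg 7 0x948072408000800080008c40740090c06540898006b0 0x9ec08000a340afc08f40b1408000b14070c09300099a :=
  pieceG0 good7 c7_922 x7_922

theorem n7_923 : NoCfg 7 0x948072408000800080008c40740090c06180800006b0 0x9ec08000a340afc08f40b1408000b14070c0b2c0099a :=
  pieceG good7 c7_923 x7_923 (by
    simp only [List.forall_mem_cons, List.not_mem_nil, false_imp_iff, implies_true, and_true]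
    exact ⟨n7_922, n7_921⟩)

theorem n7_924 : NoCfg 7 0x948072408000800080008000740090c06180800006b0 0x9ec08000a340afc09e80b1408000b1408000b2c0099a :=
  pieceG good7 c7_924 x7_924 (by
    simp only [List.forall_mem_cons, List.not_mem_nil, false_imp_iff, implies_true, and_true]
    exact ⟨n7_923, n7_920, n7_919, n7_916⟩)

theorem n7_925 : NoCfg 7 0x948072408000800080008000680080006ac0800006b0 0xa2c08000a340afc09e80b1407400b1407440b2c0099a :=
  pieceG0 good7 c7_925 x7_925

theorem n7_926 : NoCfg 7 0x948072408000800080008000740080006180800006b0 0xa8c08000a340afc09e80b1408000b1408000b2c0099a :=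
  pieceG good7 c7_926 x7_926 (by
    simp only [List.forall_mem_cons, List.not_mem_nil, false_imp_iff, implies_true, and_true]
    exact n7_924)

theorem n7_927 : NoCfg 7 0x854072408000800080008000680080006180800006b0 0x948080009540afc09580b1408000b1408000b2c0099a :=
  pieceG0 good7 c7_927 x7_927

theorem n7_928 : NoCfg 7 0x948064808000800080008000680080006180800006b0 0xa8c08000a340afc09e80b1408000b1408000b2c0099a :=
  pieceG good7 c7_928 x7_928 (by
    simp only [List.forall_mem_cons, List.not_mem_nil, false_imp_iff, implies_true, and_true]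
    exact ⟨n7_925, n7_926⟩)

theorem n7_929 : NoCfg 7 0x800061808000800080008fc066c060006200800006f0 0xa7808000a000a9008e40a900800070007100a5c0099a :=
  pieceG0 good7 c7_929 x7_929

theorem n7_930 : NoCfg 7 0x80006180800080008000800066c060006200800006f0 0xa7808000a000a9009c80a900800070008000a5c0099a :=
  pieceG good7 c7_930 x7_930 (by
    simp only [List.forall_mem_cons, List.not_mem_nil, false_imp_iff, implies_true, and_true]
    exact n7_929)

theorem n7_931 : NoCfg 7 0x80006180800080008000800066c06000620080000487 0xc8008000a000c8009c80c800800080008000c800099a :=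
  pieceG good7 c7_931 x7_931 (by
    simp only [List.forall_mem_cons, List.not_mem_nil, false_imp_iff, implies_true, and_true]
    exact n7_930)

theorem n7_932 : NoCfg 7 0x80003800800080008000800038008000380080000487 0xc8008000c800c800c800c8008000c8008000c800099a :=
  pieceG good7 c7_932 x7_932 (by
    simp only [List.forall_mem_cons, List.not_mem_nil, false_imp_iff, implies_true, and_true]
    exact ⟨n7_927, n7_928⟩)

theorem n7_933 : NoCfg 7 0x800080008000800080008000674080006200644006f0 0xa740ae00a000ae009c80ae008000af8071008000099a :=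
  pieceG0 good7 c7_933 x7_933

theorem n7_934 : NoCfg 7 0x80008000800080008000800038008000380038000487 0xc800c800c800c800c800c8008000c80080008000099a :=
  pieceG good7 c7_934 x7_934 (by
    simp only [List.forall_mem_cons, List.not_mem_nil, false_imp_iff, implies_true, and_true]
    exact n7_933)

theorem n7_935 : NoCfg 7 0x800061808000800080008000680080006180700006f0 0x94008000a000a9409d00aac08000ac4074408000099a :=
  pieceG0 good7 c7_935 x7_935

theorem n7_936 : NoCfg 7 0x800061808000800080008000680080006180600006f0 0xa7c08000a000a9409d00aac08000ac4080007000099a :=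
  pieceG0 good7 c7_936 x7_936

theorem n7_937 : NoCfg 7 0x80003800800080008000800067403800380038000487 0xc8008000c800c80098c0c8008000800080008000099a :=
  pieceG0 good7 c7_937 x7_937

theorem n7_938 : NoCfg 7 0x80003800800080008000800038008000380038000487 0xc8008000c800c800c800c8008000c80080008000099a :=
  pieceG good7 c7_938 x7_938 (by
    simp only [List.forall_mem_cons, List.not_mem_nil, false_imp_iff, implies_true, and_true]
    exact ⟨n7_936, n7_935⟩)

theorem n7_939 : NoCfg 7 0x80003800800080008000800038003800380038000487 0xc800c800c800c800c800c8008000c80080008000099a :=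
  pieceG good7 c7_939 x7_939 (by
    simp only [List.forall_mem_cons, List.not_mem_nil, false_imp_iff, implies_true, and_true]
    exact ⟨n7_937, n7_938, n7_934⟩)

theorem n7_940 : NoCfg 7 0x9040800091c078c08f40800074009240678090c006b0 0x9d40ae009a8080009ac0af808000af8070c0a180099a :=
  pieceG0 good7 c7_940 x7_940

theorem n7_941 : NoCfg 7 0x9040800091c078c08f408000740092406180800006b0 0x9d40ae009a8080009ac0af808000af808000af80099a :=
  pieceG good7 c7_941 x7_941 (by
    simp only [List.forall_mem_cons, List.not_mem_nil, false_imp_iff, implies_true, and_true]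
    exact n7_940)

theorem n7_942 : NoCfg 7 0x9040800091c078c08f408000740092406180800006b0 0xaa00ae009a8080009e80af808000af808000af80099a :=
  pieceG good7 c7_942 x7_942 (by
    simp only [List.forall_mem_cons, List.not_mem_nil, false_imp_iff, implies_true, and_true]
    exact n7_941)

theorem n7_943 : NoCfg 7 0x9040800091c078c080008e0074009240664080000830 0xa380ae009a8080008f40af808000af8070c09200099a :=
  pieceG0 good7 c7_943 x7_943

theorem n7_944 : NoCfg 7 0x9040800091c078c080008e007400924070c0800006b0 0xaa00ae009a8080008f40af808000af808000af80099a :=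
  pieceG0 good7 c7_944 x7_944

theorem n7_945 : NoCfg 7 0x9040800091c078c080008e00740092406180800006b0 0xaa00ae009a8080008f40af808000af808000af80099a :=
  pieceG good7 c7_945 x7_945 (by
    simp only [List.forall_mem_cons, List.not_mem_nil, false_imp_iff, implies_true, and_true]
    exact ⟨n7_943, n7_944⟩)

theorem n7_946 : NoCfg 7 0x9040800091c078c080008000740092406180800006b0 0xaa00ae00a34080009e80af808000af808000af80099a :=
  pieceG good7 c7_946 x7_946 (by
    simp only [List.forall_mem_cons, List.not_mem_nil, false_imp_iff, implies_true, and_true]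
    exact ⟨n7_945, n7_942⟩)

theorem n7_947 : NoCfg 7 0x9040800091c0718080008000740080006180800006b0 0xaa00ae00a34080009e80af808000af808000af80099a :=
  pieceG good7 c7_947 x7_947 (by
    simp only [List.forall_mem_cons, List.not_mem_nil, false_imp_iff, implies_true, and_true]
    exact n7_946)

theorem n7_948 : NoCfg 7 0x9040800091c0718080008000680080006180800006b0 0xaa00ae00a34080009e80af808000af808000af80099a :=
  pieceG good7 c7_948 x7_948 (by
    simp only [List.forall_mem_cons, List.not_mem_nil, false_imp_iff, implies_true, and_true]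
    exact n7_947)

theorem n7_949 : NoCfg 7 0x800080008000630080008000680080006180800006b0 0xaa00ae0091c080009e80af808000af808000af80099a :=
  pieceG0 good7 c7_949 x7_949

theorem n7_950 : NoCfg 7 0x8a008000800060c08000800067c06f806140800006f0 0xa040a540988070409600a9007380800072c0a440099a :=
  pieceG0 good7 c7_950 x7_950

theorem n7_951 : NoCfg 7 0x8e008a408c8070408000904067c063406680800007a0 0x9fc094809b0080008ec09f4080006f8070809880099a :=
  pieceG0 good7 c7_951 x7_951

theorem n7_952 : NoCfg 7 0x8e0080008c8070408000800067c05f406140800006f0 0xa7809c00a0c080009d40a90080006f807080a440099a :=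
  pieceG good7 c7_952 x7_952 (by
    simp only [List.forall_mem_cons, List.not_mem_nil, false_imp_iff, implies_true, and_true]
    exact n7_951)

theorem n7_953 : NoCfg 7 0x80008000908060c08000800067c05f406140800006f0 0xa7809c00a0c070409d40a90080006f808000a440099a :=
  pieceG0 good7 c7_953 x7_953

theorem n7_954 : NoCfg 7 0x80008000800060c08000800067c05f406140800006f0 0xa780a540a0c080009d40a90080006f808000a440099a :=
  pieceG good7 c7_954 x7_954 (by
    simp only [List.forall_mem_cons, List.not_mem_nil, false_imp_iff, implies_true, and_true]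
    exact ⟨n7_953, n7_952⟩)

theorem n7_955 : NoCfg 7 0x80008000800038008000800038003800380080000487 0xc800c800c8008000c800c800800080008000c800099a :=
  pieceG good7 c7_955 x7_955 (by
    simp only [List.forall_mem_cons, List.not_mem_nil, false_imp_iff, implies_true, and_true]
    exact ⟨n7_954, n7_950⟩)

theorem n7_956 : NoCfg 7 0x8a4064008000610080009140678061006100800006f0 0xa9008000a0c080009d80a2408000800074009140099a :=
  pieceG0 good7 c7_956 x7_956

theorem n7_957 : NoCfg 7 0x800064008000610080008000678061006100914006f0 0xa9008000a0c080009d80a240800080008000a240099a :=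
  pieceG0 good7 c7_957 x7_957

theorem n7_958 : NoCfg 7 0x80003800800038008000800038008000380080000487 0xc8008000c8008000c800c8008000c8008000c800099a :=
  pieceG0 good7 c7_958 x7_958

theorem n7_959 : NoCfg 7 0x80003800800038008000800038003800380080000487 0xc8008000c8008000c800c8008000c8008000c800099a :=
  pieceG good7 c7_959 x7_959 (by
    simp only [List.forall_mem_cons, List.not_mem_nil, false_imp_iff, implies_true, and_true]
    exact ⟨n7_956, n7_957, n7_958⟩)

theorem n7_960 : NoCfg 7 0x800080008000600080008000680080006180700006f0 0xa780a780900080009d00a9008000a90074408000099a :=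
  pieceG0 good7 c7_960 x7_960

theorem n7_961 : NoCfg 7 0x80008000800060008e808000680080006180600006f0 0xa780a780a00080009d00a9008000a90080007000099a :=
  pieceG0 good7 c7_961 x7_961

theorem n7_962 : NoCfg 7 0x800080008000600080008000680080006180700006f0 0xa780a780a00080009d00a9008000a90080008000099a :=
  pieceG good7 c7_962 x7_962 (by
    simp only [List.forall_mem_cons, List.not_mem_nil, false_imp_iff, implies_true, and_true]
    exact n7_960)

theorem n7_963 : NoCfg 7 0x80008000800064408000800068003800380065000487 0xc800c800c80080009800c8008000800080008000099a :=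
  pieceG0 good7 c7_963 x7_963

theorem n7_964 : NoCfg 7 0x80008000800038008000800038008000380038000487 0xc800c800c8008000c800c8008000c80080008000099a :=
  pieceG good7 c7_964 x7_964 (by
    simp only [List.forall_mem_cons, List.not_mem_nil, false_imp_iff, implies_true, and_true]
    exact ⟨n7_961, n7_962⟩)

theorem n7_965 : NoCfg 7 0x80006240800060c080009180688092406200620006f0 0xa9008000a14080009c80a2c08000a44080008000099a :=
  pieceG0 good7 c7_965 x7_965

theorem n7_966 : NoCfg 7 0x80006240800060c080008000688080006200620006f0 0xa9008000a14080009c80a2c08000924080008000099a :=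
  pieceG0 good7 c7_966 x7_966

theorem n7_967 : NoCfg 7 0x80003800800038008000800038008000380038000487 0xc8008000c8008000c800c8008000c80080008000099a :=
  pieceG good7 c7_967 x7_967 (by
    simp only [List.forall_mem_cons, List.not_mem_nil, false_imp_iff, implies_true, and_true]
    exact ⟨n7_966, n7_965⟩)

theorem n7_968 : NoCfg 7 0x80003800800038008000800038003800380080000487 0xc800c800c8008000c800c8008000c8008000c800099a :=
  pieceG good7 c7_968 x7_968 (by
    simp only [List.forall_mem_cons, List.not_mem_nil, false_imp_iff, implies_true, and_true]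
    exact ⟨n7_959, n7_955, n7_949, n7_948⟩)

theorem n7_969 : NoCfg 7 0x80003800800080008000800038003800380038000487 0xc800c800c800c800c800c8008000c8008000c800099a :=
  pieceG good7 c7_969 x7_969 (by
    simp only [List.forall_mem_cons, List.not_mem_nil, false_imp_iff, implies_true, and_true]
    exact ⟨n7_939, n7_931, n7_932, n7_914, n7_915⟩)

theorem n7_970 : NoCfg 7 0x8e4080008d8080008d007840740090406180800006b0 0xaa00ae009880ae0095c080008000af808000af80099a :=
  pieceG0 good7 c7_970 x7_970

theorem n7_971 : NoCfg 7 0x8e4080008d80800095c07840740090406180800006b0 0xaa00ae00a340ae009e8080008000af808000af80099a :=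
  pieceG0 good7 c7_971 x7_971

theorem n7_972 : NoCfg 7 0x8e4080008d8080008d0070c0680080006180800006b0 0xaa00ae00a340ae009e8080008000af808000af80099a :=
  pieceG good7 c7_972 x7_972 (by
    simp only [List.forall_mem_cons, List.not_mem_nil, false_imp_iff, implies_true, and_true]
    exact ⟨n7_970, n7_971⟩)

theorem n7_973 : NoCfg 7 0x800080008000800080006180680080006180800006b0 0xaa00ae00a340ae008f4070c08000af808000af80099a :=
  pieceG0 good7 c7_973 x7_973

theorem n7_974 : NoCfg 7 0x800080008000800080005f4067c05f406140800006f0 0xa900a5c0a0c0a5c09d406f8080006f808000a440099a :=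
  pieceG0 good7 c7_974 x7_974

theorem n7_975 : NoCfg 7 0x800080008000800080005f4067c06f806140800006f0 0xa900a5c0a0c0a5c09d408000800080008000a440099a :=
  pieceG0 good7 c7_975 x7_975

theorem n7_976 : NoCfg 7 0x80008000800080008000380067c03800380080000487 0xc800c800c800c8009d408000800080008000c800099a :=
  pieceG good7 c7_976 x7_976 (by
    simp only [List.forall_mem_cons, List.not_mem_nil, false_imp_iff, implies_true, and_true]
    exact ⟨n7_974, n7_975⟩)

theorem n7_977 : NoCfg 7 0x800061808000800080006000734080006200800006f0 0xa7808000a240a5409e8080008000a9008000a900099a :=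
  pieceG0 good7 c7_977 x7_977

theorem n7_978 : NoCfg 7 0x800064808000800080006000680061806180900006f0 0xa9008000a000a0009d008000800080008000a000099a :=
  pieceG0 good7 c7_978 x7_978

theorem n7_979 : NoCfg 7 0x80006480800080008000380068003800380080000487 0xc8008000c800c800c8008000800080008000c800099a :=
  pieceG good7 c7_979 x7_979 (by
    simp only [List.forall_mem_cons, List.not_mem_nil, false_imp_iff, implies_true, and_true]
    exact n7_978)

theorem n7_980 : NoCfg 7 0x80008000800080008000380038003800380080000487 0xc800c800c800c800c80080008000c8008000c800099a :=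
  pieceG good7 c7_980 x7_980 (by
    simp only [List.forall_mem_cons, List.not_mem_nil, false_imp_iff, implies_true, and_true]
    exact ⟨n7_976, n7_973, n7_972⟩)

theorem n7_981 : NoCfg 7 0x800080009000800080006000680080006180700006f0 0xa780a540a000a5409d0070008000a90074408000099a :=
  pieceG0 good7 c7_981 x7_981

theorem n7_982 : NoCfg 7 0x800080008000800080006000680080006180700006f0 0xa780a540a000a5409d0070008000a90074408000099a :=
  pieceG good7 c7_982 x7_982 (by
    simp only [List.forall_mem_cons, List.not_mem_nil, false_imp_iff, implies_true, and_true]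
    exact n7_981)

theorem n7_983 : NoCfg 7 0x800080008000800080006000680080006180600006f0 0xa780a540a000a5409d0080008000948080007000099a :=
  pieceG0 good7 c7_983 x7_983

theorem n7_984 : NoCfg 7 0x800080008000800080006000680080006180600006f0 0xa780a540a000a5409d0080008000a90080007000099a :=
  pieceG good7 c7_984 x7_984 (by
    simp only [List.forall_mem_cons, List.not_mem_nil, false_imp_iff, implies_true, and_true]
    exact n7_983)

theorem n7_985 : NoCfg 7 0x80008000800080008000380038008000380038000487 0xc800c800c800c800c80080008000c80080008000099a :=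
  pieceG good7 c7_985 x7_985 (by
    simp only [List.forall_mem_cons, List.not_mem_nil, false_imp_iff, implies_true, and_true]
    exact ⟨n7_984, n7_982⟩)

theorem n7_986 : NoCfg 7 0x8dc06bc08000800080005f406880914066806a4007a0 0xa1008000a14091409c806f808000a24071008000099a :=
  pieceG0 good7 c7_986 x7_986

theorem n7_987 : NoCfg 7 0x800062808000800080005f40688091406200620006f0 0xa9008000a140a2409c8080008000a24071008000099a :=
  pieceG good7 c7_987 x7_987 (by
    simp only [List.forall_mem_cons, List.not_mem_nil, false_imp_iff, implies_true, and_true]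
    exact n7_986)

theorem n7_988 : NoCfg 7 0x800062808000800080005f40688080006200620006f0 0xa9008000a140a2409c8080008000914080008000099a :=
  pieceG0 good7 c7_988 x7_988

theorem n7_989 : NoCfg 7 0x80003800800080008000380038008000380038000487 0xc8008000c800c800c80080008000c80080008000099a :=
  pieceG good7 c7_989 x7_989 (by
    simp only [List.forall_mem_cons, List.not_mem_nil, false_imp_iff, implies_true, and_true]
    exact ⟨n7_988, n7_987⟩)

theorem n7_990 : NoCfg 7 0x80003800800080008000380038003800380038000487 0xc800c800c800c800c80080008000c80080008000099a :=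
  pieceG good7 c7_990 x7_990 (by
    simp only [List.forall_mem_cons, List.not_mem_nil, false_imp_iff, implies_true, and_true]
    exact ⟨n7_989, n7_985⟩)

theorem n7_991 : NoCfg 7 0x800080008000618080006000734080006200800006f0 0xa540a440a24080009e8080008000a9008000a900099a :=
  pieceG0 good7 c7_991 x7_991

theorem n7_992 : NoCfg 7 0x80008000800064808000380068003800634080000487 0xc800c800c8008000c8008000800080008000c800099a :=
  pieceG0 good7 c7_992 x7_992

theorem n7_993 : NoCfg 7 0x80003800800038008000380038003800380080000487 0xc8008000c8008000c80080008000c8008000c800099a :=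
  pieceG0 good7 c7_993 x7_993

theorem n7_994 : NoCfg 7 0x800080008000628080006100688091406200620006f0 0xa5c0a0c0a0c080009c8080008000a24071008000099a :=
  pieceG0 good7 c7_994 x7_994

theorem n7_995 : NoCfg 7 0x80008000800038008000380068808000380038000487 0xc800c800c8008000c80080008000c80080008000099a :=
  pieceG good7 c7_995 x7_995 (by
    simp only [List.forall_mem_cons, List.not_mem_nil, false_imp_iff, implies_true, and_true]
    exact n7_994)

theorem n7_996 : NoCfg 7 0x80003800800038008000380038003800380038000487 0xc800c800c8008000c80080008000c80080008000099a :=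
  pieceG good7 c7_996 x7_996 (by
    simp only [List.forall_mem_cons, List.not_mem_nil, false_imp_iff, implies_true, and_true]
    exact n7_995)

theorem n7_997 : NoCfg 7 0x80003800800038008000380038003800380038000487 0xc800c800c8008000c80080008000c8008000c800099a :=
  pieceG good7 c7_997 x7_997 (by
    simp only [List.forall_mem_cons, List.not_mem_nil, false_imp_iff, implies_true, and_true]
    exact ⟨n7_996, n7_993, n7_992, n7_991⟩)

theorem n7_998 : NoCfg 7 0x80003800800038008000380038003800380038000487 0xc800c800c800c800c80080008000c8008000c800099a :=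
  pieceG good7 c7_998 x7_998 (by
    simp only [List.forall_mem_cons, List.not_mem_nil, false_imp_iff, implies_true, and_true]
    exact ⟨n7_997, n7_990, n7_979, n7_977, n7_980⟩)

theorem n7_999 : NoCfg 7 0x38003800800038008000380038008000380080000487 0x8000c800c800c800c800c8008000c8008000c800099a :=
  pieceG0 good7 c7_999 x7_999

theorem n7_1000 : NoCfg 7 0x38003800800038008000380038003800380038000487 0x8000c800c800c800c800c8008000c80080008000099a :=
  pieceG0 good7 c7_1000 x7_1000

theorem n7_1001 : NoCfg 7 0x80003800800038008000380038003800380038000487 0xc800c800c800c800c800c8008000c8008000c800099a :=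
  pieceG good7 c7_1001 x7_1001 (by
    simp only [List.forall_mem_cons, List.not_mem_nil, false_imp_iff, implies_true, and_true]
    exact ⟨n7_998, n7_967, n7_963, n7_964, n7_968, n7_969⟩)

theorem n7_1002 : NoCfg 7 0x800080007d00950080008000700080006440800006f0 0x9e00c8008000b9408300c8008000c8008000c800099a :=
  pieceG0 good7 c7_1002 x7_1002

theorem n7_1003 : NoCfg 7 0x80003800380038008000380038008000380080000487 0xc800c8008000c800c800c8008000c8008000c800099a :=
  pieceG good7 c7_1003 x7_1003 (by
    simp only [List.forall_mem_cons, List.not_mem_nil, false_imp_iff, implies_true, and_true]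
    exact n7_1002)

theorem n7_1004 : NoCfg 7 0x80003800380038008000380038008000380038000487 0xc800c8008000c800c800c8008000c80080008000099a :=
  pieceG0 good7 c7_1004 x7_1004

theorem n7_1005 : NoCfg 7 0x80003800380038008000380038003800380080000487 0xc800c8008000c800c800c8008000c8008000c800099a :=
  pieceG good7 c7_1005 x7_1005 (by
    simp only [List.forall_mem_cons, List.not_mem_nil, false_imp_iff, implies_true, and_true]
    exact n7_1003)

theorem n7_1006 : NoCfg 7 0x38003800380038008000380038008000380080000487 0x8000c8008000c800c800c8008000c8008000c800099a :=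
  pieceG0 good7 c7_1006 x7_1006

theorem n7_1007 : NoCfg 7 0x38003800380038008000380038003800380038000487 0x8000c8008000c800c800c8008000800080008000099a :=
  pieceG0 good7 c7_1007 x7_1007

theorem n7_1008 : NoCfg 7 0x38003800380038008000380038003800380038000487 0x8000c8008000c800c800c8008000c80080008000099a :=
  pieceG good7 c7_1008 x7_1008 (by
    simp only [List.forall_mem_cons, List.not_mem_nil, false_imp_iff, implies_true, and_true]
    exact n7_1007)

theorem n7_1009 : NoCfg 7 0x80003800380038008000380038003800380038000487 0xc800c8008000c800c800c8008000c8008000c800099a :=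
  pieceG good7 c7_1009 x7_1009 (by
    simp only [List.forall_mem_cons, List.not_mem_nil, false_imp_iff, implies_true, and_true]
    exact ⟨n7_1004, n7_1005⟩)

theorem n7_1010 : NoCfg 7 0x9a4080008fc0998073c08e40740090805f40800006b0 0xa58090409b80a6408000b4808000b4808000b600099a :=
  pieceG0 good7 c7_1010 x7_1010

theorem n7_1011 : NoCfg 7 0x9a4080008fc08cc073c08e40740090805f40800006b0 0xa58098c09f4099808000b4808000b4808000b600099a :=
  pieceG0 good7 c7_1011 x7_1011

theorem n7_1012 : NoCfg 7 0x9a4080008fc0800073c08e40740090805f40800006b0 0xa580b1809f408cc08000b4808000b4808000b600099a :=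
  pieceG0 good7 c7_1012 x7_1012

theorem n7_1013 : NoCfg 7 0x8ec098c08fc0800073c08e407400a2805f40800006b0 0x9a40a5409ac08cc08000b4808000ab808000b600099a :=
  pieceG0 good7 c7_1013 x7_1013

theorem n7_1014 : NoCfg 7 0x8ec098c08fc0800073c08e40740099805f40800006b0 0x9a40a5409ac08cc08000b4808000a2808000b600099a :=
  pieceG0 good7 c7_1014 x7_1014

theorem n7_1015 : NoCfg 7 0x8ec098c08fc0800073c08e40740090805f40800006b0 0x9a40a5409ac08cc08000b4808000b4808000b600099a :=
  pieceG good7 c7_1015 x7_1015 (by
    simp only [List.forall_mem_cons, List.not_mem_nil, false_imp_iff, implies_true, and_true]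
    exact ⟨n7_1014, n7_1013⟩)

theorem n7_1016 : NoCfg 7 0x8ec098c08fc0800073c08e40740090805f40800006b0 0x9a40a5409ac099808000b4808000b4808000b600099a :=
  pieceG good7 c7_1016 x7_1016 (by
    simp only [List.forall_mem_cons, List.not_mem_nil, false_imp_iff, implies_true, and_true]
    exact n7_1015)

theorem n7_1017 : NoCfg 7 0x8ec0a5408fc0800073c08e40740090805f40800006b0 0x9a40b1809ac0b3008000b4808000b4808000b600099a :=
  pieceG0 good7 c7_1017 x7_1017

theorem n7_1018 : NoCfg 7 0x8ec08c808fc0998073c08e40740090805f40800006b0 0x9a4098c09ac0a6408000b4808000b4806f80b600099a :=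
  pieceG0 good7 c7_1018 x7_1018

theorem n7_1019 : NoCfg 7 0x91c080008fc0998073c0ab0074009700668087800790 0x9a408c809ac0a6408000af0080009f406cc09300099a :=
  pieceG0 good7 c7_1019 x7_1019

theorem n7_1020 : NoCfg 7 0x8ec080008fc0998073c0a180740090805f40800006b0 0x9a408c809ac0a6408000ab008000b4808000b600099a :=
  pieceG0 good7 c7_1020 x7_1020

theorem n7_1021 : NoCfg 7 0x964c85c095409c807f809a017e00ab416b40904008a9 0x96c086c096c09e0080009a808000abc06bc091c008c0 :=
  pieceG0 good7 c7_1021 x7_1021

theorem n7_1022 : NoCfg 7 0x958085c093409b007d8099407a00aa806a0090800890 0x9740880096c09fc080009ac08000ac006b40928008f0 :=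
  pieceG0 good7 c7_1022 x7_1022

theorem n7_1023 : NoCfg 7 0x9580850093409b007cc099407a00aa006b408e400890 0x9740880098009fc080009ac08000ac006c80928008f0 :=
  pieceG good7 c7_1023 x7_1023 (by
    simp only [List.forall_mem_cons, List.not_mem_nil, false_imp_iff, implies_true, and_true]
    exact n7_1021)

theorem n7_1024 : NoCfg 7 0x94c083808fc099807cc098807a00a6406a008cc00810 0x97408c809800a64080009cc08000ad406c8094400930 :=
  pieceG good7 c7_1024 x7_1024 (by
    simp only [List.forall_mem_cons, List.not_mem_nil, false_imp_iff, implies_true, and_true]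
    exact ⟨n7_1022, n7_1023⟩)

theorem n7_1025 : NoCfg 7 0x91c080008fc0998076c096c07400a280658085000810 0x9a408c809ac0a64080009ec08000af806a009440099a :=
  pieceG0 good7 c7_1025 x7_1025

theorem n7_1026 : NoCfg 7 0x91c080008fc0998073c093007400a2805f4080000790 0x9a408c809ac0a6408000a1808000b48080009440099a :=
  pieceG good7 c7_1026 x7_1026 (by
    simp only [List.forall_mem_cons, List.not_mem_nil, false_imp_iff, implies_true, and_true]
    exact ⟨n7_1025, n7_1024⟩)

theorem n7_1027 : NoCfg 7 0x8ec080008fc0998073c08e40740090805f40800006b0 0x9a408c809ac0a6408000b4808000b4808000b600099a :=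
  pieceG good7 c7_1027 x7_1027 (by
    simp only [List.forall_mem_cons, List.not_mem_nil, false_imp_iff, implies_true, and_true]
    exact ⟨n7_1026, n7_1020, n7_1019⟩)

theorem n7_1028 : NoCfg 7 0x8ec080008fc0a64073c08e40740090805f40800006b0 0x9a4098c09ac0b3008000b4808000b4808000b600099a :=
  pieceG0 good7 c7_1028 x7_1028

theorem n7_1029 : NoCfg 7 0x8ec080008fc08cc073c08e40740090805f40800006b0 0x9a408c809ac099808000b4808000b4806f80b600099a :=
  pieceG0 good7 c7_1029 x7_1029

theorem n7_1030 : NoCfg 7 0x8ec080008fc0800073c08e40740090805f40800006b0 0x9a4098c09ac08cc08000b4808000b4808000b600099a :=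
  pieceG0 good7 c7_1030 x7_1030

theorem n7_1031 : NoCfg 7 0x8ec080008fc0800073c08e40740090805f40800006b0 0x9a4098c09ac099808000b4808000b4808000b600099a :=
  pieceG good7 c7_1031 x7_1031 (by
    simp only [List.forall_mem_cons, List.not_mem_nil, false_imp_iff, implies_true, and_true]
    exact ⟨n7_1030, n7_1029⟩)

theorem n7_1032 : NoCfg 7 0x9a4080008fc0800073c08e40740090805f40800006b0 0xa580b1809f40b3008000b4808000b4808000b600099a :=
  pieceG good7 c7_1032 x7_1032 (by
    simp only [List.forall_mem_cons, List.not_mem_nil, false_imp_iff, implies_true, and_true]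
    exact ⟨n7_1012, n7_1011, n7_1010⟩)

theorem n7_1033 : NoCfg 7 0x8ec080008fc080006fc08000740080005f40800006b0 0xa580b1809f40c8008000c8008000c8008000c800099a :=
  pieceG good7 c7_1033 x7_1033 (by
    simp only [List.forall_mem_cons, List.not_mem_nil, false_imp_iff, implies_true, and_true]
    exact ⟨n7_1031, n7_1027, n7_1018, n7_1028, n7_1016, n7_1017, n7_1032⟩)

theorem n7_1034 : NoCfg 7 0x9c4080008000800073c09000740090005f40800006b0 0xa5809a408fc0b6008000b6008000b6008000b600099a :=
  pieceG0 good7 c7_1034 x7_1034

theorem n7_1035 : NoCfg 7 0x92c09a408000800073c09000740090006f80800006b0 0x9c40a7808fc0b6008000b6008000b6008000b600099a :=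
  pieceG0 good7 c7_1035 x7_1035

theorem n7_1036 : NoCfg 7 0x92c09a408000800073c09000740090005f40800006b0 0x9c40a7808fc0b6008000b6008000b6008000b600099a :=
  pieceG good7 c7_1036 x7_1036 (by
    simp only [List.forall_mem_cons, List.not_mem_nil, false_imp_iff, implies_true, and_true]
    exact n7_1035)

theorem n7_1037 : NoCfg 7 0x92c08d4080009b0073c090007400900069408d8006b0 0x9c4093c08fc0a8808000b6008000b6006f809b00099a :=
  pieceG0 good7 c7_1037 x7_1037

theorem n7_1038 : NoCfg 7 0x92c08d4080009b0073c090007400900063408d8006b0 0x9c4093c08fc0a8808000b6008000b6006f809b00099a :=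
  pieceG good7 c7_1038 x7_1038 (by
    simp only [List.forall_mem_cons, List.not_mem_nil, false_imp_iff, implies_true, and_true]
    exact n7_1037)

theorem n7_1039 : NoCfg 7 0x92c08d4080009b0073c09000740090006340800006b0 0x9c409a408fc0a8808000b6008000b6006f809b00099a :=
  pieceG good7 c7_1039 x7_1039 (by
    simp only [List.forall_mem_cons, List.not_mem_nil, false_imp_iff, implies_true, and_true]
    exact n7_1038)

theorem n7_1040 : NoCfg 7 0x92c08d4080009b0073c09000740090005f40800006b0 0x9c409a408fc0a8808000b6008000b6008000b600099a :=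
  pieceG good7 c7_1040 x7_1040 (by
    simp only [List.forall_mem_cons, List.not_mem_nil, false_imp_iff, implies_true, and_true]
    exact n7_1039)

theorem n7_1041 : NoCfg 7 0x92c08d408000800073c09000740090005f40800006b0 0x9c409a408fc09b008000b6008000b6008000b600099a :=
  pieceG0 good7 c7_1041 x7_1041

theorem n7_1042 : NoCfg 7 0x92c086c080009b0073c090007400900063408d800790 0x9c408d408fc0a1c08000b6008000b6006f809b00099a :=
  pieceG0 good7 c7_1042 x7_1042

theorem n7_1043 : NoCfg 7 0x92c086c080009b0073c0900074009000634080000790 0x9c408d408fc0a8808000b6008000b6006f808d80099a :=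
  pieceG0 good7 c7_1043 x7_1043

theorem n7_1044 : NoCfg 7 0x92c0800080009b0073c0900074009000634080000790 0x9c4086c08fc0a8808000b6008000b6006f809b00099a :=
  pieceG0 good7 c7_1044 x7_1044

theorem n7_1045 : NoCfg 7 0x92c0800080009b0073c09000740090005f40800006b0 0x9c408d408fc0a8808000b6008000b6006f80b600099a :=
  pieceG good7 c7_1045 x7_1045 (by
    simp only [List.forall_mem_cons, List.not_mem_nil, false_imp_iff, implies_true, and_true]
    exact ⟨n7_1044, n7_1043, n7_1042⟩)

theorem n7_1046 : NoCfg 7 0x92c080008000800073c09000740090005f40800006b0 0x9c408d408fc09b008000b6008000b6008000b600099a :=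
  pieceG0 good7 c7_1046 x7_1046

theorem n7_1047 : NoCfg 7 0x92c080008000800073c09000740090005f40800006b0 0x9c408d408fc0b6008000b6008000b6008000b600099a :=
  pieceG good7 c7_1047 x7_1047 (by
    simp only [List.forall_mem_cons, List.not_mem_nil, false_imp_iff, implies_true, and_true]
    exact ⟨n7_1046, n7_1045⟩)

theorem n7_1048 : NoCfg 7 0x92c080008000800073c09000740090005f40800006b0 0x9c40b4808fc0b6008000b6008000b6008000b600099a :=
  pieceG good7 c7_1048 x7_1048 (by
    simp only [List.forall_mem_cons, List.not_mem_nil, false_imp_iff, implies_true, and_true]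
    exact ⟨n7_1047, n7_1041, n7_1040, n7_1036⟩)

theorem n7_1049 : NoCfg 7 0x80009200800097406fc08000740080006f80800006b0 0x92c0a4008fc0a4008000c8008000c8008000c800099a :=
  pieceG0 good7 c7_1049 x7_1049

theorem n7_1050 : NoCfg 7 0x80009200800080006fc08000740080006f80800006b0 0x92c0a4008fc0c8008000c8008000c8008000c800099a :=
  pieceG good7 c7_1050 x7_1050 (by
    simp only [List.forall_mem_cons, List.not_mem_nil, false_imp_iff, implies_true, and_true]
    exact n7_1049)

theorem n7_1051 : NoCfg 7 0x8000a400800080006fc08000740080006f80800006b0 0x92c0c8008fc0c8008000c8008000c8008000c800099a :=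
  pieceG0 good7 c7_1051 x7_1051

theorem n7_1052 : NoCfg 7 0x87809b008000800076c09200740090006340800006b0 0x92c0b6008fc0b6008000b5c08000b6006f80b2c0099a :=
  pieceG0 good7 c7_1052 x7_1052

theorem n7_1053 : NoCfg 7 0x80008000800080006fc08000740080005f40800006b0 0x92c0c8008fc0c8008000c8008000c8006f80c800099a :=
  pieceG good7 c7_1053 x7_1053 (by
    simp only [List.forall_mem_cons, List.not_mem_nil, false_imp_iff, implies_true, and_true]
    exact n7_1052)

theorem n7_1054 : NoCfg 7 0x92c08000800080006fc08000740080005f40800006b0 0xa580c8008fc0c8008000c8008000c8008000c800099a :=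
  pieceG good7 c7_1054 x7_1054 (by
    simp only [List.forall_mem_cons, List.not_mem_nil, false_imp_iff, implies_true, and_true]
    exact ⟨n7_1048, n7_1034⟩)

theorem n7_1055 : NoCfg 7 0x98c080008fc0800077c090006800800069c0800006b0 0xa58099809a009a408000b6007400b2c07440b2c0099a :=
  pieceG0 good7 c7_1055 x7_1055

theorem n7_1056 : NoCfg 7 0x98c080008fc0800077c090006800800069c0800006b0 0xa580b3009a00b4808000b6007400b2c07440b2c0099a :=
  pieceG good7 c7_1056 x7_1056 (by
    simp only [List.forall_mem_cons, List.not_mem_nil, false_imp_iff, implies_true, and_true]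
    exact n7_1055)

theorem n7_1057 : NoCfg 7 0x98c0800088009a406fc090006800800069c0800006b0 0x9fc0a6408fc0a7808000b6007400b2c07440b2c0099a :=
  pieceG0 good7 c7_1057 x7_1057

theorem n7_1058 : NoCfg 7 0x98c08000880092406fc090006800800069c0800006b0 0xa08093408fc09a408000b6007400b2c07440b2c0099a :=
  pieceG0 good7 c7_1058 x7_1058

theorem n7_1059 : NoCfg 7 0x98c08000800080006fc090006800800069c0800006b0 0xa580b3008800b4808000b6007400b2c07440b2c0099a :=
  pieceG0 good7 c7_1059 x7_1059

theorem n7_1060 : NoCfg 7 0x98c08000800080006fc090006800800069c0800006b0 0xa580b3008fc0b4808000b6007400b2c07440b2c0099a :=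
  pieceG good7 c7_1060 x7_1060 (by
    simp only [List.forall_mem_cons, List.not_mem_nil, false_imp_iff, implies_true, and_true]
    exact ⟨n7_1059, n7_1058, n7_1057⟩)

theorem n7_1061 : NoCfg 7 0x8f8099808fc080006fc090006800800069c0800006b0 0x98c0a64099408d408000b6007400b2c07440b2c0099a :=
  pieceG0 good7 c7_1061 x7_1061

theorem n7_1062 : NoCfg 7 0x8bc099808fc080006fc090006800800069c0800006b0 0x98c0a6409940b4808000b6007400b2c07440b2c0099a :=
  pieceG good7 c7_1062 x7_1062 (by
    simp only [List.forall_mem_cons, List.not_mem_nil, false_imp_iff, implies_true, and_true]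
    exact n7_1061)

theorem n7_1063 : NoCfg 7 0x8f408cc08fc09a406fc090006800800069c0800006b0 0x98c099809940a4408000b6007400b2c07440b2c0099a :=
  pieceG0 good7 c7_1063 x7_1063

theorem n7_1064 : NoCfg 7 0x8f4080008fc09a4077c090006800800069c0800006b0 0x98c08cc09940a8408000a3007400b2c07440b2c0099a :=
  pieceG0 good7 c7_1064 x7_1064

theorem n7_1065 : NoCfg 7 0x8f4080008fc09a406fc090006800800069c0800006b0 0x98c08cc09940ae008000b6007400b2c07440b2c0099a :=
  pieceG good7 c7_1065 x7_1065 (by
    simp only [List.forall_mem_cons, List.not_mem_nil, false_imp_iff, implies_true, and_true]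
    exact n7_1064)

theorem n7_1066 : NoCfg 7 0x8f8080008fc08d406fc090006800800069c0800006b0 0x98c0998099409a408000b6007400b2c07440b2c0099a :=
  pieceG0 good7 c7_1066 x7_1066

theorem n7_1067 : NoCfg 7 0x8bc080008fc09a406fc090006800800069c0800006b0 0x98c099809940b4808000b6007400b2c07440b2c0099a :=
  pieceG good7 c7_1067 x7_1067 (by
    simp only [List.forall_mem_cons, List.not_mem_nil, false_imp_iff, implies_true, and_true]
    exact ⟨n7_1065, n7_1063⟩)

theorem n7_1068 : NoCfg 7 0x8bc09980880080006fc090006800800069c0800006b0 0x98c0a6408fc0b4808000b6007400b2c07440b2c0099a :=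
  pieceG0 good7 c7_1068 x7_1068

theorem n7_1069 : NoCfg 7 0x90c0800088009a4077c090006800800069c0800006b0 0x98c08cc08fc0a7808000a3007400b2c07440b2c0099a :=
  pieceG0 good7 c7_1069 x7_1069

theorem n7_1070 : NoCfg 7 0x8bc08cc088009a406fc090006800800069c0800006b0 0x98c099808fc0a7808000b6007400b2c07440b2c0099a :=
  pieceG0 good7 c7_1070 x7_1070

theorem n7_1071 : NoCfg 7 0x8bc080008800a7806fc090006800800069c0800006b0 0x98c099808fc0b4808000b6007400b2c07440b2c0099a :=
  pieceG0 good7 c7_1071 x7_1071

theorem n7_1072 : NoCfg 7 0x8bc0800088008e006fc090006800800069c0800006b0 0x98c08cc08fc09a408000b6007400b2c07440b2c0099a :=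
  pieceG0 good7 c7_1072 x7_1072

theorem n7_1073 : NoCfg 7 0x8bc0800088009a406fc090006800800069c0800006b0 0x98c099808fc0b4808000b6007400b2c07440b2c0099a :=
  pieceG good7 c7_1073 x7_1073 (by
    simp only [List.forall_mem_cons, List.not_mem_nil, false_imp_iff, implies_true, and_true]
    exact ⟨n7_1069, n7_1070, n7_1071⟩)

theorem n7_1074 : NoCfg 7 0x8f808000800091c076c090006800800069c0800006b0 0x98c099808800b4808000b6007400b2c07440b2c0099a :=
  pieceG0 good7 c7_1074 x7_1074

theorem n7_1075 : NoCfg 7 0x8bc08000880080006fc090006800800069c0800006b0 0x98c0b3008fc0b4808000b6007400b2c07440b2c0099a :=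
  pieceG good7 c7_1075 x7_1075 (by
    simp only [List.forall_mem_cons, List.not_mem_nil, false_imp_iff, implies_true, and_true]
    exact ⟨n7_1072, n7_1073, n7_1068⟩)

theorem n7_1076 : NoCfg 7 0x8bc080008fc080006fc090006800800069c0800006b0 0x98c0b3009f40b4808000b6007400b2c07440b2c0099a :=
  pieceG good7 c7_1076 x7_1076 (by
    simp only [List.forall_mem_cons, List.not_mem_nil, false_imp_iff, implies_true, and_true]
    exact ⟨n7_1066, n7_1067, n7_1062⟩)

theorem n7_1077 : NoCfg 7 0x90c080008fc09a4073c09580680080005f408cc006b0 0x9ec099809940b4808000a3007400b2c069c09980099a :=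
  pieceG0 good7 c7_1077 x7_1077

theorem n7_1078 : NoCfg 7 0x90c099808fc0800073c09000680080005f408cc006b0 0x9ec0b3009940b4808000b6007400b2c069c09980099a :=
  pieceG0 good7 c7_1078 x7_1078

theorem n7_1079 : NoCfg 7 0x90c080008fc09a4073c0900068008f005f40800006b0 0x9ec0b3009940b4808000b6007400b2c069c08cc0099a :=
  pieceG0 good7 c7_1079 x7_1079

theorem n7_1080 : NoCfg 7 0x90c080008fc0800073c09000680080005f40800006b0 0x9ec0b3009940b4808000b6007400b2c069c08cc0099a :=
  pieceG good7 c7_1080 x7_1080 (by
    simp only [List.forall_mem_cons, List.not_mem_nil, false_imp_iff, implies_true, and_true]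
    exact n7_1079)

theorem n7_1081 : NoCfg 7 0x90c080008fc0800073c09000680080005f40998006b0 0x9ec0b3009940b4808000b6007400b2c069c0b2c0099a :=
  pieceG0 good7 c7_1081 x7_1081

theorem n7_1082 : NoCfg 7 0x90c0800084c09a4073c09580680080005f408cc006b0 0x9ec0b3008fc0b4808000a3007400b2c069c09980099a :=
  pieceG0 good7 c7_1082 x7_1082

theorem n7_1083 : NoCfg 7 0x90c0800084c0800073c0a300680080005f408cc006b0 0x9ec0b3008fc0b4808000b6007400b2c069c09980099a :=
  pieceG0 good7 c7_1083 x7_1083

theorem n7_1084 : NoCfg 7 0x90c0800084c09a4073c0900068008f005f40800006b0 0x9ec0b3008fc0b4808000b6007400b2c069c08cc0099a :=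
  pieceG0 good7 c7_1084 x7_1084

theorem n7_1085 : NoCfg 7 0x90c0800084c0800073c09000680080005f40800006b0 0x9ec0b3008fc0b4808000b6007400b2c069c09980099a :=
  pieceG good7 c7_1085 x7_1085 (by
    simp only [List.forall_mem_cons, List.not_mem_nil, false_imp_iff, implies_true, and_true]
    exact ⟨n7_1084, n7_1082, n7_1083⟩)

theorem n7_1086 : NoCfg 7 0x90c080008fc0800073c09000680080005f40800006b0 0x9ec0b3009f40b4808000b6007400b2c069c0b2c0099a :=
  pieceG good7 c7_1086 x7_1086 (by
    simp only [List.forall_mem_cons, List.not_mem_nil, false_imp_iff, implies_true, and_true]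
    exact ⟨n7_1080, n7_1077, n7_1078, n7_1081⟩)

theorem n7_1087 : NoCfg 7 0x8bc08000800080006fc090006800800069c0800006b0 0xa580b3009f40b4808000b6007400b2c07440b2c0099a :=
  pieceG good7 c7_1087 x7_1087 (by
    simp only [List.forall_mem_cons, List.not_mem_nil, false_imp_iff, implies_true, and_true]
    exact ⟨n7_1074, n7_1075, n7_1076, n7_1060, n7_1056⟩)

theorem n7_1088 : NoCfg 7 0x80008000800080006fc08000680080005f40800006b0 0xa580c8009f40c8008000c8007400c8008000c800099a :=
  pieceG good7 c7_1088 x7_1088 (by
    simp only [List.forall_mem_cons, List.not_mem_nil, false_imp_iff, implies_true, and_true]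
    exact ⟨n7_1085, n7_1086, n7_1087⟩)

theorem n7_1089 : NoCfg 7 0x8b0073408000800070409040688080006200800006f0 0xa00080009e00ae008000af808000af808000af80099a :=
  pieceG0 good7 c7_1089 x7_1089

theorem n7_1090 : NoCfg 7 0x80008000800080003800800038008000380080000487 0xc800c800c800c8008000c8008000c8008000c800099a :=
  pieceG good7 c7_1090 x7_1090 (by
    simp only [List.forall_mem_cons, List.not_mem_nil, false_imp_iff, implies_true, and_true]
    exact ⟨n7_1088, n7_1053, n7_1050, n7_1051, n7_1054, n7_1033⟩)

theorem n7_1091 : NoCfg 7 0x8000800080008000700038006a008000380080000487 0xc800c800c800c800800080008000c8008000c800099a :=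
  pieceG0 good7 c7_1091 x7_1091

theorem n7_1092 : NoCfg 7 0x8fc071809140870074c0650076009640688080000800 0x9a407ac0970090008000694080009cc06cc08340099a :=
  pieceG0 good7 c7_1092 x7_1092

theorem n7_1093 : NoCfg 7 0x8000648080008000700038006ac08000630080000487 0xc8008000c800c800800080008000c8008000c800099a :=
  pieceG good7 c7_1093 x7_1093 (by
    simp only [List.forall_mem_cons, List.not_mem_nil, false_imp_iff, implies_true, and_true]
    exact n7_1092)

theorem n7_1094 : NoCfg 7 0x80008000800071c0704090406a0080006200800006f0 0xa240ab409e0080008000af808000af808000af80099a :=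
  pieceG0 good7 c7_1094 x7_1094

theorem n7_1095 : NoCfg 7 0x80008000800038003800800038008000380080000487 0xc800c800c80080008000c8008000c8008000c800099a :=
  pieceG good7 c7_1095 x7_1095 (by
    simp only [List.forall_mem_cons, List.not_mem_nil, false_imp_iff, implies_true, and_true]
    exact n7_1094)

theorem n7_1096 : NoCfg 7 0x908080008d806bc07540640072009680670080000800 0x998096409b80800080006b0080009dc06e808880099a :=
  pieceG0 good7 c7_1096 x7_1096

theorem n7_1097 : NoCfg 7 0x80008000800038003800380038008000380080000487 0xc800c800c8008000800080008000c8008000c800099a :=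
  pieceG good7 c7_1097 x7_1097 (by
    simp only [List.forall_mem_cons, List.not_mem_nil, false_imp_iff, implies_true, and_true]
    exact n7_1096)

theorem n7_1098 : NoCfg 7 0x80003800800038003800800038008000380080000487 0xc800c800c80080008000c8008000c8008000c800099a :=
  pieceG good7 c7_1098 x7_1098 (by
    simp only [List.forall_mem_cons, List.not_mem_nil, false_imp_iff, implies_true, and_true]
    exact n7_1095)

theorem n7_1099 : NoCfg 7 0x80003800800080003800380038008000380080000487 0xc800c800c800c8008000c8008000c8008000c800099a :=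
  pieceG good7 c7_1099 x7_1099 (by
    simp only [List.forall_mem_cons, List.not_mem_nil, false_imp_iff, implies_true, and_true]
    exact ⟨n7_1093, n7_1091, n7_1089, n7_1090⟩)

theorem n7_1100 : NoCfg 7 0x80008000800080006fc0800069803800380080000487 0xc800c800c800c8008000c800800080008000c800099a :=
  pieceG0 good7 c7_1100 x7_1100

theorem n7_1101 : NoCfg 7 0x94806c0091808780748095406f8061006640800007d0 0x9800800097808e8080009f40800070806dc08e40099a :=
  pieceG0 good7 c7_1101 x7_1101

theorem n7_1102 : NoCfg 7 0x884064408000800070008fc06a006100630080000730 0xa0c080009c80a7808000a900800070808000a5c0099a :=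
  pieceG good7 c7_1102 x7_1102 (by
    simp only [List.forall_mem_cons, List.not_mem_nil, false_imp_iff, implies_true, and_true]
    exact n7_1101)

theorem n7_1103 : NoCfg 7 0x80008000800080003800380038003800380080000487 0xc800c800c800c80080008000800080008000c800099a :=
  pieceG0 good7 c7_1103 x7_1103

theorem n7_1104 : NoCfg 7 0x80003800800080003800800038003800380080000487 0xc800c800c800c8008000c800800080008000c800099a :=
  pieceG good7 c7_1104 x7_1104 (by
    simp only [List.forall_mem_cons, List.not_mem_nil, false_imp_iff, implies_true, and_true]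
    exact ⟨n7_1102, n7_1100⟩)

theorem n7_1105 : NoCfg 7 0x90c085c0910070407440974074c064806680800007d0 0x9b00914097c07a4080009bc080006ac06c4088c0099a :=
  pieceG0 good7 c7_1105 x7_1105

theorem n7_1106 : NoCfg 7 0x80008000800060c070008fc0698061406340800006f0 0xa140a2c09c0080008000a900800070808000a440099a :=
  pieceG good7 c7_1106 x7_1106 (by
    simp only [List.forall_mem_cons, List.not_mem_nil, false_imp_iff, implies_true, and_true]
    exact n7_1105)

theorem n7_1107 : NoCfg 7 0x80008000800038003800800038003800380080000487 0xc800c800c80080008000c800800080008000c800099a :=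
  pieceG good7 c7_1107 x7_1107 (by
    simp only [List.forall_mem_cons, List.not_mem_nil, false_imp_iff, implies_true, and_true]
    exact n7_1106)

theorem n7_1108 : NoCfg 7 0x80003800800038003800800038003800380080000487 0xc800c800c80080008000c800800080008000c800099a :=
  pieceG good7 c7_1108 x7_1108 (by
    simp only [List.forall_mem_cons, List.not_mem_nil, false_imp_iff, implies_true, and_true]
    exact n7_1107)

theorem n7_1109 : NoCfg 7 0x80003800800038003800380038003800380080000487 0xc800c800c80080008000c800800080008000c800099a :=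
  pieceG good7 c7_1109 x7_1109 (by
    simp only [List.forall_mem_cons, List.not_mem_nil, false_imp_iff, implies_true, and_true]
    exact n7_1108)

theorem n7_1110 : NoCfg 7 0x80003800800038003800380038008000380080000487 0xc800c800c800c8008000c8008000c8008000c800099a :=
  pieceG good7 c7_1110 x7_1110 (by
    simp only [List.forall_mem_cons, List.not_mem_nil, false_imp_iff, implies_true, and_true]
    exact ⟨n7_1097, n7_1098, n7_1099⟩)

theorem n7_1111 : NoCfg 7 0x80008000800080007040800038008000380038000487 0xc800c800c800c8008000c8008000c80080008000099a :=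
  pieceG0 good7 c7_1111 x7_1111

theorem n7_1112 : NoCfg 7 0x8000380080008000700080006a008000380038000487 0xc80080009c80c8008000c8008000c80080008000099a :=
  pieceG0 good7 c7_1112 x7_1112

theorem n7_1113 : NoCfg 7 0x92006f408ec0894074c064c072009380684079800840 0x99007a409b008fc08000698080009b006dc08000099a :=
  pieceG0 good7 c7_1113 x7_1113

theorem n7_1114 : NoCfg 7 0x8000680080008000704038006ac08000380038000487 0xc8008000c800c800800080008000c80080008000099a :=
  pieceG good7 c7_1114 x7_1114 (by
    simp only [List.forall_mem_cons, List.not_mem_nil, false_imp_iff, implies_true, and_true]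
    exact n7_1113)

theorem n7_1115 : NoCfg 7 0x80003800800080003800380038008000380038000487 0xc800c800c800c800800080008000c80080008000099a :=
  pieceG good7 c7_1115 x7_1115 (by
    simp only [List.forall_mem_cons, List.not_mem_nil, false_imp_iff, implies_true, and_true]
    exact n7_1114)

theorem n7_1116 : NoCfg 7 0x8000800080006000700080006a008000620062000487 0xa0c0a4409c8080008000c8008000c80080008000099a :=
  pieceG0 good7 c7_1116 x7_1116

theorem n7_1117 : NoCfg 7 0x80003800800038003800800038008000380038000487 0xc8008000c80080008000c8008000c80080008000099a :=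
  pieceG0 good7 c7_1117 x7_1117

theorem n7_1118 : NoCfg 7 0x8e4080008c807000758061006b008ec0668077c00810 0x9e409cc09b408000800069c080009f006f008000099a :=
  pieceG0 good7 c7_1118 x7_1118

theorem n7_1119 : NoCfg 7 0x80003800800038003800380038008000380038000487 0xc800c800c8008000800080008000c80080008000099a :=
  pieceG good7 c7_1119 x7_1119 (by
    simp only [List.forall_mem_cons, List.not_mem_nil, false_imp_iff, implies_true, and_true]
    exact n7_1118)

theorem n7_1120 : NoCfg 7 0x89c0660088808000754096807100610067807b800730 0xa0c080009b80954080009cc080006ac06e408000099a :=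
  pieceG0 good7 c7_1120 x7_1120

theorem n7_1121 : NoCfg 7 0x80003800800080003800800038003800380038000487 0xc8008000c800c8008000c8008000800080008000099a :=
  pieceG good7 c7_1121 x7_1121 (by
    simp only [List.forall_mem_cons, List.not_mem_nil, false_imp_iff, implies_true, and_true]
    exact n7_1120)

theorem n7_1122 : NoCfg 7 0x8b0085c08f006e40758095807180640067407b000820 0x9f4091409b8079c080009d0080006ac06e008000099a :=
  pieceG0 good7 c7_1122 x7_1122

theorem n7_1123 : NoCfg 7 0x80008000800038003800800038003800380038000487 0xc800c800c80080008000c8008000800080008000099a :=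
  pieceG good7 c7_1123 x7_1123 (by
    simp only [List.forall_mem_cons, List.not_mem_nil, false_imp_iff, implies_true, and_true]
    exact n7_1122)

theorem n7_1124 : NoCfg 7 0x80003800800080003800380038003800380038000487 0xc800c800c800c8008000c8008000800080008000099a :=
  pieceG good7 c7_1124 x7_1124 (by
    simp only [List.forall_mem_cons, List.not_mem_nil, false_imp_iff, implies_true, and_true]
    exact n7_1121)

theorem n7_1125 : NoCfg 7 0x80003800800038003800380038003800380038000487 0xc800c800c800c8008000c8008000c80080008000099a :=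
  pieceG good7 c7_1125 x7_1125 (by
    simp only [List.forall_mem_cons, List.not_mem_nil, false_imp_iff, implies_true, and_true]
    exact ⟨n7_1123, n7_1124, n7_1119, n7_1117, n7_1116, n7_1115, n7_1112, n7_1111⟩)

theorem n7_1126 : NoCfg 7 0x38003800800038003800380038008000380080000487 0x8000c800c800c8008000c8008000c8008000c800099a :=
  pieceG0 good7 c7_1126 x7_1126

theorem n7_1127 : NoCfg 7 0x38003800800038003800380038003800380038000487 0x8000c800c800c8008000c8008000800080008000099a :=
  pieceG0 good7 c7_1127 x7_1127

theorem n7_1128 : NoCfg 7 0x38003800800038003800380038003800380038000487 0x8000c800c800c8008000c8008000c80080008000099a :=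
  pieceG good7 c7_1128 x7_1128 (by
    simp only [List.forall_mem_cons, List.not_mem_nil, false_imp_iff, implies_true, and_true]
    exact n7_1127)

theorem n7_1129 : NoCfg 7 0x8f4080007780938075409380780092006440800006f0 0x9e80af808000b9c08000b9c08000ba807200b2c0099a :=
  pieceG0 good7 c7_1129 x7_1129

theorem n7_1130 : NoCfg 7 0x8f4080007780938075409380700092006440800006f0 0x9e80c8008000b9c08000b9c08000ba808000c800099a :=
  pieceG good7 c7_1130 x7_1130 (by
    simp only [List.forall_mem_cons, List.not_mem_nil, false_imp_iff, implies_true, and_true]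
    exact n7_1129)

theorem n7_1131 : NoCfg 7 0x80008000380080003800800038008000380080000487 0xc800c8008000c8008000c8008000c8008000c800099a :=
  pieceG good7 c7_1131 x7_1131 (by
    simp only [List.forall_mem_cons, List.not_mem_nil, false_imp_iff, implies_true, and_true]
    exact n7_1130)

theorem n7_1132 : NoCfg 7 0x80003800380038003800380038008000380080000487 0xc80080008000c8008000c8008000c8008000c800099a :=
  pieceG0 good7 c7_1132 x7_1132

theorem n7_1133 : NoCfg 7 0x80008000380038003800380038003800380080000487 0xc800c8008000c8008000c800800080008000c800099a :=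
  pieceG0 good7 c7_1133 x7_1133

theorem n7_1134 : NoCfg 7 0x80003800380038003800380038003800380080000487 0xc800c8008000c8008000c800800080008000c800099a :=
  pieceG good7 c7_1134 x7_1134 (by
    simp only [List.forall_mem_cons, List.not_mem_nil, false_imp_iff, implies_true, and_true]
    exact n7_1133)

theorem n7_1135 : NoCfg 7 0x80008000380038003800380038008000380038000487 0xc800c8008000c8008000c8008000c80080008000099a :=
  pieceG0 good7 c7_1135 x7_1135

theorem n7_1136 : NoCfg 7 0x80003800380038003800380038003800380038000487 0xc800c8008000c8008000c8008000800080008000099a :=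
  pieceG0 good7 c7_1136 x7_1136

theorem n7_1137 : NoCfg 7 0x80003800380038003800380038003800380038000487 0xc800c8008000c8008000c8008000c80080008000099a :=
  pieceG good7 c7_1137 x7_1137 (by
    simp only [List.forall_mem_cons, List.not_mem_nil, false_imp_iff, implies_true, and_true]
    exact ⟨n7_1136, n7_1135⟩)

theorem n7_1138 : NoCfg 7 0x38003800380038003800380038008000380080000487 0x8000c8008000c8008000c8008000c8008000c800099a :=
  pieceG0 good7 c7_1138 x7_1138

theorem n7_1139 : NoCfg 7 0x38003800380038003800380038003800380038000487 0x8000c8008000c8008000c8008000800080008000099a :=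
  pieceG0 good7 c7_1139 x7_1139

theorem n7_1140 : NoCfg 7 0x38003800380038003800380038003800380038000487 0x8000c8008000c8008000c8008000c80080008000099a :=
  pieceG good7 c7_1140 x7_1140 (by
    simp only [List.forall_mem_cons, List.not_mem_nil, false_imp_iff, implies_true, and_true]
    exact n7_1139)

theorem n7_1141 : NoCfg 7 0x80003800380038003800380038003800380038000487 0xc800c8008000c8008000c8008000c8008000c800099a :=
  pieceG good7 c7_1141 x7_1141 (by
    simp only [List.forall_mem_cons, List.not_mem_nil, false_imp_iff, implies_true, and_true]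
    exact ⟨n7_1137, n7_1134, n7_1132, n7_1131⟩)

theorem n7_1142 : NoCfg 7 0x38003800800038003800380038003800380038000487 0xc800c800c800c8008000c8008000c8008000c800099a :=
  pieceG good7 c7_1142 x7_1142 (by
    simp only [List.forall_mem_cons, List.not_mem_nil, false_imp_iff, implies_true, and_true]
    exact ⟨n7_1128, n7_1126, n7_1125, n7_1109, n7_1103, n7_1104, n7_1110⟩)

theorem n7_1143 : NoCfg 7 0x38003800380038008000380038003800380038000487 0xc800c800c800c800c800c8008000c8008000c800099a :=
  pieceG good7 c7_1143 x7_1143 (by
    simp only [List.forall_mem_cons, List.not_mem_nil, false_imp_iff, implies_true, and_true]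
    exact ⟨n7_1008, n7_1006, n7_1009, n7_1000, n7_999, n7_1001⟩)

theorem n7_1144 : NoCfg 7 0x38003800380038003800380038003800380038000487 0xc800c800c800c800c800c8008000c8008000c800099a :=
  pieceG good7 c7_1144 x7_1144 (by
    simp only [List.forall_mem_cons, List.not_mem_nil, false_imp_iff, implies_true, and_true]
    exact ⟨n7_1140, n7_1138, n7_1141, n7_1142, n7_1143⟩)

theorem n7_1145 : NoCfg 7 0x38003800380038003800380038003800800038000487 0xc800c800c800c800c800c800c800c800c800c800099a :=
  pieceG good7 c7_1145 x7_1145 (by
    simp only [List.forall_mem_cons, List.not_mem_nil, false_imp_iff, implies_true, and_true]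
    exact ⟨n7_314, n7_313, n7_315, n7_316, n7_300, n7_291, n7_284, n7_282, n7_285⟩)

theorem n7_1146 : NoCfg 7 0x38003800380038003800380038003800380038000487 0xc800c800c800c800c800c800c800c800c800c800099a :=
  pieceG good7 c7_1146 x7_1146 (by
    simp only [List.forall_mem_cons, List.not_mem_nil, false_imp_iff, implies_true, and_true]
    exact ⟨n7_1144, n7_738, n7_733, n7_734, n7_739, n7_1145⟩)

/-- the root box contains no configuration of `7` bodies -/
theorem noCfg7 : NoCfg 7 0x38003800380038003800380038003800380038000487 0xc800c800c800c800c800c800c800c800c800c800099a := n7_1146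

end RelEqN.Small.Box
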