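import Pool.Agent.Lib.MP_b9e19b_mp.Box.Root
import Pool.Agent.Lib.MP_b9e19b_mp.Cert.All4
import Pool.Agent.Lib.MP_b9e19b_mp.Cert.All5

set_option autoImplicit false

/-!
# No central configuration of `4` or `5` equal masses satisfies the necessary conditions
-/

namespace RelEqN.Small

open Box

theorem noNec4 : NoNec 4 := fun q hq => by
  obtain ⟨x, y, h⟩ := exists_cfg 4 (by norm_num) hq
  exact noCfg4 x y h (root4 h)

theorem noNec5 : NoNec 5 := fun q hq => by
  obtain ⟨x, y, h⟩ := exists_cfg 5 (by norm_num) hq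
  exact noCfg5 x y h (root5 h)

end RelEqN.Small
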