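import Pool.Agent.Lib.MP_b9e19b_mp.Box.Root
import Pool.Agent.Lib.MP_b9e19b_mp.Cert.All6

set_option autoImplicit false

/-!
# No central configuration of `6` equal masses satisfies the necessary conditions
-/

namespace RelEqN.Small

open Box

theorem noNec6 : NoNec 6 := fun q hq => by
  obtain ⟨x, y, h⟩ := exists_cfg 6 (by norm_num) hq
  exact noCfg6 x y h (root6 h)

end RelEqN.Small
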