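import Pool.Agent.Lib.MP_b9e19b_mp.Box.Root7s
import Pool.Agent.Lib.MP_b9e19b_mp.Small.Tri.No7big
import Pool.Agent.Lib.MP_b9e19b_mp.Cert.All7

set_option autoImplicit false

/-!
# No central configuration of `7` equal masses satisfies the necessary conditions
-/

namespace RelEqN.Small

open Box

theorem noNec7 : NoNec 7 := noNec7_of Tri.noNec7big noCfg7

end RelEqN.Small
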